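import Pool.Agent.VCO.Defs

/-!
# Zero sets of sections of vector bundles on varieties which are fibred over a surface:
definitions for the conclusion
-/

set_option autoImplicit false

open MvPolynomial

namespace Pool.Agent.VCO

open Pool.Agent.VCI (ciS CHQ)

variable {n m u : ℕ}

/-- The products of `N` of the operators `(1 - Θ / b) (Ψ i - q i) (1 - Θ / b)` are zero. -/
def CovNil {M : Type} [AddCommGroup M] [Module ℚ M] {t : ℕ} (Ψ : Fin t → Module.End ℚ M)
    (q : Fin t → ℚ) (N b : ℕ) (Θ : Module.End ℚ M) : Prop :=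
  ∀ word : Fin N → Fin t, (List.ofFn fun j =>
    (1 - (b : ℚ)⁻¹ • Θ) * (Ψ (word j) - q (word j) • 1) * (1 - (b : ℚ)⁻¹ • Θ)).prod = 0

/-- The points of `V` have `b > 1` equivalent points, there is exactly one endomorphism `Θ` which
maps the class of each of them to the sum of the classes of its equivalent points, and the products
of `N` of the operators `(1 - Θ / b) (Ψ i - q i) (1 - Θ / b)` are zero. -/
def TrNil (F : Fin m → MvPolynomial (Fin n) ℂ) (E : Fin u → MvPolynomial (Fin n ⊕ Fin n) ℂ)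
    (V : Set (ciS F)) {t : ℕ} (Ψ : Fin t → Module.End ℚ (CHQ (ciS F))) (q : Fin t → ℚ)
    (N b : ℕ) : Prop :=
  1 < b ∧ ∃ Θ : Module.End ℚ (CHQ (ciS F)), IsTr F E V b Θ ∧ (∀ Θ', IsTr F E V b Θ' → Θ' = Θ) ∧
    CovNil Ψ q N b Θ

end Pool.Agent.VCO
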