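import Pool.Agent.VRC.RelA
import Pool.Agent.VRC.LinD
import Pool.Agent.VRC.Link

/-! Bihomogenisation. -/

set_option autoImplicit false

open scoped LinearAlgebra.Projectivization
open MvPolynomial

namespace Pool.Agent.VCO

open Pool.Agent.VGS (Fl adj clo Coef)
open Pool.Agent.VRC (IsBiHom isBiHom_inl isBiHom_inr)

variable {n : ℕ}

/-! ### bihomogenisation -/

/-- The bihomogenisation with respect to the variables `i` and `i'`. -/
noncomputable def bhz (i i' : Fin n) (Q : MvPolynomial (Fin n ⊕ Fin n) ℂ) :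
    MvPolynomial (Fin n ⊕ Fin n) ℂ :=
  ∑ u ∈ Q.support, rename Sum.inl (C (coeff u Q) * ((∏ j, X j ^ u (Sum.inl j)) *
      X i ^ (Q.totalDegree - ∑ j, u (Sum.inl j)))) *
    rename Sum.inr ((∏ j, X j ^ u (Sum.inr j)) * X i' ^ (Q.totalDegree - ∑ j, u (Sum.inr j)))

theorem deg_le {Q : MvPolynomial (Fin n ⊕ Fin n) ℂ} {u : Fin n ⊕ Fin n →₀ ℕ}
    (hu : u ∈ Q.support) : ∑ j, u (Sum.inl j) ≤ Q.totalDegree ∧
      ∑ j, u (Sum.inr j) ≤ Q.totalDegree := by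
  have h1 := le_totalDegree hu
  rw [Finsupp.sum_fintype u (fun _ e => e) (fun _ => rfl), Fintype.sum_sum_type] at h1
  constructor <;> omega

theorem mon_hom (u : Fin n → ℕ) (i : Fin n) {D : ℕ} (h : ∑ j, u j ≤ D) :
    ((∏ j, X j ^ u j) * X i ^ (D - ∑ j, u j) : MvPolynomial (Fin n) ℂ).IsHomogeneous D := by
  have h1 := IsHomogeneous.prod (Finset.univ : Finset (Fin n))
    (fun j => (X j : MvPolynomial (Fin n) ℂ) ^ u j) u (fun j _ => by
      have h2 := (isHomogeneous_X ℂ j).pow (u j)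
      rwa [one_mul] at h2)
  have h3 := (isHomogeneous_X ℂ i).pow (D - ∑ j, u j)
  rw [one_mul] at h3
  have h4 := h1.mul h3
  rwa [Nat.add_sub_cancel' h] at h4

theorem isBiHom_bhz (i i' : Fin n) (Q : MvPolynomial (Fin n ⊕ Fin n) ℂ) :
    IsBiHom (bhz i i' Q) Q.totalDegree Q.totalDegree := by
  refine VRC.IsBiHom.sum _ fun u hu => ?_
  obtain ⟨h1, h2⟩ := deg_le hu
  have h3 := (isHomogeneous_C (Fin n) (coeff u Q)).mul (mon_hom (fun j => u (Sum.inl j)) i h1)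
  rw [zero_add] at h3
  have h4 := (isBiHom_inl h3).mul (isBiHom_inr (mon_hom (fun j => u (Sum.inr j)) i' h2))
  rwa [add_zero, zero_add] at h4

theorem aeval_bhz (i i' : Fin n) (Q : MvPolynomial (Fin n ⊕ Fin n) ℂ) {x y x' y' : Fin n → ℂ}
    {a b : ℂ} (hx : ∀ j, x j = a * x' j) (hy : ∀ j, y j = b * y' j) (hxi : x' i = 1)
    (hyi : y' i' = 1) :
    aeval (Sum.elim x y) (bhz i i' Q) =
      a ^ Q.totalDegree * b ^ Q.totalDegree * aeval (Sum.elim x' y') Q := by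
  unfold bhz
  rw [map_sum]
  conv_rhs => rw [aeval_def, eval₂_eq', Finset.mul_sum]
  refine Finset.sum_congr rfl fun u hu => ?_
  obtain ⟨h1, h2⟩ := deg_le hu
  obtain ⟨e, he⟩ : ∃ e, Q.totalDegree = ∑ j, u (Sum.inl j) + e := ⟨_, (Nat.add_sub_cancel' h1).symm⟩
  obtain ⟨e', he'⟩ : ∃ e', Q.totalDegree = ∑ j, u (Sum.inr j) + e' :=
    ⟨_, (Nat.add_sub_cancel' h2).symm⟩
  have h3 : Q.totalDegree - ∑ j, u (Sum.inl j) = e := by omega
  have h4 : Q.totalDegree - ∑ j, u (Sum.inr j) = e' := by omega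
  have ha : a ^ Q.totalDegree = (∏ j, a ^ u (Sum.inl j)) * a ^ e := by
    rw [Finset.prod_pow_eq_pow_sum, he, pow_add]
  have hb : b ^ Q.totalDegree = (∏ j, b ^ u (Sum.inr j)) * b ^ e' := by
    rw [Finset.prod_pow_eq_pow_sum, he', pow_add]
  rw [h3, h4, ha, hb, map_mul, aeval_rename, aeval_rename, Sum.elim_comp_inl, Sum.elim_comp_inr,
    Fintype.prod_sum_type]
  simp only [map_mul, map_prod, map_pow, aeval_X, aeval_C, hx, hy, hxi, hyi, mul_pow,
    Finset.prod_mul_distrib, Sum.elim_inl, Sum.elim_inr, mul_one]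
  ring

theorem coef_bhz {L : Fl} (i i' : Fin n) {Q : MvPolynomial (Fin n ⊕ Fin n) ℂ} (hQ : Coef L Q) :
    Coef L (bhz i i' Q) := by
  have hX : ∀ j : Fin n, (X j : MvPolynomial (Fin n) ℂ) ∈
      (MvPolynomial.map (σ := Fin n) (algebraMap L ℂ)).range := fun j =>
    VRC.lk_coef_iff.1 (VRC.coef_X j)
  have h1 : ∀ (u : Fin n → ℕ) (j : Fin n) (e : ℕ),
      ((∏ j, X j ^ u j) * X j ^ e : MvPolynomial (Fin n) ℂ) ∈
        (MvPolynomial.map (σ := Fin n) (algebraMap L ℂ)).range := fun u j e =>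
    mul_mem (prod_mem fun j _ => pow_mem (hX j) _) (pow_mem (hX j) _)
  rw [VRC.lk_coef_iff]
  refine sum_mem fun u _ => mul_mem (VRC.lk_coef_iff.1 (VRC.coef_rename _ (VRC.lk_coef_iff.2
    (mul_mem (VRC.lk_coef_iff.1 (VRC.lk_coef_C (hQ u))) (h1 _ _ _)))))
    (VRC.lk_coef_iff.1 (VRC.coef_rename _ (VRC.lk_coef_iff.2 (h1 _ _ _))))

end Pool.Agent.VCO
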