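import Pool.Agent.VCO.ClsOf

/-! Finite classes: bigger fields, an automorphism which interchanges two equivalent points. -/

set_option autoImplicit false

open scoped LinearAlgebra.Projectivization
open MvPolynomial

namespace Pool.Agent.VCO

open Pool.Agent.VGS (Fl adj clo Coef Fix_mono le_adj le_clo clo_mono adj_le ai_mono)
open Pool.Agent.VCI hiding EffCorr IsGenericPoint tau tauC
open Pool.Agent.VIR (EqvP)

variable {n m u : ℕ} {F : Fin m → MvPolynomial (Fin n) ℂ} {d : Fin m → ℕ}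
  {E : Fin u → MvPolynomial (Fin n ⊕ Fin n) ℂ} {K K' : Fl}

theorem ClsC.mono (C : ClsC F E K) (h : K ≤ K') : ClsC F E K' where
  act σ hσ := C.act σ (Fix_mono h hσ)
  refl := C.refl
  symm := C.symm
  trans := C.trans
  fin p hp := C.fin p (Gen_anti h F hp)
  two p hp := C.two p (Gen_anti h F hp)
  ov p hp q hq hpq := by
    refine (C.ov p (Gen_anti h F hp) q hq hpq).mono (clo_mono ?_)
    exact adj_le (h.trans (le_adjP _ _)) (VGS.subset_adj _ _)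
  gen L hL hKL := C.gen L hL (h.trans hKL)
  conj L hL hKL := C.conj L hL (h.trans hKL)

theorem cls_swap (hF : ∀ i, (F i).IsHomogeneous (d i)) (hK : Countable K)
    (hcoef : ∀ i, Coef K (F i))
    (hconj : ∀ L : Fl, Countable L → K ≤ L → ∀ p ∈ Gen L F, ∀ q ∈ Gen L F,
      ∃ σ ∈ VGS.Fix (clo L), VCI.act σ p = q)
    (C : ClsC F E K) {p q : PN n} (hp : p ∈ Gen K F) (hq : Nb F E p q) :
    ∃ sw ∈ VGS.Fix K, VCI.act sw p = q ∧ VCI.act sw q = p := by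
  have hqK : q ∈ Gen K F := C.gen K hK le_rfl p hp q hq.1 hq.2.1
  obtain ⟨σ₁, hσ₁, h1⟩ := hconj K hK le_rfl p hp q hqK
  have hσ₁K : σ₁ ∈ VGS.Fix K := Fix_mono (le_clo K) hσ₁
  have hn₁ : Nb F E q (VCI.act σ₁ q) := by
    have h3 : EqvP E (VCI.act σ₁ p) (VCI.act σ₁ q) := C.act σ₁ hσ₁K _ _ hq.2.1
    rw [h1] at h3
    refine ⟨(act_mem_surf hF hcoef hσ₁K).2 hq.1, h3, fun h => hq.2.2 (act_injective σ₁ ?_)⟩
    rw [h, h1]
  have hn₂ : Nb F E q p := ⟨hp.1, C.symm p hp.1 q hq.1 hq.2.1, fun h => hq.2.2 h.symm⟩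
  obtain ⟨σ₂, hσ₂, h2⟩ := C.conj K hK le_rfl q hqK (VCI.act σ₁ q) p hn₁ hn₂
  obtain ⟨hσ₂K, hσ₂q⟩ := mem_Fix_adjP.1 hσ₂
  exact ⟨σ₂ * σ₁, mul_mem hσ₂K hσ₁K, by rw [act_mul, h1, hσ₂q], by rw [act_mul, h2]⟩

end Pool.Agent.VCO
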