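import Pool.Agent.VCO.SDefs
import Pool.Agent.VCO.Bhz
import Pool.Agent.VIR.ClsDef
import Pool.Agent.VRC.Base
import Pool.Agent.VRC.LinSep
import Pool.Agent.VRC.LinA
import Pool.Agent.VRC.Frm

/-! Finite equivalence classes of points of the surface: generic points, conjugation. -/

set_option autoImplicit false

open scoped LinearAlgebra.Projectivization
open MvPolynomial

namespace Pool.Agent.VCO

open Pool.Agent.VGS (Fl adj clo Coef le_adj le_clo subset_adj adj_le clo_mono ai_mono clo_clo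
  clo_adj_le Fix_mono)
open Pool.Agent.VCI hiding EffCorr IsGenericPoint tau tauC
open Pool.Agent.VRC (cone IsIrr IsBiHom Sfc0 cone_fix exists_smul_ne lin_basis not_pair)
open Pool.Agent.VIR (Eqv EqvP eqv_smul eqv_fix eqvP_mk eqvP_act)

section

variable {n m u : ℕ} {F : Fin m → MvPolynomial (Fin n) ℂ} {d : Fin m → ℕ}
  {E : Fin u → MvPolynomial (Fin n ⊕ Fin n) ℂ} {K : Fl}

/-- an automorphism which fixes the polynomials over `L` in the pair -/
theorem exists_fix2 (L : Fl) [Countable L] {z w z' w' : Fin n → ℂ}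
    (h : ∀ P : MvPolynomial (Fin n ⊕ Fin n) ℂ, Coef L P →
      (aeval (Sum.elim z w) P = 0 ↔ aeval (Sum.elim z' w') P = 0)) :
    ∃ σ ∈ VGS.Fix L, (∀ i, σ (z i) = z' i) ∧ ∀ i, σ (w i) = w' i := by
  obtain ⟨σ, hσ, h1⟩ := VGS.exists_fix L
    (fun i : Fin (n + n) => Sum.elim z w (finSumFinEquiv.symm i))
    (fun i : Fin (n + n) => Sum.elim z' w' (finSumFinEquiv.symm i)) (fun P hP => by
      have h2 := h (rename finSumFinEquiv.symm P) (VRC.coef_rename _ hP)
      rw [aeval_rename, aeval_rename] at h2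
      exact h2)
  refine ⟨σ, hσ, fun i => ?_, fun i => ?_⟩
  · have h2 := h1 (finSumFinEquiv (Sum.inl i))
    rwa [Equiv.symm_apply_apply] at h2
  · have h2 := h1 (finSumFinEquiv (Sum.inr i))
    rwa [Equiv.symm_apply_apply] at h2

theorem isPair_smul (hF : ∀ i, ∃ e, (F i).IsHomogeneous e)
    (hE : ∀ i, ∃ e e', IsBiHom (E i) e e') {z y : Fin n → ℂ} {a b : ℂ} (ha : a ≠ 0) (hb : b ≠ 0)
    (h : IsPair F E z y) : IsPair F E (fun j => a * z j) (fun j => b * y j) := by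
  obtain ⟨h1, h2, h3, i, j, h4⟩ := h
  refine ⟨VRC.IrrA.cone_scale hF ha h1 fun _ => rfl, VRC.IrrA.cone_scale hF hb h2 fun _ => rfl,
    (eqv_smul hE ha hb).2 h3, i, j, fun h5 => h4 ?_⟩
  have h6 : a * b * (y i * z j) = a * b * (y j * z i) := by linear_combination h5
  exact mul_left_cancel₀ (mul_ne_zero ha hb) h6

theorem isPair_fix (hFK : ∀ i, Coef K (F i)) (hEK : ∀ i, Coef K (E i)) {σ : ℂ ≃+* ℂ}
    (hσ : σ ∈ VGS.Fix K) {z y : Fin n → ℂ} (h : IsPair F E z y) :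
    IsPair F E (fun j => σ (z j)) (fun j => σ (y j)) := by
  obtain ⟨h1, h2, h3, i, j, h4⟩ := h
  refine ⟨cone_fix hFK hσ h1, cone_fix hFK hσ h2, eqv_fix hEK hσ h3, i, j, fun h5 => h4 ?_⟩
  rw [← map_mul, ← map_mul] at h5
  exact σ.injective h5

theorem isPair_nb (hF : ∀ i, (F i).IsHomogeneous (d i)) (hE : ∀ i, ∃ e e', IsBiHom (E i) e e')
    {z y : Fin n → ℂ} (hz : z ≠ 0) (hy : y ≠ 0) (hzF : z ∈ cone F) :
    IsPair F E z y ↔ Nb F E (Projectivization.mk ℂ z hz) (Projectivization.mk ℂ y hy) := by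
  constructor
  · rintro ⟨-, h2, h3, i, j, h4⟩
    refine ⟨(mem_surf_mk hF hy).2 h2.2, (eqvP_mk hE hz hy).2 h3, fun h5 => h4 ?_⟩
    obtain ⟨a, ha, h6⟩ := (mk_eq_mk_iff_exists hy hz).1 h5
    rw [h6, h6]
    ring
  · rintro ⟨h2, h3, h4⟩
    refine ⟨hzF, ⟨hy, (mem_surf_mk hF hy).1 h2⟩, (eqvP_mk hE hz hy).1 h3, ?_⟩
    by_contra hcon
    push Not at hcon
    exact h4 (pp_eq_of_cross hy hz hcon)

theorem eqv_rep (hE : ∀ i, ∃ e e', IsBiHom (E i) e e') {z : Fin n → ℂ} (hz : z ≠ 0) (q : PN n) :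
    EqvP E (Projectivization.mk ℂ z hz) q ↔ Eqv E z q.rep := by
  have h1 := eqvP_mk hE hz q.rep_nonzero
  rwa [q.mk_rep] at h1

end

variable {r m u : ℕ} {F : Fin m → MvPolynomial (Fin (r + 3)) ℂ} {d : Fin m → ℕ}
  {E : Fin u → MvPolynomial (Fin (r + 3) ⊕ Fin (r + 3)) ℂ} {K : Fl}

/-- a generic point is moved to a point at which countably many polynomials are not zero -/
theorem exists_move_gen (hX : Sfc0 F d K) (hirr : IsIrr F) {ι : Type} [Countable ι]
    (B : ι → MvPolynomial (Fin (r + 3)) ℂ) (hB : ∀ i, ∃ z ∈ cone F, aeval z (B i) ≠ 0) {L : Fl}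
    (hLc : Countable L) (hL : K ≤ L) {z : Fin (r + 3) → ℂ} (hz : z ≠ 0) {i₀ : Fin (r + 3)}
    (hzi : z i₀ = 1) (hp : (Projectivization.mk ℂ z hz : PN (r + 3)) ∈ Gen L F) :
    ∃ σ ∈ VGS.Fix (clo L), ∀ i, ∃ t : ℂ, t ≠ 0 ∧ aeval (fun j => t * σ (z j)) (B i) ≠ 0 := by
  classical
  have hex : ∀ i, ∃ e, ∃ z₀ ∈ cone F, aeval z₀ (homogeneousComponent e (B i)) ≠ 0 := by
    intro i
    obtain ⟨z₀, hz₀, hB0⟩ := hB i
    by_contra hcon
    push Not at hcon
    apply hB0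
    rw [← sum_homogeneousComponent (B i), map_sum]
    exact Finset.sum_eq_zero fun e _ => hcon e z₀ hz₀
  choose e z₀ hz₀ he using hex
  obtain ⟨M, hM⟩ : ∃ M : Fl, M = adj L (Set.range fun im : ι × (Fin (r + 3) →₀ ℕ) =>
    coeff im.2 (B im.1)) := ⟨_, rfl⟩
  have hcr : Countable (Set.range fun im : ι × (Fin (r + 3) →₀ ℕ) => coeff im.2 (B im.1)) :=
    (Set.countable_range _).to_subtype
  have hcM : Countable M := by
    rw [hM]
    exact VGS.countable_adj L _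
  have hLM : L ≤ M := by
    rw [hM]
    exact le_adj _ _
  obtain ⟨p', hp'⟩ := hX.gen M hcM
  obtain ⟨σ, hσ, hσp⟩ := hX.conj L hLc hL _ hp p' (Gen_anti hLM _ hp')
  have hσK : σ ∈ VGS.Fix K := Fix_mono (hL.trans (le_clo L)) hσ
  have hz' := map_ne_zero' σ hz
  rw [act_mk σ z hz hz'] at hσp
  rw [← hσp] at hp'
  have hzX : z ∈ cone F := ⟨hz, (mem_surf_mk hX.hom hz).1 hp.1⟩
  have hσz := cone_fix hX.coef hσK hzX
  have hσi : (fun j => σ (z j)) i₀ = 1 := by
    change σ (z i₀) = 1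
    rw [hzi, map_one]
  refine ⟨σ, hσ, fun i => exists_smul_ne (e := e i) fun h0 => he i ?_⟩
  obtain ⟨j, l, hjl⟩ := gen_coord hX.hom hz' hσi hp'
  refine VRC.gen_rel hirr (fun i => ⟨d i, hX.hom i⟩) M (fun i => (hX.coef i).mono (hL.trans hLM))
    hσz hσi ![j, l] (e := 2) ?_ (fun v hv => hX.tan_dep hσz hv)
    (homogeneousComponent_isHomogeneous (e i) (B i)) (fun m => ?_) h0 (z₀ i) (hz₀ i)
  · have h1 : (fun b : Fin 2 => σ (z (![j, l] b))) = ![σ (z j), σ (z l)] := by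
      funext b
      fin_cases b <;> rfl
    rw [h1]
    exact hjl
  · rw [coeff_homogeneousComponent]
    split_ifs
    · refine le_clo _ ?_
      rw [hM]
      exact subset_adj _ _ ⟨(i, m), rfl⟩
    · exact zero_mem _

/-- the class of a generic point is finite and has another point -/
theorem cls_fin (hX : Sfc0 F d K) (hirr : IsIrr F) (hE : IsCov F E) (hEK : ∀ i, Coef K (E i))
    {p : PN (r + 3)} (hp : p ∈ Gen K F) :
    {q | q ∈ ciS F ∧ EqvP E p q}.Finite ∧ ∃ q, Nb F E p q := by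
  obtain ⟨z, hz, i₀, hzi, rfl⟩ := exists_nrm p
  obtain ⟨B, hB0, hB⟩ := hE.fin
  have hzF : z ∈ cone F := ⟨hz, (mem_surf_mk hX.hom hz).1 hp.1⟩
  obtain ⟨σ, hσ, h1⟩ := exists_move_gen hX hirr (fun _ : Unit => B) (fun _ => hB0) hX.cK le_rfl hz
    hzi hp
  obtain ⟨t, ht, hBt⟩ := h1 ()
  have hσK : σ ∈ VGS.Fix K := Fix_mono (le_clo K) hσ
  have hFh : ∀ i, ∃ e, (F i).IsHomogeneous e := fun i => ⟨d i, hX.hom i⟩
  have hσz := cone_fix hX.coef hσK hzF
  have htz : (fun j => t * σ (z j)) ∈ cone F := VRC.IrrA.cone_scale hFh ht hσz fun _ => rfl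
  obtain ⟨hfin, y, hy⟩ := hB _ htz hBt
  have hpt : act σ (Projectivization.mk ℂ z hz : PN (r + 3)) = Projectivization.mk ℂ _ htz.1 := by
    rw [act_mk σ z hz (map_ne_zero' σ hz)]
    exact (mk_eq_mk_of_mul htz.1 (map_ne_zero' σ hz) (a := t) fun _ => rfl).symm
  constructor
  · refine (hfin.preimage (act_injective σ).injOn).subset ?_
    rintro q ⟨hq, hpq⟩
    refine ⟨(act_mem_surf hX.hom hX.coef hσK).2 hq, ?_⟩
    have h2 := eqvP_act hE.hom hEK hσK hpq
    rw [hpt] at h2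
    exact (eqv_rep hE.hom htz.1 _).1 h2
  · have hi : σ⁻¹ ∈ VGS.Fix K := inv_mem hσK
    have h2 := isPair_fix hX.coef hEK hi hy
    have h3 : (fun j => σ⁻¹ (t * σ (z j))) = fun j => σ⁻¹ t * z j := by
      funext j
      rw [map_mul]
      congr 1
      exact σ.symm_apply_apply _
    rw [h3] at h2
    have ht' : σ⁻¹ t ≠ 0 := by
      intro h0
      exact ht ((map_eq_zero_iff σ⁻¹ (σ⁻¹).injective).1 h0)
    have h4 := isPair_smul hFh hE.hom (inv_ne_zero ht') one_ne_zero h2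
    have h5 : (fun j => (σ⁻¹ t)⁻¹ * (σ⁻¹ t * z j)) = z := by
      funext j
      exact inv_mul_cancel_left₀ ht' _
    rw [h5] at h4
    exact ⟨_, (isPair_nb hX.hom hE.hom hz h4.2.1.1 hzF).1 h4⟩

/-- a biform over `L` is zero at `(z, y)` if it is zero at `(z, y')`, `z` generic over `L` -/
theorem all_or_none (hX : Sfc0 F d K) (hirr : IsIrr F) (hE : IsCov F E) (hEK : ∀ i, Coef K (E i))
    {L : Fl} (hLc : Countable L) (hL : K ≤ L) {z : Fin (r + 3) → ℂ} (hz : z ≠ 0)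
    {i₀ : Fin (r + 3)} (hzi : z i₀ = 1)
    (hp : (Projectivization.mk ℂ z hz : PN (r + 3)) ∈ Gen L F) {y y' : Fin (r + 3) → ℂ}
    (hy : IsPair F E z y) (hy' : IsPair F E z y')
    {A : MvPolynomial (Fin (r + 3) ⊕ Fin (r + 3)) ℂ} {e e' : ℕ} (hA : IsBiHom A e e')
    (hAL : Coef L A) (h0 : aeval (Sum.elim z y) A = 0) : aeval (Sum.elim z y') A = 0 := by
  obtain ⟨B, hB0, hB⟩ := hE.irr A e e' hA
  obtain ⟨σ, hσ, h1⟩ := exists_move_gen hX hirr (fun _ : Unit => B) (fun _ => hB0) hLc hL hz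
    hzi hp
  obtain ⟨t, ht, hBt⟩ := h1 ()
  have hσL : σ ∈ VGS.Fix L := Fix_mono (le_clo L) hσ
  have hσK : σ ∈ VGS.Fix K := Fix_mono hL hσL
  have hFh : ∀ i, ∃ e, (F i).IsHomogeneous e := fun i => ⟨d i, hX.hom i⟩
  have key : ∀ y, IsPair F E z y → IsPair F E (fun j => t * σ (z j)) (fun j => 1 * σ (y j)) ∧
      (aeval (Sum.elim (fun j => t * σ (z j)) (fun j => 1 * σ (y j))) A = 0 ↔
        aeval (Sum.elim z y) A = 0) := by
    intro y hy
    refine ⟨isPair_smul hFh hE.hom ht one_ne_zero (isPair_fix hX.coef hEK hσK hy), ?_⟩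
    rw [VRC.aeval_biHom hA, one_pow, mul_one]
    have h2 := VGS.aeval_fix hAL hσL (Sum.elim z y)
    have h3 : (fun j => σ (Sum.elim z y j)) = Sum.elim (fun j => σ (z j)) (fun j => σ (y j)) := by
      funext j
      rcases j with j | j <;> rfl
    rw [h3] at h2
    rw [h2, mul_eq_zero, map_eq_zero_iff σ σ.injective]
    exact ⟨fun h => h.resolve_left (pow_ne_zero _ ht), Or.inr⟩
  obtain ⟨h2, h3⟩ := key y hy
  obtain ⟨h4, h5⟩ := key y' hy'
  rcases hB with h6 | h6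
  · exact h5.1 (h6 _ _ h4 hBt)
  · exact absurd (h3.2 h0) (h6 _ _ h2 hBt)

/-- **Equivalence classes of a covering.** -/
theorem clsC_of (hX : Sfc0 F d K) (hirr : IsIrr F) (hE : IsCov F E) (hEK : ∀ i, Coef K (E i)) :
    ClsC F E K := by
  classical
  have hcK := hX.cK
  have hrep : ∀ p ∈ ciS F, (p : PN (r + 3)).rep ∈ cone F := fun p hp => ⟨p.rep_nonzero, hp⟩
  have hact : ∀ σ ∈ VGS.Fix K, ∀ p q : PN (r + 3), EqvP E p q → EqvP E (act σ p) (act σ q) :=
    fun σ hσ p q h => eqvP_act hE.hom hEK hσ h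
  have hsymm : ∀ p ∈ ciS F, ∀ q ∈ ciS F, EqvP E p q → EqvP E q p :=
    fun p hp q hq h => hE.symm _ (hrep p hp) _ (hrep q hq) h
  have htrans : ∀ p ∈ ciS F, ∀ q ∈ ciS F, ∀ x ∈ ciS F, EqvP E p q → EqvP E q x → EqvP E p x :=
    fun p hp q hq x hx h1 h2 => hE.trans _ (hrep p hp) _ (hrep q hq) _ (hrep x hx) h1 h2
  -- a point of a finite class is algebraic over the other points
  have hover : ∀ L : Fl, Countable L → K ≤ L → ∀ p ∈ ciS F, ∀ q ∈ ciS F, EqvP E p q →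
      {x | x ∈ ciS F ∧ EqvP E p x}.Finite → Over (clo (adjP L p)) q := by
    intro L hLc hL p hp q hq hpq hfin
    have hc : Countable (adjP L p) := VRC.sw_countable_adjP hLc p
    refine over_clo_of_finite (adjP L p) (hfin.subset ?_)
    rintro x ⟨σ, hσ, rfl⟩
    rw [mem_Fix_adjP] at hσ
    have hσK := Fix_mono hL hσ.1
    refine ⟨(act_mem_surf hX.hom hX.coef hσK).2 hq, ?_⟩
    have h1 := hact σ hσK p q hpq
    rwa [hσ.2] at h1
  refine ⟨hact, fun p hp => hE.refl _ (hrep p hp), hsymm, htrans,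
    fun p hp => (cls_fin hX hirr hE hEK hp).1, fun p hp => (cls_fin hX hirr hE hEK hp).2,
    fun p hp q hq hpq => hover K hcK le_rfl p hp.1 q hq hpq (cls_fin hX hirr hE hEK hp).1,
    ?_, ?_⟩
  · -- generic points
    intro L hLc hL p hp q hq hpq
    have hpK := Gen_anti hL _ hp
    have hfq : {x | x ∈ ciS F ∧ EqvP E q x}.Finite :=
      (cls_fin hX hirr hE hEK hpK).1.subset fun x hx => ⟨hx.1, htrans p hp.1 q hq x hx.1 hpq hx.2⟩
    have hov := hover L hLc hL q hq p hp.1 (hsymm p hp.1 q hq hpq) hfq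
    by_contra hcon
    obtain ⟨w, hw, i, hwi, rfl⟩ := exists_nrm q
    obtain ⟨z, hz, i₀, hzi, rfl⟩ := exists_nrm p
    obtain ⟨j, l, hjl⟩ := gen_coord hX.hom hz hzi hp
    rw [adjP_mk hw hwi, over_mk hz hzi] at hov
    have hnp : VRC.TrLe L 1 w := by
      intro f hf
      refine hcon ⟨hq, i, f 0, f 1, ?_, ?_⟩
      · rw [Ne, VCI.rep_mk_eq_zero hw i, hwi]
        exact one_ne_zero
      · rw [VCI.rep_mk_div, VCI.rep_mk_div, hwi, div_one, div_one]
        convert hf using 1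
        funext b
        fin_cases b <;> rfl
    obtain ⟨e, f, hf, hfw⟩ := lin_basis L w
    have he : e ≤ 1 := hnp.le_of_ai hf
    have h1 : clo (adj L (Set.range w)) ≤ clo (adj L (Set.range fun b => w (f b))) := by
      rw [← clo_clo (adj L (Set.range fun b => w (f b)))]
      refine clo_mono (adj_le ((le_adj _ _).trans (le_clo _)) ?_)
      rintro _ ⟨a, rfl⟩
      exact hfw a
    have h2 : ∀ b, ![z j, z l] b ∈ clo (adj L (Set.range fun b => w (f b))) := by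
      intro b
      fin_cases b
      · exact h1 (hov j)
      · exact h1 (hov l)
    have h3 := VCI.ai_le_card hjl h2
    rw [Nat.card_eq_fintype_card, Nat.card_eq_fintype_card, Fintype.card_fin,
      Fintype.card_fin] at h3
    omega
  · -- conjugation
    intro L hLc hL p hp q q' hq hq'
    obtain ⟨z, hz, i₀, hzi, rfl⟩ := exists_nrm p
    have hzF : z ∈ cone F := ⟨hz, (mem_surf_mk hX.hom hz).1 hp.1⟩
    obtain ⟨y, hy, i, hyi, rfl⟩ := exists_nrm q
    obtain ⟨y', hy', i', hyi', rfl⟩ := exists_nrm q'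
    have hP := (isPair_nb hX.hom hE.hom hz hy hzF).2 hq
    have hP' := (isPair_nb hX.hom hE.hom hz hy' hzF).2 hq'
    have hne : y' i ≠ 0 := by
      intro h0
      have h1 := all_or_none hX hirr hE hEK hLc hL hz hzi hp hP' hP (A := X (Sum.inr i))
        (by
          have h2 := VRC.isBiHom_inr (isHomogeneous_X ℂ i)
          rwa [rename_X] at h2) (VRC.coef_X _) (by rw [aeval_X]; exact h0)
      rw [aeval_X] at h1
      exact one_ne_zero (hyi.symm.trans h1)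
    obtain ⟨w, hwdef⟩ : ∃ w : Fin (r + 3) → ℂ, w = fun a => (y' i)⁻¹ * y' a := ⟨_, rfl⟩
    have hwi : w i = 1 := by rw [hwdef]; exact inv_mul_cancel₀ hne
    have hw : w ≠ 0 := by
      intro h
      rw [h] at hwi
      exact zero_ne_one hwi
    have hpt : (Projectivization.mk ℂ y' hy' : PN (r + 3)) = Projectivization.mk ℂ w hw :=
      mk_eq_mk_of_mul _ _ (a := y' i) fun a => by
        rw [hwdef]
        exact (mul_inv_cancel_left₀ hne _).symm
    have hPw : IsPair F E z w := (isPair_nb hX.hom hE.hom hz hw hzF).2 (by rw [← hpt]; exact hq')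
    have h1 : ∀ x : Fin (r + 3) → ℂ, ∀ j, x j = 1 * x j := fun x j => (one_mul _).symm
    obtain ⟨σ, hσ, hσz, hσy⟩ := exists_fix2 L (z := z) (w := y) (z' := z) (w' := w) (fun P hPL => by
      have h2 := aeval_bhz i₀ i P (h1 z) (h1 y) hzi hyi
      have h3 := aeval_bhz i₀ i P (h1 z) (h1 w) hzi hwi
      rw [one_pow, one_mul, one_mul] at h2 h3
      rw [← h2, ← h3]
      exact ⟨all_or_none hX hirr hE hEK hLc hL hz hzi hp hP hPw (isBiHom_bhz i₀ i P)
          (coef_bhz i₀ i hPL),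
        all_or_none hX hirr hE hEK hLc hL hz hzi hp hPw hP (isBiHom_bhz i₀ i P)
          (coef_bhz i₀ i hPL)⟩)
    refine ⟨σ, mem_Fix_adjP.2 ⟨hσ, ?_⟩, ?_⟩
    · rw [act_mk σ z hz (map_ne_zero' σ hz)]
      congr 1
      exact funext hσz
    · rw [act_mk σ y hy (map_ne_zero' σ hy), hpt]
      congr 1
      exact funext hσy

end Pool.Agent.VCO
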