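import Pool.Agent.VCO.SDefs
import Pool.Agent.VIR.ClsDef
import Pool.Agent.VCI.InstA

/-! The sum of the points of a class. -/

set_option autoImplicit false

open scoped LinearAlgebra.Projectivization
open MvPolynomial

namespace Pool.Agent.VCO

open Pool.Agent.VGS (Fl adj clo Coef Fix_mono le_adj le_clo)
open Pool.Agent.VCI hiding veryGen IsAct EffCorr ActsByScalar IsGenericPoint
open Pool.Agent.VRC (cone IsIrr Sfc0 Sfc)
open Pool.Agent.VIR (Eqv EqvP)

variable {m r u : ℕ} {F : Fin m → MvPolynomial (Fin (r + 3)) ℂ} {d : Fin m → ℕ}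
  {E : Fin u → MvPolynomial (Fin (r + 3) ⊕ Fin (r + 3)) ℂ} {K : Fl}

theorem clsSum_eq {p : PN (r + 3)} (h : {q | q ∈ ciS F ∧ EqvP E p q}.Finite) :
    clsSum F E p = ∑ q ∈ h.toFinset, Finsupp.single q 1 := by
  unfold clsSum
  rw [dif_pos h]

theorem clsSum_apply (C : ClsC F E K) {p : PN (r + 3)} (hp : p ∈ Gen K F) (q : PN (r + 3)) :
    clsSum F E p q = 1 ∧ q ∈ ciS F ∧ EqvP E p q ∨ clsSum F E p q = 0 ∧
      ¬ (q ∈ ciS F ∧ EqvP E p q) := by
  classical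
  have h := C.fin p hp
  rw [clsSum_eq h, Finsupp.finsetSum_apply]
  simp only [Finsupp.single_apply]
  rw [Finset.sum_ite_eq' h.toFinset q fun _ => (1 : ℚ)]
  by_cases hq : q ∈ h.toFinset
  · rw [if_pos hq]
    exact Or.inl ⟨rfl, h.mem_toFinset.1 hq⟩
  · rw [if_neg hq]
    exact Or.inr ⟨rfl, fun h' => hq (h.mem_toFinset.2 h')⟩

theorem clsSum_supp (C : ClsC F E K) {p : PN (r + 3)} (hp : p ∈ Gen K F) {q : PN (r + 3)} :
    q ∈ (clsSum F E p).support ↔ q ∈ ciS F ∧ EqvP E p q := by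
  rw [Finsupp.mem_support_iff]
  rcases clsSum_apply C hp q with ⟨h1, h2⟩ | ⟨h1, h2⟩
  · exact ⟨fun _ => h2, fun _ => by rw [h1]; exact one_ne_zero⟩
  · exact ⟨fun h => absurd h1 h, fun h => absurd h h2⟩

theorem clsSum_idem (C : ClsC F E K) {p : PN (r + 3)} (hp : p ∈ Gen K F) {q : PN (r + 3)}
    (hq : q ∈ (clsSum F E p).support) : clsSum F E q = clsSum F E p := by
  obtain ⟨hqF, hpq⟩ := (clsSum_supp C hp).1 hq
  have h1 : {x | x ∈ ciS F ∧ EqvP E q x} = {x | x ∈ ciS F ∧ EqvP E p x} := by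
    ext x
    constructor
    · exact fun h => ⟨h.1, C.trans p hp.1 q hqF x h.1 hpq h.2⟩
    · exact fun h => ⟨h.1, C.trans q hqF p hp.1 x h.1 (C.symm p hp.1 q hqF hpq) h.2⟩
  have hq' : {x | x ∈ ciS F ∧ EqvP E q x}.Finite := by
    rw [h1]
    exact C.fin p hp
  rw [clsSum_eq hq', clsSum_eq (C.fin p hp)]
  refine Finset.sum_congr ?_ fun _ _ => rfl
  ext x
  rw [Set.Finite.mem_toFinset, Set.Finite.mem_toFinset, h1]

theorem clsSum_act (hX : Sfc0 F d K) (C : ClsC F E K) {σ : ℂ ≃+* ℂ} (hσ : σ ∈ VGS.Fix K)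
    {p : PN (r + 3)} (hp : p ∈ Gen K F) : clsSum F E (act σ p) = actC σ (clsSum F E p) := by
  classical
  have hσp : act σ p ∈ Gen K F := inst_act_gen hX.hom hX.coef hσ hp
  have hmem : ∀ τ ∈ VGS.Fix K, ∀ q, act τ q ∈ ciS F ↔ q ∈ ciS F := fun τ hτ q =>
    act_mem_surf hX.hom hX.coef hτ
  apply Finsupp.ext
  intro q
  have h1 : actC σ (clsSum F E p) q = clsSum F E p (act σ⁻¹ q) := by
    have h2 : q = act σ (act σ⁻¹ q) := by
      rw [← act_mul, mul_inv_cancel, act_one]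
    conv_lhs => rw [h2]
    unfold actC
    rw [Finsupp.lmapDomain_apply, Finsupp.mapDomain_apply (act_injective σ)]
  have h3 : (q ∈ ciS F ∧ EqvP E (act σ p) q) ↔
      (act σ⁻¹ q ∈ ciS F ∧ EqvP E p (act σ⁻¹ q)) := by
    have hσ' : σ⁻¹ ∈ VGS.Fix K := inv_mem hσ
    constructor
    · rintro ⟨h4, h5⟩
      refine ⟨(hmem _ hσ' q).2 h4, ?_⟩
      have h6 := C.act σ⁻¹ hσ' _ _ h5
      rwa [← act_mul, inv_mul_cancel, act_one] at h6
    · rintro ⟨h4, h5⟩
      refine ⟨(hmem _ hσ' q).1 h4, ?_⟩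
      have h6 := C.act σ hσ _ _ h5
      rwa [← act_mul σ σ⁻¹, mul_inv_cancel, act_one] at h6
  rw [h1]
  rcases clsSum_apply C hσp q with ⟨h4, h5⟩ | ⟨h4, h5⟩
  · rcases clsSum_apply C hp (act σ⁻¹ q) with ⟨h6, h7⟩ | ⟨h6, h7⟩
    · rw [h4, h6]
    · exact absurd (h3.1 h5) h7
  · rcases clsSum_apply C hp (act σ⁻¹ q) with ⟨h6, h7⟩ | ⟨h6, h7⟩
    · exact absurd (h3.2 h7) h5
    · rw [h4, h6]

theorem deg_clsSum (C : ClsC F E K) {p : PN (r + 3)} (hp : p ∈ Gen K F) :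
    Finsupp.linearCombination ℚ (fun _ : PN (r + 3) => (1 : ℚ)) (clsSum F E p) =
      ({q | q ∈ ciS F ∧ EqvP E p q}.ncard : ℚ) := by
  have h := C.fin p hp
  rw [clsSum_eq h, map_sum, Set.ncard_eq_toFinset_card _ h]
  simp only [Finsupp.linearCombination_single, smul_eq_mul, mul_one, Finset.sum_const,
    nsmul_eq_mul]

/-- the number of the points of a class -/
theorem exists_b (hX : Sfc F d K) (C : ClsC F E K) : ∃ b : ℕ, 0 < b ∧ ∀ p ∈ Gen K F,
    {q | q ∈ ciS F ∧ EqvP E p q}.ncard = b := by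
  have hcK := hX.cK
  have key : ∀ p ∈ Gen K F, ∀ p' ∈ Gen K F, {q | q ∈ ciS F ∧ EqvP E p' q}.ncard =
      {q | q ∈ ciS F ∧ EqvP E p q}.ncard := by
    intro p hp p' hp'
    obtain ⟨σ, hσ, rfl⟩ := hX.conj K hX.cK le_rfl p hp p' hp'
    have hσK : σ ∈ VGS.Fix K := Fix_mono (le_clo K) hσ
    have h1 := deg_clsSum C hp
    have h2 := deg_clsSum C hp'
    rw [clsSum_act hX.toSfc0 C hσK hp] at h2
    have h3 : Finsupp.linearCombination ℚ (fun _ : PN (r + 3) => (1 : ℚ))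
        (actC σ (clsSum F E p)) =
          Finsupp.linearCombination ℚ (fun _ : PN (r + 3) => (1 : ℚ)) (clsSum F E p) := by
      have h : (Finsupp.linearCombination ℚ (fun _ : PN (r + 3) => (1 : ℚ))).comp
          (Finsupp.lmapDomain ℚ ℚ (act σ)) =
          Finsupp.linearCombination ℚ (fun _ : PN (r + 3) => (1 : ℚ)) := by
        apply Finsupp.lhom_ext
        intro p c
        rw [LinearMap.comp_apply, Finsupp.lmapDomain_apply, Finsupp.mapDomain_single,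
          Finsupp.linearCombination_single, Finsupp.linearCombination_single]
      exact DFunLike.congr_fun h _
    rw [h3, h1] at h2
    exact_mod_cast h2.symm
  by_cases hne : ∃ p, p ∈ Gen K F
  · obtain ⟨p, hp⟩ := hne
    refine ⟨_, ?_, fun p' hp' => key p hp p' hp'⟩
    rw [Set.ncard_pos (C.fin p hp)]
    exact ⟨p, hp.1, C.refl p hp.1⟩
  · exact ⟨1, one_pos, fun p hp => absurd ⟨p, hp⟩ hne⟩

end Pool.Agent.VCO
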