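import Pool.Agent.VRC.Link

/-! The cycle of the limits of a finite family: every conjugate of the point occurs exactly
once. -/

set_option autoImplicit false

open scoped LinearAlgebra.Projectivization

namespace Pool.Agent.VCO

open Pool.Agent.VGS (Fl adj clo Coef)
open Pool.Agent.VCI hiding EffCorr IsGenericPoint tau tauC

variable {n : ℕ}

/-- every conjugate of `x` is the limit of exactly one member of the family, all other limits
are `p` -/
theorem cyc_fam {T : Multiset (PN n)} (hT : T.Nodup) {f : PN n → PN n} {E : Fl} {x p : PN n}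
    (hx : Over (clo E) x) (hpx : ∀ σ ∈ VGS.Fix E, act σ x ≠ p)
    (h0 : ∀ Y ∈ T, f Y = p ∨ ∃ σ ∈ VGS.Fix E, act σ x = f Y)
    (h1 : ∀ σ ∈ VGS.Fix E, ∃ Y ∈ T, f Y = act σ x)
    (h2 : ∀ Y ∈ T, ∀ Y' ∈ T, f Y = f Y' → f Y ≠ p → Y = Y') :
    ∃ b : ℕ, cycQ (T.map f) = Orb E x + (b : ℚ) • Finsupp.single p 1 := by
  classical
  refine ⟨(T.map f).count p, ?_⟩
  ext q
  rw [cycQ_apply, Finsupp.add_apply, Finsupp.smul_apply, Orb_apply hx,
    Finsupp.single_apply, smul_eq_mul]
  by_cases h3 : ∃ σ ∈ VGS.Fix E, act σ x = q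
  · obtain ⟨σ, hσ, rfl⟩ := h3
    obtain ⟨Y, hY, hYf⟩ := h1 σ hσ
    rw [if_pos ⟨σ, hσ, rfl⟩, if_neg (fun h => hpx σ hσ h.symm), mul_zero, add_zero]
    have h4 : (T.map f).count (act σ x) = 1 := by
      rw [Multiset.count_map]
      have h5 : T.filter (fun a => act σ x = f a) = {Y} := by
        refine (Multiset.Nodup.ext (hT.filter _) (Multiset.nodup_singleton Y)).2 fun Z => ?_
        rw [Multiset.mem_filter, Multiset.mem_singleton]
        constructor
        · rintro ⟨hZ, hZf⟩
          exact h2 Z hZ Y hY (by rw [← hZf, hYf]) (by rw [← hZf]; exact hpx σ hσ)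
        · rintro rfl
          exact ⟨hY, hYf.symm⟩
      rw [h5, Multiset.card_singleton]
    rw [h4, Nat.cast_one]
  · rw [if_neg h3, zero_add]
    by_cases h4 : p = q
    · rw [if_pos h4, mul_one, h4]
    · rw [if_neg h4, mul_zero]
      norm_cast
      refine Multiset.count_eq_zero_of_notMem fun hq => ?_
      obtain ⟨Y, hY, hYq⟩ := Multiset.mem_map.1 hq
      rcases h0 Y hY with h5 | h5
      · exact h4 (by rw [← hYq, h5])
      · rw [hYq] at h5
        exact h3 h5

end Pool.Agent.VCO
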