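import Pool.Agent.VIR.Defs

/-!
# Zero sets of sections of vector bundles on varieties which are fibred over a surface:
definitions for the statement
-/

set_option autoImplicit false

open scoped LinearAlgebra.Projectivization
open MvPolynomial

namespace Pool.Agent.VCO

open Pool.Agent.VCI (PN ciS CHQ clS)
open Pool.Agent.VRC (cone IsBiHom RForm IsHol)
open Pool.Agent.VIR (Eqv)

variable {n s m u : ℕ}

/-- The vectors `z` and `y` are two different points of `F = 0`, which are equivalent. -/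
def IsPair (F : Fin m → MvPolynomial (Fin n) ℂ)
    (E : Fin u → MvPolynomial (Fin n ⊕ Fin n) ℂ) (z y : Fin n → ℂ) : Prop :=
  z ∈ cone F ∧ y ∈ cone F ∧ Eqv E z y ∧ ∃ i j, y i * z j ≠ y j * z i

/-- The bihomogeneous polynomials `E i` define an equivalence relation on `F = 0`. The class of a
general point is finite and has another point. The set of the pairs `(z, y)` of two different
equivalent points, `z` general, is irreducible: a bihomogeneous polynomial `A` is zero at all these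
pairs or at none of them. -/
structure IsCov (F : Fin m → MvPolynomial (Fin n) ℂ)
    (E : Fin u → MvPolynomial (Fin n ⊕ Fin n) ℂ) : Prop where
  hom : ∀ i, ∃ e e', IsBiHom (E i) e e'
  refl : ∀ x ∈ cone F, Eqv E x x
  symm : ∀ x ∈ cone F, ∀ y ∈ cone F, Eqv E x y → Eqv E y x
  trans : ∀ x ∈ cone F, ∀ y ∈ cone F, ∀ z ∈ cone F, Eqv E x y → Eqv E y z → Eqv E x z
  fin : ∃ B : MvPolynomial (Fin n) ℂ, (∃ z ∈ cone F, aeval z B ≠ 0) ∧
    ∀ z ∈ cone F, aeval z B ≠ 0 → {p : PN n | p ∈ ciS F ∧ Eqv E z p.rep}.Finite ∧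
      ∃ y, IsPair F E z y
  irr : ∀ (A : MvPolynomial (Fin n ⊕ Fin n) ℂ) (e e' : ℕ), IsBiHom A e e' →
    ∃ B : MvPolynomial (Fin n) ℂ, (∃ z ∈ cone F, aeval z B ≠ 0) ∧
      ((∀ z y, IsPair F E z y → aeval z B ≠ 0 → aeval (Sum.elim z y) A = 0) ∨
        ∀ z y, IsPair F E z y → aeval z B ≠ 0 → aeval (Sum.elim z y) A ≠ 0)

/-- Two different equivalent points `z`, `y` of `F = 0`, `z` general, are joined by a rational curve
in `h = 0`. -/
def IsRCCov (h : Fin s → MvPolynomial (Fin n) ℂ) (F : Fin m → MvPolynomial (Fin n) ℂ)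
    (E : Fin u → MvPolynomial (Fin n ⊕ Fin n) ℂ) : Prop :=
  ∃ B : MvPolynomial (Fin n) ℂ, (∃ z ∈ cone F, aeval z B ≠ 0) ∧
    ∀ z y, IsPair F E z y → aeval z B ≠ 0 →
      ∃ φ : Fin n → Polynomial ℂ, (∀ j, aeval φ (h j) = 0) ∧ (∀ i, (φ i).eval 0 = z i) ∧
        ∀ i, (φ i).eval 1 = y i

/-- There is a holomorphic two-form which has different values at the generic point `ξ` and at a
point `η` which is equivalent to `ξ`. -/
def HasFormCov (F : Fin m → MvPolynomial (Fin n) ℂ)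
    (E : Fin u → MvPolynomial (Fin n ⊕ Fin n) ℂ) {Ω : Type} [Field Ω] [Algebra ℂ Ω]
    (ξ : Fin n → Ω) : Prop :=
  ∃ ω : RForm n, IsHol F ξ ω ∧ ∃ η : Fin n → Ω, η ≠ 0 ∧ (∀ i, aeval η (F i) = 0) ∧
    (∀ i, aeval (Sum.elim ξ η) (E i) = 0) ∧
      ∃ D₁ D₂ : Derivation ℂ Ω Ω, ω.val D₁ D₂ η ≠ ω.val D₁ D₂ ξ

/-- The points `p` of `V` have `b` equivalent points, and `Θ` maps the class of `p` to the sum of
the classes of these points. -/
def IsTr (F : Fin m → MvPolynomial (Fin n) ℂ)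
    (E : Fin u → MvPolynomial (Fin n ⊕ Fin n) ℂ) (V : Set (ciS F)) (b : ℕ)
    (Θ : Module.End ℚ (CHQ (ciS F))) : Prop :=
  ∀ p ∈ V, ∃ t : Finset (ciS F), (∀ q, q ∈ t ↔ Eqv E p.1.rep q.1.rep) ∧ t.card = b ∧
    Θ (clS (Finsupp.single p 1)) = ∑ q ∈ t, clS (Finsupp.single q 1)

end Pool.Agent.VCO
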