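import Pool.Agent.VCO.LinkA

/-!
# The lifts of the conjugate points along a rational curve
-/

set_option autoImplicit false

open scoped LinearAlgebra.Projectivization
open MvPolynomial

namespace Pool.Agent.VCO

open Pool.Agent.VGS (Fl adj clo Coef IsPl Sp le_adj subset_adj adj_le le_clo clo_mono clo_clo
  fix_mem_clo Fix_mono mem_Fix_adj exists_extend)
open Pool.Agent.VCI hiding EffCorr IsGenericPoint tau tauC
open Pool.Agent.VRC (cone TrLe Rel Rel2 lk_coef_iff lk_coef_C lk_cycle lk_orb_sw lk_limit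
  rel2_conj rel2_act rel_of_rel2 trLe_of_rel)
open Pool.Agent.VRB (Sp2 eqs mat mat_apply eqs_cast eqs_nat lt_over lt_conj)

variable {n : ℕ} [NeZero n] {s m L c u : ℕ} {k K : Fl} {h : Fin s → MvPolynomial (Fin n) ℂ}
  {g : Fin m → Fin L → MvPolynomial (Fin n) ℂ} {E : Fin u → MvPolynomial (Fin n ⊕ Fin n) ℂ}
  {a : Fin L → ℂ} {d : Fin (s + m) → ℕ}

omit [NeZero n] in
/-- the value of a conjugate polynomial -/
theorem fm_eval (σ : ℂ ≃+* ℂ) (φ : Polynomial ℂ) (x : ℂ) :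
    ((φ.map (σ : ℂ →+* ℂ)).eval (σ x)) = σ (φ.eval x) := by
  rw [Polynomial.eval_map]
  exact Polynomial.eval₂_at_apply (σ : ℂ →+* ℂ) x

omit [NeZero n] in
/-- a form over `k` at a conjugate curve -/
theorem fm_aeval {κ : Fl} {σ : ℂ ≃+* ℂ} (hσ : σ ∈ VGS.Fix κ) {P : MvPolynomial (Fin n) ℂ}
    (hP : Coef κ P) (φ : Fin n → Polynomial ℂ) :
    aeval (fun j => (φ j).map (σ : ℂ →+* ℂ)) P = (aeval φ P).map (σ : ℂ →+* ℂ) := by
  obtain ⟨Q, rfl⟩ := VGS.coef_iff.1 hP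
  rw [aeval_map_algebraMap, aeval_map_algebraMap, aeval_def, aeval_def,
    ← Polynomial.coe_mapRingHom, hom_eval₂]
  congr 1
  ext x
  rw [RingHom.comp_apply, Polynomial.coe_mapRingHom]
  have h1 : algebraMap κ (Polynomial ℂ) x = Polynomial.C (x : ℂ) := rfl
  rw [h1, Polynomial.map_C]
  congr 2
  exact (hσ x x.2).symm

/-- **The lifts** of the conjugate points for a given value of the parameter and a given
place. -/
theorem lift_exists (H : LinC c k h g E a K d) {z : Fin n → ℂ} (hz : z ≠ 0) {i₀ : Fin n}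
    (hzi : z i₀ = 1) (hp : Projectivization.mk ℂ z hz ∈ Gen K (eqs h g a))
    {w : Fin n → ℂ} {i₁ : Fin n} (hwi : w i₁ = 1) (hw : w ∈ cone (eqs h g a))
    (hwE : ∀ j, w j ∈ clo (adj K (Set.range z))) (htr : TrLe (adj k (Set.range z)) c w)
    (hS : Sp2 g z w) {C : Fl} [Countable C] (hC : C = clo (adj K (Set.range z)))
    (φ : Fin n → Polynomial ℂ) (hφC : ∀ j l, (φ j).coeff l ∈ C)
    (hφ0 : ∀ j, (φ j).eval 0 = z j)
    (hφ : ∀ (P : MvPolynomial (Fin n) ℂ) (e : ℕ), P.IsHomogeneous e → Coef k P →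
      aeval z P = 0 → aeval φ P = 0)
    {V : ValuationSubring ℂ} (hV : IsPl V C) {u : ℂ} (huC : u ∉ C) (hu0 : Sp V C u 0)
    {σ : ℂ ≃+* ℂ} (hσ : σ ∈ VGS.Fix (adj K (Set.range z))) :
    ∃ y : Fin n → ℂ, y i₁ = 1 ∧ y ∈ cone (eqs h g a) ∧ (∀ j, y j ∈ clo (adj C {u})) ∧
      (∀ j, Sp V C (y j) (σ (w j))) ∧ Rel2 k z w (fun j => (φ j).eval u) y := by
  classical
  have hCC : clo C = C := by rw [hC, clo_clo]
  have hKC : adj K (Set.range z) ≤ C := by rw [hC]; exact le_clo _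
  have hkK : k ≤ K := lk_kK H
  have hKC' : K ≤ C := (le_adj _ _).trans hKC
  have hkC : k ≤ C := hkK.trans hKC'
  have hcoef := lk_coef H
  have hzC : ∀ j, z j ∈ C := fun j => hKC (subset_adj _ _ ⟨j, rfl⟩)
  have hwC : ∀ j, w j ∈ C := fun j => by rw [hC]; exact hwE j
  have hσK : σ ∈ VGS.Fix K := Fix_mono (le_adj _ _) hσ
  have hσk : σ ∈ VGS.Fix k := Fix_mono hkK hσK
  have hσi : σ⁻¹ ∈ VGS.Fix (adj K (Set.range z)) := inv_mem hσ
  have hσC : ∀ x, σ x ∈ C ↔ x ∈ C := fun x => by rw [hC]; exact fix_mem_clo hσ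
  have hσiC : ∀ x, σ⁻¹ x ∈ C ↔ x ∈ C := fun x => by rw [hC]; exact fix_mem_clo hσi
  have hσz : ∀ j, σ⁻¹ (z j) = z j := fun j => hσi _ (subset_adj _ _ ⟨j, rfl⟩)
  -- the conjugate curve
  obtain ⟨V', y', u', hV', hu', huC', hyw, hyC, hyi, hyX, hrel⟩ := rc_move H hz hzi hp hwi hw
    hwE htr hS C hCC hKC (fun j => (φ j).map ((σ⁻¹ : ℂ ≃+* ℂ) : ℂ →+* ℂ)) (fun j l => by
      rw [Polynomial.coeff_map]
      exact (hσiC _).2 (hφC j l)) (fun j => by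
      have h1 := fm_eval (σ⁻¹ : ℂ ≃+* ℂ) (φ j) 0
      rw [map_zero, hφ0] at h1
      rw [h1, hσz]) (fun P e hP hPk h0 => by
      rw [fm_aeval (inv_mem hσk) hPk, hφ P e hP hPk h0, Polynomial.map_zero])
  -- back by an extension of `σ` which maps the parameter to `u`
  obtain ⟨τ, hτ, hτu⟩ := exists_extend C hCC σ hσC huC' huC
  have hτC : ∀ x, τ x ∈ C ↔ x ∈ C := by
    have h1 : τ ∈ VGS.Fix (adj K (Set.range z)) := fun x hx => by
      rw [hτ x (hKC hx), hσ x hx]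
    intro x
    rw [hC]
    exact fix_mem_clo h1
  have hτK : τ ∈ VGS.Fix K := fun x hx => by rw [hτ x (hKC' hx), hσK x hx]
  have hτk : τ ∈ VGS.Fix k := Fix_mono hkK hτK
  obtain ⟨V'', hV'', hSp, -⟩ := exists_transport (n := n) hV' τ hτC
  have hφτ : (fun j => τ (((φ j).map ((σ⁻¹ : ℂ ≃+* ℂ) : ℂ →+* ℂ)).eval u')) =
      fun j => (φ j).eval u := by
    funext j
    have h1 := fm_eval τ ((φ j).map ((σ⁻¹ : ℂ ≃+* ℂ) : ℂ →+* ℂ)) u'
    rw [hτu] at h1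
    rw [← h1]
    congr 1
    ext l
    rw [Polynomial.coeff_map, Polynomial.coeff_map]
    change τ (σ⁻¹ ((φ j).coeff l)) = _
    rw [hτ _ ((hσiC _).2 (hφC j l))]
    exact σ.apply_symm_apply _
  have hrel₁ := rel2_act hrel hτk
  rw [hφτ] at hrel₁
  obtain ⟨y₁, hy₁⟩ : ∃ y₁ : Fin n → ℂ, y₁ = fun j => τ (y' j) := ⟨_, rfl⟩
  rw [← hy₁] at hrel₁
  have hy₁i : y₁ i₁ = 1 := by
    rw [hy₁]
    change τ (y' i₁) = 1
    rw [hyi, map_one]
  have hy₁X : y₁ ∈ cone (eqs h g a) := by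
    refine ⟨fun h0 => ?_, fun i => ?_⟩
    · rw [h0] at hy₁i
      exact zero_ne_one hy₁i
    · rw [hy₁, VGS.aeval_fix (hcoef i) hτK y', hyX.2 i, map_zero]
  have hy₁C : ∀ j, y₁ j ∈ clo (adj C {u}) := by
    intro j
    rw [hy₁]
    refine clo_map (adj_map (L' := C) (S' := {u}) (fun x hx => (hτC x).2 hx) ?_) _ (hyC j)
    rintro x rfl
    rw [hτu]
    exact subset_adj _ _ rfl
  have hy₁w : ∀ j, Sp V'' C (y₁ j) (σ (w j)) := by
    intro j
    rw [hy₁]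
    change Sp V'' C (τ (y' j)) (σ (w j))
    rw [← hτ _ (hwC j)]
    exact (hSp _ _).2 (hyw j)
  have hu'' : Sp V'' C u 0 := by
    have h1 := (hSp u' 0).2 hu'
    rwa [hτu, map_zero] at h1
  -- the conjugates over `C(u)`
  have hσw0 : (fun j => σ (w j)) ≠ 0 := map_ne_zero' σ hw.1
  have hσwi : (fun j => σ (w j)) i₁ = 1 := by
    change σ (w i₁) = 1
    rw [hwi, map_one]
  have hyOver : Over (clo (adj C {u})) (mkP y₁) := by
    rw [mkP_eq hy₁X.1, over_mk hy₁X.1 hy₁i]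
    exact hy₁C
  have hfin := finite_orbit_pt (adj C {u}) hyOver
  obtain ⟨T, hTnd, hTmem⟩ : ∃ T : Multiset (PN n), T.Nodup ∧
      ∀ q, q ∈ T ↔ ∃ σ ∈ VGS.Fix (adj C {u}), act σ (mkP y₁) = q := by
    refine ⟨hfin.toFinset.val, hfin.toFinset.nodup, fun q => ?_⟩
    rw [Finset.mem_val, Set.Finite.mem_toFinset]
    rfl
  have hT : IsFam C u T := by
    refine ⟨fun q hq => ?_, fun σ hσ => ?_⟩
    · obtain ⟨σ, hσ, rfl⟩ := (hTmem q).1 hq
      exact (over_clo_act hσ).2 hyOver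
    · refine (Multiset.Nodup.ext (hTnd.map (act_injective σ)) hTnd).2 fun q => ?_
      rw [Multiset.mem_map]
      constructor
      · rintro ⟨q', hq', rfl⟩
        obtain ⟨τ, hτ, rfl⟩ := (hTmem q').1 hq'
        exact (hTmem _).2 ⟨σ * τ, (VGS.Fix _).mul_mem hσ hτ, by rw [act_mul]⟩
      · intro hq
        obtain ⟨τ, hτ, rfl⟩ := (hTmem q).1 hq
        refine ⟨act (σ⁻¹ * τ) (mkP y₁), (hTmem _).2
          ⟨_, (VGS.Fix _).mul_mem ((VGS.Fix _).inv_mem hσ) hτ, rfl⟩, ?_⟩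
        rw [← act_mul, mul_inv_cancel_left]
  have hyT : mkP y₁ ∈ T := (hTmem _).2 ⟨1, (VGS.Fix _).one_mem, act_one _⟩
  have hex : ∀ (W : ValuationSubring ℂ), IsPl W C → Sp W C u 0 → ∀ q ∈ T, ∃ q', SpP W C q q' :=
    fun W hW hW0 q hq => exists_spP hCC hW huC hW0 (hT.isOver q hq)
  obtain ⟨f, hf⟩ : ∃ f : PN n → PN n, ∀ q ∈ T, SpP V C q (f q) := by
    choose! f hf using hex V hV hu0
    exact ⟨f, hf⟩
  obtain ⟨f', hf'⟩ : ∃ f : PN n → PN n, ∀ q ∈ T, SpP V'' C q (f q) := by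
    choose! f hf using hex V'' hV'' hu''
    exact ⟨f, hf⟩
  have hms : T.map f = T.map f' := by
    have key : ∀ D : Fl, D = C → ∀ (_ : u ∉ D) (_ : IsPl V D) (_ : IsPl V'' D)
        (_ : Sp V D u 0) (_ : Sp V'' D u 0) (_ : ∀ q ∈ T, SpP V D q (f q))
        (_ : ∀ q ∈ T, SpP V'' D q (f' q)), D = clo C → T.map f = T.map f' := by
      rintro D - h1 h2 h3 h4 h5 h6 h7 rfl
      exact unique_ms h1 hT h2 h3 h4 h5 h6 h7
    exact key C rfl huC hV hV'' hu0 hu'' hf hf' hCC.symm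
  have hlim : SpP V'' C (mkP y₁) (mkP fun j => σ (w j)) := by
    rw [mkP_eq hy₁X.1, mkP_eq hσw0]
    exact (spP_mk hV'' hy₁X.1 hσw0 hy₁i hσwi).2 hy₁w
  have hmem : (mkP fun j => σ (w j)) ∈ T.map f := by
    rw [hms, Multiset.mem_map]
    exact ⟨_, hyT, SpP.unique hV'' (hf' _ hyT) hlim⟩
  obtain ⟨q, hq, hfq⟩ := Multiset.mem_map.1 hmem
  obtain ⟨ρ, hρ, rfl⟩ := (hTmem q).1 hq
  obtain ⟨hρC, hρu⟩ := mem_Fix_adj.1 hρ
  have hρK : ρ ∈ VGS.Fix K := Fix_mono hKC' hρC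
  have hρu' : ρ u = u := hρu u rfl
  have hρy : (fun j => ρ (y₁ j)) ≠ 0 := map_ne_zero' ρ hy₁X.1
  have hρi : (fun j => ρ (y₁ j)) i₁ = 1 := by
    change ρ (y₁ i₁) = 1
    rw [hy₁i, map_one]
  refine ⟨fun j => ρ (y₁ j), hρi, ⟨hρy, fun i => ?_⟩, fun j => ?_, ?_, ?_⟩
  · rw [VGS.aeval_fix (hcoef i) hρK y₁, hy₁X.2 i, map_zero]
  · exact (fix_mem_clo hρ).2 (hy₁C j)
  · have h1 := hf _ hq
    rw [hfq, act_mkP, mkP_eq hρy, mkP_eq hσw0] at h1
    exact (spP_mk hV hρy hσw0 hρi hσwi).1 h1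
  · have h1 := rel2_act hrel₁ (Fix_mono (hkC) hρC)
    have h2 : (fun j => ρ ((φ j).eval u)) = fun j => (φ j).eval u := by
      funext j
      have h3 := fm_eval ρ (φ j) u
      rw [hρu'] at h3
      rw [← h3]
      congr 1
      ext l
      rw [Polynomial.coeff_map]
      exact hρC _ (hφC j l)
    rwa [h2] at h1

end Pool.Agent.VCO
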