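import Pool.Agent.VCO.SDefs
import Pool.Agent.VIR.ClsDef
import Pool.Agent.VRC.HolF
import Pool.Agent.VRC.EffTau

/-! A holomorphic two-form with different values at two equivalent generic points. -/

set_option autoImplicit false

open scoped LinearAlgebra.Projectivization
open MvPolynomial

namespace Pool.Agent.VCO

open Pool.Agent.VGS (Fl adj clo Coef Kills le_adj le_clo subset_adj)
open Pool.Agent.VCI (PN ciS Gen act mem_surf_mk mk_eq_mk_iff_exists)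
open Pool.Agent.VRC (cone IsBiHom Sfc0 IsGenericPoint RForm HForm IsHol tau tau_mk val_smul)
open Pool.Agent.VRC.HolFAux
open Pool.Agent.VIR (EqvP eqvP_mk)

variable {m r u : ℕ} {F : Fin m → MvPolynomial (Fin (r + 3)) ℂ}
  {E : Fin u → MvPolynomial (Fin (r + 3) ⊕ Fin (r + 3)) ℂ} {Ω : Type} [Field Ω] [Algebra ℂ Ω]
  {ξ : Fin (r + 3) → Ω}

/-- The form of `HasFormCov` over each field which contains finitely many coefficients. -/
theorem exists_hform_cov [IsAlgClosed Ω] (hξ : IsGenericPoint F ξ)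
    (hE : ∀ i, ∃ e e', IsBiHom (E i) e e') (h : HasFormCov F E ξ) :
    ∃ S : Finset ℂ, ∀ (K : Fl) (d : Fin m → ℕ), Sfc0 F d K → (∀ i, Coef K (E i)) →
      (∀ x ∈ S, x ∈ clo K) → ∃ ω : HForm F (clo K), ∃ p ∈ Gen K F, ∃ q, Nb F E p q ∧
        ∃ D₁ D₂ : Derivation ℤ ℂ ℂ, Kills K D₁ ∧ Kills K D₂ ∧ tau ω D₁ D₂ p ≠ tau ω D₁ D₂ q := by
  classical
  by_cases hne : (cone F).Nonempty
  swap
  · refine ⟨∅, fun K d hX _ _ => ?_⟩
    exfalso
    obtain ⟨p, hp⟩ := hX.gen K hX.cK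
    obtain ⟨w, hw, i, j, l, hi, -, hwF, hai⟩ := VCI.gen_nrm hX.hom hp
    exact hne ⟨w, hw, hwF⟩
  obtain ⟨ω₀, hol, η, hη, hηF, hηE, E₁, E₂, hval⟩ := h
  choose f hf using fun z : cone F => hol z.1 z.2
  obtain ⟨T, q, hq⟩ := exists_cov hne f fun z => (hf z).1
  obtain ⟨g, hg⟩ : ∃ g : Fin (T + 1 + 1) → RForm (r + 3), g = Fin.cons ω₀ fun t => f (q t) :=
    ⟨_, rfl⟩
  have hg0 : g 0 = ω₀ := by rw [hg]; rfl
  have hgs : ∀ t : Fin (T + 1), g t.succ = f (q t) := fun t => by rw [hg]; rfl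
  have hgv : ∀ t (D₁ D₂ : Derivation ℂ Ω Ω), (g t).val D₁ D₂ ξ = (g 0).val D₁ D₂ ξ := by
    intro t D₁ D₂
    refine Fin.cases rfl (fun t => ?_) t
    rw [hgs, hg0]
    exact (hf (q t)).2 D₁ D₂
  choose S hS using fun t : Fin (T + 1 + 1) => exists_cf (g t)
  refine ⟨Finset.univ.biUnion S, fun K d hX hEK hSK => ?_⟩
  have hcK := hX.cK
  have hcf : ∀ t, (g t).Cf (clo K) := fun t => hS t _ fun x hx =>
    hSK x (Finset.mem_biUnion.2 ⟨t, Finset.mem_univ t, hx⟩)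
  let ω : HForm F (clo K) :=
    { T := T + 1
      loc := g
      coefA := fun t j s => (hcf t j s).1
      coefB := fun t j s => (hcf t j s).2
      cov := fun z hz => by
        obtain ⟨t, ht⟩ := hq z hz
        exact ⟨t.succ, by rw [hgs]; exact ht⟩
      eq := fun p hp t D₁ D₂ h₁ h₂ => val_eq hX hξ (hcf 0) (hcf t) (hgv t) hp h₁ h₂ }
  have hω0 : ω.loc 0 = ω₀ := hg0
  obtain ⟨p, hp⟩ := hX.gen K hcK
  obtain ⟨z, hz, i, hzi, rfl, hzF, ρ, hρ, hρξ⟩ := exists_rho hX hξ hp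
  obtain ⟨y, hy⟩ : ∃ y : Fin (r + 3) → ℂ, y = fun i => ρ.symm (η i) := ⟨_, rfl⟩
  have hρy : ∀ i, ρ (y i) = η i := fun i => by rw [hy]; exact ρ.apply_symm_apply _
  have hy0 : y ≠ 0 := by
    intro h0
    apply hη
    funext i
    rw [← hρy i, h0]
    exact map_zero ρ
  have hρz' : (fun i => ρ (z i)) = ξ := funext hρξ
  have hρy' : (fun i => ρ (y i)) = η := funext hρy
  have hyF : ∀ i, aeval y (F i) = 0 := by
    intro i
    apply ρ.injective
    rw [VCI.rho_aeval hρ ((hX.coef i).mono (le_clo K)), hρy', hηF i, map_zero]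
  have hyE : ∀ i, aeval (Sum.elim z y) (E i) = 0 := by
    intro i
    apply ρ.injective
    rw [VCI.rho_aeval hρ ((hEK i).mono (le_clo K)), map_zero, ← hηE i]
    congr 1
    congr 1
    funext j
    rcases j with j | j
    · exact hρξ j
    · exact hρy j
  have hv1 : ρ (ω₀.val (VCI.EffTauAux.pull ρ E₁) (VCI.EffTauAux.pull ρ E₂) z) =
      ω₀.val E₁ E₂ ξ := by
    have h1 := rho_val (z := z) (D₁ := VCI.EffTauAux.pull ρ E₁) (D₂ := VCI.EffTauAux.pull ρ E₂)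
      (E₁ := E₁) (E₂ := E₂) hρ (hg0 ▸ hcf 0)
      (fun j s => by rw [VCI.EffTauAux.pull_apply, ρ.apply_symm_apply])
      (fun j s => by rw [VCI.EffTauAux.pull_apply, ρ.apply_symm_apply])
    rwa [hρz'] at h1
  have hv2 : ρ (ω₀.val (VCI.EffTauAux.pull ρ E₁) (VCI.EffTauAux.pull ρ E₂) y) =
      ω₀.val E₁ E₂ η := by
    have h1 := rho_val (z := y) (D₁ := VCI.EffTauAux.pull ρ E₁) (D₂ := VCI.EffTauAux.pull ρ E₂)
      (E₁ := E₁) (E₂ := E₂) hρ (hg0 ▸ hcf 0)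
      (fun j s => by rw [VCI.EffTauAux.pull_apply, ρ.apply_symm_apply])
      (fun j s => by rw [VCI.EffTauAux.pull_apply, ρ.apply_symm_apply])
    rwa [hρy'] at h1
  have hneq : tau ω (VCI.EffTauAux.pull ρ E₁) (VCI.EffTauAux.pull ρ E₂)
      (Projectivization.mk ℂ z hz) ≠ tau ω (VCI.EffTauAux.pull ρ E₁) (VCI.EffTauAux.pull ρ E₂)
      (Projectivization.mk ℂ y hy0) := by
    rw [tau_mk, tau_mk, hω0]
    intro h0
    apply hval
    rw [← hv1, ← hv2, h0]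
  refine ⟨ω, _, hp, Projectivization.mk ℂ y hy0, ⟨(mem_surf_mk hX.hom hy0).2 hyF,
    (eqvP_mk hE hz hy0).2 hyE, fun h0 => hneq (by rw [h0])⟩, VCI.EffTauAux.pull ρ E₁,
    VCI.EffTauAux.pull ρ E₂, ?_, ?_, hneq⟩
  · exact fun x hx => VCI.EffTauAux.pull_kills hρ E₁ x (le_clo K hx)
  · exact fun x hx => VCI.EffTauAux.pull_kills hρ E₂ x (le_clo K hx)

end Pool.Agent.VCO
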