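import Pool.Agent.VCO.Inst
import Pool.Agent.VCO.ClsOf
import Pool.Agent.VCO.FormC
import Pool.Agent.VRB.Fin

/-! The main theorem for surfaces with an equivalence relation whose classes are finite. -/

set_option autoImplicit false

open scoped LinearAlgebra.Projectivization
open MvPolynomial

namespace Pool.Agent.VCO

open Pool.Agent.Chow0 (IsChowForm IsLink)
open Pool.Agent.VGS
open Pool.Agent.VCI hiding veryGen IsAct EffCorr ActsByScalar IsGenericPoint effT effT_tau TZ tau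
  tauC CoefE mem_TZ inst_move inst_mu tz_mono tz_act pres exists_genericPoint
open Pool.Agent.VRC (cone IsIrr IsSmooth Sfc0 Sfc HForm tau tauC TZ inst_move inst_mu tz_mono
  tz_act IsGenericPoint HasForm EffCorr ActsByScalar veryGen IsAct exists_ground countable_bot cfs
  coefE_of toW_cycS_eff support_sub_smul sfc0_of exists_loc_fin ncone_of effT_isT2
  effT_tau CoefE effT scalars_rat pres mem_TZ tauC_single exists_genericPoint)
open Pool.Agent.VRB (eqs mat TanLe coef_eqs hom_eqs)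
open Pool.Agent.VIR (base Eqv EqvP SysH inst_mu2)

section Ground

variable {n s m L u : ℕ} {h : Fin s → MvPolynomial (Fin n) ℂ}
  {g : Fin m → Fin L → MvPolynomial (Fin n) ℂ} {E : Fin u → MvPolynomial (Fin n ⊕ Fin n) ℂ}

theorem countable_base : Countable (base h g E) := by
  have h0 : Countable (VRB.base h g) := VRB.countable_base
  have h1 : Countable (Set.range fun jm : Fin u × (Fin n ⊕ Fin n →₀ ℕ) =>
    coeff jm.2 (E jm.1)) := (Set.countable_range _).to_subtype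
  exact countable_adj _ _

theorem base_le_base : VRB.base h g ≤ base h g E := le_adj _ _

theorem toW_support {F : Fin m → MvPolynomial (Fin n) ℂ} (z : ciS F →₀ ℚ) {p : PN n}
    (hp : p ∈ (toW F z).support) : ∃ q ∈ z.support, q.1 = p := by
  classical
  have h1 := Finsupp.mapDomain_support (f := Subtype.val) (s := z) hp
  obtain ⟨q, hq, h2⟩ := Finset.mem_image.1 h1
  exact ⟨q, hq, h2⟩

end Ground

section Cls

variable {n m u : ℕ} {F : Fin m → MvPolynomial (Fin n) ℂ}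
  {E : Fin u → MvPolynomial (Fin n ⊕ Fin n) ℂ}

/-- the class of `p` as a finite set of points of the surface -/
theorem exists_tr {K : Fl} (C : ClsC F E K) {b : ℕ}
    (hb : ∀ p ∈ Gen K F, {q | q ∈ ciS F ∧ EqvP E p q}.ncard = b) {p : PN n} (hp : p ∈ Gen K F) :
    ∃ t : Finset (ciS F), (∀ q, q ∈ t ↔ EqvP E p q.1) ∧ t.card = b ∧
      clsSum F E p = ∑ q ∈ t, Finsupp.single q.1 1 := by
  classical
  have hf := C.fin p hp
  have hinj : Function.Injective (Subtype.val : ciS F → PN n) := Subtype.val_injective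
  have hfin : {q : ciS F | EqvP E p q.1}.Finite := by
    refine Set.Finite.of_finite_image (hf.subset ?_) hinj.injOn
    rintro _ ⟨q, hq, rfl⟩
    exact ⟨q.2, hq⟩
  have himg : hf.toFinset = hfin.toFinset.map ⟨Subtype.val, hinj⟩ := by
    ext q
    rw [Set.Finite.mem_toFinset, Finset.mem_map]
    constructor
    · rintro ⟨h1, h2⟩
      exact ⟨⟨q, h1⟩, (Set.Finite.mem_toFinset _).2 h2, rfl⟩
    · rintro ⟨q', h1, rfl⟩
      exact ⟨q'.2, (Set.Finite.mem_toFinset _).1 h1⟩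
  refine ⟨hfin.toFinset, fun q => Set.Finite.mem_toFinset _, ?_, ?_⟩
  · rw [← hb p hp, Set.ncard_eq_toFinset_card _ hf, himg, Finset.card_map]
  · unfold clsSum
    rw [dif_pos hf, himg, Finset.sum_map]
    rfl

end Cls

section System

variable {r s m L c u : ℕ} {h : Fin s → MvPolynomial (Fin (r + 3)) ℂ}
  {g : Fin m → Fin L → MvPolynomial (Fin (r + 3)) ℂ}
  {E : Fin u → MvPolynomial (Fin (r + 3) ⊕ Fin (r + 3)) ℂ} {a : Fin L → ℂ}
  {d : Fin (s + m) → ℕ} {k K : Fl}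

/-- nilpotence modulo rational equivalence -/
theorem nilC (H : Hyp c h g E a d k K) (ω : HForm (eqs h g a) (clo K))
    (hne : ∃ p ∈ Gen K (eqs h g a), ∃ q, Nb (eqs h g a) E p q ∧ ∃ D₁ D₂ : Derivation ℤ ℂ ℂ,
      Kills K D₁ ∧ Kills K D₂ ∧ tau ω D₁ D₂ p ≠ tau ω D₁ D₂ q) {b : ℕ}
    (hfin : (sysC H ω hne).FinCl (clsSum (eqs h g a) E) b)
    (T : Finset ℂ) (hT : ∀ x ∈ T, x ∈ clo K) :
    ∃ N : ℕ, 0 < N ∧ ∀ f : Module.End ℚ (Cy (r + 3) ⧸ ratQ (eqs h g a)),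
      (∀ p ∈ Gen K (eqs h g a), f ((ratQ (eqs h g a)).mkQ (Finsupp.single p (1 : ℚ))) =
        (ratQ (eqs h g a)).mkQ (Finsupp.single p (1 : ℚ)) -
          (b : ℚ)⁻¹ • (ratQ (eqs h g a)).mkQ (clsSum (eqs h g a) E p)) →
      ∀ x : Fin N → Module.End ℚ (Cy (r + 3) ⧸ ratQ (eqs h g a)),
      (∀ i, ∃ α : PN (r + 3) → Cy (r + 3),
        (∀ p ∈ Gen K (eqs h g a), α p ∈ TZ K (eqs h g a) (clo K)) ∧
        (∀ σ ∈ VGS.Fix (adj K T), ∀ p ∈ Gen K (eqs h g a), α (act σ p) = actC σ (α p)) ∧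
        ∀ p ∈ Gen K (eqs h g a),
          x i ((ratQ (eqs h g a)).mkQ (Finsupp.single p (1 : ℚ))) =
            (ratQ (eqs h g a)).mkQ (α p)) →
      ∀ z : Cy (r + 3), (∀ p ∈ z.support, p ∈ ciS (eqs h g a)) →
        (List.ofFn fun i => f * x i * f).prod ((ratQ (eqs h g a)).mkQ z) = 0 := by
  obtain ⟨N, hN0, hN⟩ := SysH.nil_F hfin T hT
  refine ⟨N, hN0, fun f hf x hx z hz => hN f hf x hx _ ?_⟩
  exact SysH.cl_mem_VX hz

end System

/-- **The main theorem.** -/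
theorem mainC {r s m L c u : ℕ} (h : Fin s → MvPolynomial (Fin (r + 3)) ℂ)
    (g : Fin m → Fin L → MvPolynomial (Fin (r + 3)) ℂ)
    (E : Fin u → MvPolynomial (Fin (r + 3) ⊕ Fin (r + 3)) ℂ) (a : Fin L → ℂ) (e : Fin s → ℕ)
    (d : Fin m → ℕ) (he : ∀ j, (h j).IsHomogeneous (e j))
    (hd : ∀ i l, (g i l).IsHomogeneous (d i)) (hY : IsIrr h)
    (hE : IsCov (eqs h g a) E) (hRC : IsRCCov h (eqs h g a) E)
    (ha : AlgebraicIndependent (base h g E) a)
    (hrk : ∀ z ∈ cone (eqs h g a), (mat g z).rank = c)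
    (htan : ∀ z ∈ cone (eqs h g a), TanLe h (c + 3) z) (hsep : VRB.Separates (eqs h g a) g)
    (hXs : IsSmooth (eqs h g a)) (hXi : IsIrr (eqs h g a))
    (Ω : Type) [Field Ω] [Algebra ℂ Ω] [IsAlgClosed Ω] (ξ : Fin (r + 3) → Ω)
    (hξ : IsGenericPoint (eqs h g a) ξ) (hform : HasFormCov (eqs h g a) E ξ)
    (n : ℕ) (w w' : Fin n → ℕ) (Γ : ∀ i, EffCorr (eqs h g a) ξ (w i))
    (Γ' : ∀ i, EffCorr (eqs h g a) ξ (w' i)) (μ : Fin n → ℂ)
    (hm : ∀ i, ActsByScalar (eqs h g a) (Γ i) (Γ' i) (μ i)) :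
    ∃ (D : ℕ → MvPolynomial (Fin (r + 3)) ℂ) (q : Fin n → ℚ) (N b : ℕ)
      (Ψ : Fin n → Module.End ℚ (CHQ (ciS (eqs h g a))))
      (Θ : Module.End ℚ (CHQ (ciS (eqs h g a)))),
      (∀ j, (∃ e, (D j).IsHomogeneous e) ∧ ∃ p ∈ ciS (eqs h g a), aeval p.rep (D j) ≠ 0) ∧
      (∀ i, μ i = q i) ∧ (∀ i, IsAct (Γ i) (Γ' i) (veryGen (eqs h g a) D) (Ψ i)) ∧
      (∀ i, ∀ Ψ', IsAct (Γ i) (Γ' i) (veryGen (eqs h g a) D) Ψ' → Ψ' = Ψ i) ∧
      1 < b ∧ IsTr (eqs h g a) E (veryGen (eqs h g a) D) b Θ ∧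
      (∀ Θ', IsTr (eqs h g a) E (veryGen (eqs h g a) D) b Θ' → Θ' = Θ) ∧
      ∀ word : Fin N → Fin n, (List.ofFn fun j => (1 - (b : ℚ)⁻¹ • Θ) *
        (Ψ (word j) - q (word j) • 1) * (1 - (b : ℚ)⁻¹ • Θ)).prod = 0 := by
  classical
  obtain ⟨S₁, hS₁⟩ := exists_loc_fin hXs
  obtain ⟨S₂, hS₂⟩ := exists_hform_cov hξ hE.hom hform
  -- the ground field
  obtain ⟨S, hS⟩ : ∃ S : Finset ℂ, S = Finset.univ.biUnion fun i => cfs (Γ i) ∪ cfs (Γ' i) :=
    ⟨_, rfl⟩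
  have hbc : Countable (base h g E) := countable_base
  obtain ⟨k, hk, hkc, hbk, hind, hSk'⟩ := exists_ground (base h g E) ha (S₁ ∪ S₂ ∪ S)
  obtain ⟨K, hK⟩ : ∃ K : Fl, K = adj k (Set.range a) := ⟨_, rfl⟩
  rw [← hK] at hSk'
  have hrc : Countable (Set.range a) := (Set.countable_range _).to_subtype
  have hKc : Countable K := by
    rw [hK]
    infer_instance
  have hSk₁ : ∀ x ∈ S₁, x ∈ clo K := fun x hx =>
    hSk' x (Finset.mem_union_left _ (Finset.mem_union_left _ hx))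
  have hSk₂ : ∀ x ∈ S₂, x ∈ clo K := fun x hx =>
    hSk' x (Finset.mem_union_left _ (Finset.mem_union_right _ hx))
  have hSk : ∀ x ∈ S, x ∈ clo K := fun x hx => hSk' x (Finset.mem_union_right _ hx)
  have hFK : ∀ i, Coef K (eqs h g a i) := fun i => by
    rw [hK]
    exact coef_eqs (base_le_base.trans hbk) i
  have hkK : k ≤ K := by
    rw [hK]
    exact le_adj _ _
  have hF : ∀ i, (eqs h g a i).IsHomogeneous (Fin.append e d i) := hom_eqs he hd
  have hX0 : Sfc0 (eqs h g a) (Fin.append e d) K := sfc0_of hF hXi hKc hFK (hS₁ K hSk₁)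
  have hEK : ∀ i, Coef K (E i) := fun i t =>
    hkK (hbk (subset_adj _ _ ⟨(i, t), rfl⟩))
  have C : ClsC (eqs h g a) E K := clsC_of hX0 hXi hE hEK
  obtain ⟨ω, hω⟩ := hS₂ K _ hX0 hEK hSk₂
  have hω' : ∃ p ∈ Gen K (eqs h g a), ∃ D₁ D₂ : Derivation ℤ ℂ ℂ, Kills K D₁ ∧ Kills K D₂ ∧
      tau ω D₁ D₂ p ≠ 0 := by
    obtain ⟨p, hp, q, hq, D₁, D₂, h1, h2, h3⟩ := hω
    by_cases h0 : tau ω D₁ D₂ p = 0
    · exact ⟨q, C.gen K hKc le_rfl p hp q hq.1 hq.2.1, D₁, D₂, h1, h2, fun h4 =>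
        h3 (by rw [h0, h4])⟩
    · exact ⟨p, hp, D₁, D₂, h1, h2, h0⟩
  have hX : Sfc (eqs h g a) (Fin.append e d) K := ⟨hX0, ncone_of hX0 ω hω'⟩
  have H : Hyp c h g E a (Fin.append e d) k K := by
    refine ⟨hY, hXi, hE, hRC, hsep, hrk, htan, fun i l => ?_, hk, hkc, hbk, hind, hK, hX⟩
    rw [Fin.append_right]
    exact hd i l
  have hKK' : K ≤ adj K S := le_adj _ _
  have hK'c : adj K S ≤ clo K := adj_le (le_clo _) fun x hx => hSk x hx
  have hcf : ∀ i, ∀ x ∈ cfs (Γ i), x ∈ S := fun i x hx => by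
    rw [hS]
    exact Finset.mem_biUnion.2 ⟨i, Finset.mem_univ i, Finset.mem_union_left _ hx⟩
  have hcf' : ∀ i, ∀ x ∈ cfs (Γ' i), x ∈ S := fun i x hx => by
    rw [hS]
    exact Finset.mem_biUnion.2 ⟨i, Finset.mem_univ i, Finset.mem_union_right _ hx⟩
  have hcK : ∀ i, CoefE (adj K S) (Γ i) := fun i =>
    coefE_of _ fun x hx => subset_adj _ _ (hcf i x hx)
  have hcK' : ∀ i, CoefE (adj K S) (Γ' i) := fun i =>
    coefE_of _ fun x hx => subset_adj _ _ (hcf' i x hx)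
  have hconj := hX.conj K hKc le_rfl
  have hT := fun i => effT_isT2 hX0 hξ hKK' hK'c (Γ i) (hcK i)
  have hT' := fun i => effT_isT2 hX0 hξ hKK' hK'c (Γ' i) (hcK' i)
  have htau := fun i => effT_tau hX0 hξ (Γ i) (Γ' i)
    (fun m' => (hcK i m').mono hK'c) (fun m' => (hcK' i m').mono hK'c) (hm i)
  -- the scalars
  have hbot : clo (⊥ : Fl) ≤ K := by
    refine le_trans ?_ hkK
    rw [← hkc]
    exact clo_mono bot_le
  obtain ⟨q, hq⟩ := scalars_rat hX0 hbot (fun α s h1 h2 h3 => by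
      obtain ⟨μ, hμ, -⟩ := s1_scalar H.lin hX0 le_rfl hX0 C ω hω (α := α) (σ₀ := s)
        (fun p hp q hq => (h1 p hp q hq).1) h2 (fun y hy D₁ D₂ k₁ k₂ => h3 y hy D₁ D₂ k₁ k₂ ω)
      exact ⟨μ, hμ⟩) S hSk
    (fun i p => effT (Γ i) p - effT (Γ' i) p) (fun i p hp x hx => by
      rcases Finset.mem_union.1 (Finsupp.support_sub hx) with h | h
      · exact (hT i).2.1 p hp x h
      · exact (hT' i).2.1 p hp x h)
    (fun i σ hσ p hp => by
      rw [map_sub, (hT i).2.2 σ hσ p hp, (hT' i).2.2 σ hσ p hp]) μ htau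
  -- the open set
  obtain ⟨p₀, hp₀⟩ := hX.gen K hKc
  obtain ⟨D, hD, hDG⟩ := exists_enum K ⟨p₀, hp₀⟩ (fun p hp x hx => by
    obtain ⟨σ, hσ, h⟩ := hconj p hp x hx
    exact ⟨σ, Fix_mono (le_clo _) hσ, h⟩)
  -- the endomorphisms
  have hmv : ∀ x ∈ ciS (eqs h g a), ∃ z : Cy (r + 3),
      (∀ p ∈ z.support, p ∈ Gen K (eqs h g a)) ∧
      Finsupp.single x 1 - z ∈ ratQ (eqs h g a) := fun x hx => inst_move hX K le_rfl hx
  have hG : Gen K (eqs h g a) ⊆ ciS (eqs h g a) := fun p hp => hp.1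
  have hsup : ∀ i, ∀ p ∈ Gen K (eqs h g a), ∀ x ∈ (effT (Γ i) p - effT (Γ' i) p).support,
      x ∈ ciS (eqs h g a) := fun i p hp x hx => by
    rcases Finset.mem_union.1 (Finsupp.support_sub hx) with h | h
    · exact (hT i).2.1 p hp x h
    · exact (hT' i).2.1 p hp x h
  choose Ev Ψ hEv hΨ using fun i => exists_psi hG hmv (fun p => effT (Γ i) p - effT (Γ' i) p)
    (hsup i) (fun z hz hzG => pres hX hKK' hK'c (hsup i)
      (fun σ hσ p hp => by
        rw [map_sub, (hT i).2.2 σ hσ p hp, (hT' i).2.2 σ hσ p hp]) hz hzG)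
  have hact : ∀ i, ∀ p : ciS (eqs h g a), p.1 ∈ Gen K (eqs h g a) →
      ∀ s s' : Multiset (ciS (eqs h g a)),
      IsChowForm (ciS (eqs h g a)) ((Γ i).at p.1.rep) s →
      IsChowForm (ciS (eqs h g a)) ((Γ' i).at p.1.rep) s' →
      Ψ i (clS (Finsupp.single p 1)) = clS (cycS s) - clS (cycS s') := by
    intro i p hp s s' h1 h2
    apply jW_injective
    rw [hΨ, jW_clS, toW_single, hEv i p.1 hp, map_sub, map_sub, jW_clS, jW_clS, toW_cycS_eff _ h1,
      toW_cycS_eff _ h2]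
  -- the sum over the class
  obtain ⟨b, -, hb, hfinCl⟩ := exists_finCl H ω hω
  have hb1 : 1 < b := by
    obtain ⟨q₀, hq₀⟩ := C.two p₀ hp₀
    rw [← hb p₀ hp₀]
    refine (Set.one_lt_ncard (C.fin p₀ hp₀)).2 ⟨p₀, ⟨hp₀.1, C.refl p₀ hp₀.1⟩, q₀,
      ⟨hq₀.1, hq₀.2.1⟩, fun h0 => hq₀.2.2 h0.symm⟩
  have hsupT : ∀ p ∈ Gen K (eqs h g a), ∀ x ∈ (clsSum (eqs h g a) E p).support,
      x ∈ ciS (eqs h g a) := fun p hp x hx => ((clsSum_supp C hp).1 hx).1
  obtain ⟨EvT, Θ, hEvT, hΘ⟩ := exists_psi hG hmv (clsSum (eqs h g a) E) hsupT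
    (fun z hz hzG => pres hX le_rfl (le_clo K) hsupT
      (fun σ hσ p hp => clsSum_act hX0 C hσ hp) hz hzG)
  have htr : ∀ p : ciS (eqs h g a), p.1 ∈ Gen K (eqs h g a) → ∀ t : Finset (ciS (eqs h g a)),
      (∀ q, q ∈ t ↔ Eqv E p.1.rep q.1.rep) →
      Θ (clS (Finsupp.single p 1)) = ∑ q ∈ t, clS (Finsupp.single q 1) := by
    intro p hp t ht
    obtain ⟨t', ht', -, hsum⟩ := exists_tr C hb hp
    have htt : t = t' := Finset.ext fun q => by
      rw [ht, ht']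
      rfl
    subst htt
    apply jW_injective
    rw [hΘ, jW_clS, toW_single, hEvT p.1 hp, hsum, map_sum, map_sum]
    refine Finset.sum_congr rfl fun q _ => ?_
    rw [jW_clS, toW_single]
  obtain ⟨N, hN0, hN⟩ := nilC H ω hω hfinCl S hSk
  refine ⟨D, q, N, b, Ψ, Θ, fun j => ⟨hD j, p₀, hp₀.1, (hDG ⟨p₀, hp₀.1⟩).2 hp₀ j⟩, hq, ?_, ?_,
    hb1, ?_, ?_, ?_⟩
  · intro i p hp
    have hp' := (hDG p).1 hp
    obtain ⟨s, h1⟩ := (hT i).1 p.1 hp'
    obtain ⟨s', h2⟩ := (hT' i).1 p.1 hp'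
    exact ⟨s, s', h1, h2, hact i p hp' s s' h1 h2⟩
  · intro i Ψ' h
    refine end_ext hG hmv fun p hp => ?_
    obtain ⟨s, s', h1, h2, h3⟩ := h p ((hDG p).2 hp)
    rw [h3, hact i p hp s s' h1 h2]
  · intro p hp
    have hp' := (hDG p).1 hp
    obtain ⟨t, ht, htc, -⟩ := exists_tr C hb hp'
    exact ⟨t, ht, htc, htr p hp' t ht⟩
  · intro Θ' h
    refine end_ext hG hmv fun p hp => ?_
    obtain ⟨t, ht, -, h3⟩ := h p ((hDG p).2 hp)
    rw [h3, htr p hp t ht]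
  · intro word
    have hf : ∀ c, jW (eqs h g a) ((1 - (b : ℚ)⁻¹ • Θ) c) =
        (1 - (b : ℚ)⁻¹ • EvT) (jW (eqs h g a) c) := by
      intro c
      rw [LinearMap.sub_apply, LinearMap.smul_apply, LinearMap.sub_apply, LinearMap.smul_apply,
        map_sub, map_smul, hΘ]
      rfl
    have hg : ∀ i c, jW (eqs h g a) ((Ψ i - q i • 1) c) = (Ev i - q i • 1) (jW (eqs h g a) c) := by
      intro i c
      rw [LinearMap.sub_apply, LinearMap.smul_apply, LinearMap.sub_apply, LinearMap.smul_apply,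
        map_sub, map_smul, hΨ]
      rfl
    refine LinearMap.ext fun x => ?_
    obtain ⟨z, rfl⟩ := clS_surjective x
    apply jW_injective
    have h1 : (List.ofFn fun j => (1 - (b : ℚ)⁻¹ • Θ) * (Ψ (word j) - q (word j) • 1) *
        (1 - (b : ℚ)⁻¹ • Θ)) = (List.ofFn word).map fun i =>
          (1 - (b : ℚ)⁻¹ • Θ) * (Ψ i - q i • 1) * (1 - (b : ℚ)⁻¹ • Θ) := by
      rw [List.map_ofFn]
      rfl
    rw [h1, jW_prod (e := fun i => (1 - (b : ℚ)⁻¹ • EvT) * (Ev i - q i • 1) *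
      (1 - (b : ℚ)⁻¹ • EvT)) (fun i c => by
        change jW _ ((1 - (b : ℚ)⁻¹ • Θ) ((Ψ i - q i • 1) ((1 - (b : ℚ)⁻¹ • Θ) c))) =
          (1 - (b : ℚ)⁻¹ • EvT) ((Ev i - q i • 1) ((1 - (b : ℚ)⁻¹ • EvT) (jW _ c)))
        rw [hf, hg, hf])]
    have h2 : ((List.ofFn word).map fun i => (1 - (b : ℚ)⁻¹ • EvT) * (Ev i - q i • 1) *
        (1 - (b : ℚ)⁻¹ • EvT)) = List.ofFn fun j => (1 - (b : ℚ)⁻¹ • EvT) *
          (Ev (word j) - q (word j) • 1) * (1 - (b : ℚ)⁻¹ • EvT) := by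
      rw [List.map_ofFn]
      rfl
    rw [h2, jW_clS]
    have h3 := hN (1 - (b : ℚ)⁻¹ • EvT) (fun p hp => by
      rw [LinearMap.sub_apply, LinearMap.smul_apply, hEvT p hp]
      rfl) (fun j => Ev (word j) - q (word j) • 1) (fun j => ?_) (toW (eqs h g a) z)
      (fun p hp => by
        obtain ⟨q', -, rfl⟩ := toW_support z hp
        exact q'.2)
    · rw [h3, LinearMap.zero_apply, map_zero]
    · refine ⟨fun p => (effT (Γ (word j)) p - effT (Γ' (word j)) p) -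
        q (word j) • (Finsupp.single p (1 : ℚ) : Cy (r + 3)), fun p hp => ?_, fun σ hσ p hp => ?_,
        fun p hp => ?_⟩
      · refine mem_TZ.2 ⟨support_sub_smul ((hT (word j)).2.1 p hp) ((hT' (word j)).2.1 p hp)
          (fun x hx => ?_) _, fun ω' D₁ D₂ h1 h2 => ?_⟩
        · rw [Finset.mem_singleton.1 (Finsupp.support_single_subset hx)]
          exact hp.1
        · rw [map_sub, map_smul, htau (word j) p hp D₁ D₂ h1 h2 ω', tauC_single, one_smul, hq,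
            sub_eq_zero]
          rw [Algebra.smul_def]
          rfl
      · change (effT (Γ (word j)) (act σ p) - effT (Γ' (word j)) (act σ p)) -
          q (word j) • (Finsupp.single (act σ p) (1 : ℚ) : Cy (r + 3)) = VCI.actC σ _
        rw [(hT (word j)).2.2 σ hσ p hp, (hT' (word j)).2.2 σ hσ p hp, map_sub, map_sub,
          map_smul, VCI.actC_single]
      · beta_reduce
        rw [LinearMap.sub_apply, LinearMap.smul_apply, hEv (word j) p hp,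
          map_sub (VCI.ratQ (eqs h g a)).mkQ
            (effT (Γ (word j)) p - effT (Γ' (word j)) p), map_smul]
        rfl

end Pool.Agent.VCO
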