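import Pool.Agent.VCO.Core
import Pool.Agent.VRC.TauNe
import Pool.Agent.VRC.Mum

/-! Finite classes, module S1: the scalar of an invariant correspondence. -/

set_option autoImplicit false

open scoped LinearAlgebra.Projectivization
open MvPolynomial

namespace Pool.Agent.VCO

open Pool.Agent.VGS (Fl adj clo Coef Kills conjD conjD_kills exists_kills le_adj le_clo subset_adj
  adj_le clo_mono clo_clo ai_mono)
open Pool.Agent.VCI hiding EffCorr IsGenericPoint tau tauC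
open Pool.Agent.VRC (cone Sfc0 HForm tau tauC tauC_single tau_act tau_congr der_eq_of_pair)
open Pool.Agent.VRB (eqs)
open Pool.Agent.VIR (EqvP)

/-- A form which has different values at two equivalent points has different values at each generic
point over any bigger field and an equivalent point. -/
theorem exists_tau_pair {m r u : ℕ} {F : Fin m → MvPolynomial (Fin (r + 3)) ℂ} {d : Fin m → ℕ}
    {E : Fin u → MvPolynomial (Fin (r + 3) ⊕ Fin (r + 3)) ℂ} {K : Fl} (hX : Sfc0 F d K)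
    (C : ClsC F E K) (ω : HForm F (clo K))
    (hne : ∃ p ∈ Gen K F, ∃ q, Nb F E p q ∧ ∃ D₁ D₂ : Derivation ℤ ℂ ℂ, Kills K D₁ ∧ Kills K D₂ ∧
      tau ω D₁ D₂ p ≠ tau ω D₁ D₂ q) (L : Fl) [Countable L] (hL : K ≤ L) {p : PN (r + 3)}
    (hp : p ∈ Gen L F) : ∃ q, Nb F E p q ∧ ∃ D₁ D₂ : Derivation ℤ ℂ ℂ, Kills L D₁ ∧ Kills L D₂ ∧
      tau ω D₁ D₂ p ≠ tau ω D₁ D₂ q := by
  obtain ⟨p', hp', q', hq', E₁, E₂, hE₁, hE₂, hne⟩ := hne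
  have hpK : p ∈ Gen K F := by
    obtain ⟨h0, i, j, l, hi, h⟩ := hp
    exact ⟨h0, i, j, l, hi, ai_mono hL h⟩
  obtain ⟨σ, hσ, hσp⟩ := hX.conj K hX.cK le_rfl p' hp' p hpK
  have hσK : σ ∈ VGS.Fix K := fun x hx => hσ x (le_clo K hx)
  obtain ⟨q, hqe⟩ : ∃ q, q = act σ q' := ⟨_, rfl⟩
  have hq : Nb F E p q := by
    rw [hqe, ← hσp]
    exact ⟨(act_mem_surf hX.hom hX.coef hσK).2 hq'.1, C.act σ hσK _ _ hq'.2.1,
      fun h => hq'.2.2 (act_injective σ h)⟩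
  have hval : tau ω (conjD σ E₁) (conjD σ E₂) p ≠ tau ω (conjD σ E₁) (conjD σ E₂) q := by
    rw [← hσp, hqe, tau_act hX.hom ω hσ, tau_act hX.hom ω hσ]
    exact fun h => hne (σ.injective h)
  have hG₁ := conjD_kills hσK hE₁
  have hG₂ := conjD_kills hσK hE₂
  have hqo := C.ov p hpK q hq.1 hq.2.1
  obtain ⟨z, hz, i, j, l, hi, hpz, hzF, hai⟩ := gen_nrm hX.hom hp
  have haiK : AlgebraicIndependent K ![z j, z l] := ai_mono hL hai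
  have hm : ∀ s, z s ∈ clo (adj K (Set.range z)) := fun s => le_clo _ (subset_adj _ _ ⟨s, rfl⟩)
  have hzM : ∀ s, z s ∈ clo (adj K {z j, z l}) := fun s =>
    hX.alg_pair le_rfl ⟨hz, hzF⟩ hi (hm j) (hm l) haiK (hm s)
  have hqM : Over (clo (adj K {z j, z l})) q := by
    refine hqo.mono ?_
    rw [hpz, adjP_mk hz hi]
    have h1 : adj K (Set.range z) ≤ clo (adj K {z j, z l}) := by
      refine adj_le ((le_adj _ _).trans (le_clo _)) ?_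
      rintro _ ⟨s, rfl⟩
      exact hzM s
    exact (clo_mono h1).trans (clo_clo _).le
  obtain ⟨D₁, hD₁, hj₁, hl₁⟩ := exists_kills L hai (conjD σ E₁ (z j)) (conjD σ E₁ (z l))
  obtain ⟨D₂, hD₂, hj₂, hl₂⟩ := exists_kills L hai (conjD σ E₂ (z j)) (conjD σ E₂ (z l))
  refine ⟨q, hq, D₁, D₂, hD₁, hD₂, ?_⟩
  have hMK : clo K ≤ clo (adj K {z j, z l}) := clo_mono (le_adj K {z j, z l})
  have e₁ := der_eq_of_pair (fun x hx => hD₁ x (hL hx)) hG₁ hj₁ hl₁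
  have e₂ := der_eq_of_pair (fun x hx => hD₂ x (hL hx)) hG₂ hj₂ hl₂
  rw [tau_congr ω hMK ⟨z, hz, hzM, hpz⟩ e₁ e₂, tau_congr ω hMK hqM e₁ e₂]
  exact hval

section S1

variable {r s m L c u : ℕ} {k K : Fl} {h : Fin s → MvPolynomial (Fin (r + 3)) ℂ}
  {g : Fin m → Fin L → MvPolynomial (Fin (r + 3)) ℂ}
  {E : Fin u → MvPolynomial (Fin (r + 3) ⊕ Fin (r + 3)) ℂ} {a : Fin L → ℂ} {d : Fin (s + m) → ℕ}

/-- An invariant correspondence which acts on the two-form `ω` by the scalar `σ₀` acts on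
differences of equivalent generic points by `σ₀`, a rational number. -/
theorem s1_scalar (H : LinC c k h g E a K d) (hX : Sfc0 (eqs h g a) d K) {K₀ : Fl} (hK₀ : K₀ ≤ K)
    (hX₀ : Sfc0 (eqs h g a) d K₀) (C₀ : ClsC (eqs h g a) E K₀) (ω : HForm (eqs h g a) (clo K₀))
    (hne : ∃ p ∈ Gen K₀ (eqs h g a), ∃ q, Nb (eqs h g a) E p q ∧
      ∃ D₁ D₂ : Derivation ℤ ℂ ℂ, Kills K₀ D₁ ∧ Kills K₀ D₂ ∧ tau ω D₁ D₂ p ≠ tau ω D₁ D₂ q)
    {α : PN (r + 3) → Cy (r + 3)} {σ₀ : ℂ}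
    (hα : ∀ p ∈ Gen K (eqs h g a), ∀ q ∈ (α p).support, q ∈ ciS (eqs h g a))
    (hσ : ∀ σ ∈ VGS.Fix K, ∀ p ∈ Gen K (eqs h g a), α (act σ p) = actC σ (α p))
    (hτ : ∀ y ∈ Gen K (eqs h g a), ∀ D₁ D₂ : Derivation ℤ ℂ ℂ, Kills K D₁ → Kills K D₂ →
      tauC ω D₁ D₂ (α y) = σ₀ * tau ω D₁ D₂ y) :
    ∃ μ : ℚ, σ₀ = μ ∧ ∀ p ∈ Gen K (eqs h g a), ∀ q ∈ Gen K (eqs h g a), EqvP E p q →
      α p - α q - μ • (Finsupp.single p 1 - Finsupp.single q 1) ∈ ratQ (eqs h g a) := by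
  have hKc : Countable K := hX.cK
  have hK₀c : Countable K₀ := hX₀.cK
  obtain ⟨p₀, hp₀⟩ := hX.gen K hKc
  obtain ⟨q₀, hq₀, D₁, D₂, h₁, h₂, hne'⟩ := exists_tau_pair hX₀ C₀ ω hne K hK₀ hp₀
  have hq₀K : q₀ ∈ Gen K (eqs h g a) := H.cls.gen K hKc le_rfl p₀ hp₀ q₀ hq₀.1 hq₀.2.1
  obtain ⟨β, hβ⟩ := core H hα hσ hp₀ hq₀
  have h3 := VRC.mumford hX.hom (κ := clo K₀) (fun i => (hX₀.coef i).mono (le_clo _)) ω
    (VRC.kills_clo' hK₀ h₁) (VRC.kills_clo' hK₀ h₂) hβ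
  rw [map_sub, map_sub, map_smul, map_sub, hτ p₀ hp₀ D₁ D₂ h₁ h₂, hτ q₀ hq₀K D₁ D₂ h₁ h₂,
    tauC_single, tauC_single, one_smul, one_smul, Rat.smul_def, ← mul_sub, ← sub_mul] at h3
  have h4 : σ₀ = β := sub_eq_zero.1 ((mul_eq_zero.1 h3).resolve_right (sub_ne_zero.2 hne'))
  refine ⟨β, h4, fun p hp q hq hpq => ?_⟩
  by_cases hqp : q = p
  · rw [hqp, sub_self, sub_self, smul_zero, sub_zero]
    exact Submodule.zero_mem _
  obtain ⟨σ₁, hσ₁, hσ₁p⟩ := hX.conj K hKc le_rfl p₀ hp₀ p hp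
  have hσ₁K : σ₁ ∈ VGS.Fix K := fun x hx => hσ₁ x (le_clo K hx)
  have hn₁ : Nb (eqs h g a) E p (act σ₁ q₀) := by
    rw [← hσ₁p]
    exact ⟨(act_mem_surf hX.hom hX.coef hσ₁K).2 hq₀.1, H.cls.act σ₁ hσ₁K _ _ hq₀.2.1,
      fun h => hq₀.2.2 (act_injective σ₁ h)⟩
  obtain ⟨σ₂, hσ₂, hσ₂q⟩ := H.cls.conj K hKc le_rfl p hp (act σ₁ q₀) q hn₁ ⟨hq.1, hpq, hqp⟩
  obtain ⟨hσ₂K, hσ₂p⟩ := mem_Fix_adjP.1 hσ₂
  have hσK : σ₂ * σ₁ ∈ VGS.Fix K := mul_mem hσ₂K hσ₁K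
  have hp' : act (σ₂ * σ₁) p₀ = p := by rw [act_mul, hσ₁p, hσ₂p]
  have hq' : act (σ₂ * σ₁) q₀ = q := by rw [act_mul, hσ₂q]
  have h5 := actC_ratQ hX.hom hX.coef hσK hβ
  rw [map_sub, map_sub, map_smul, map_sub, ← hσ _ hσK p₀ hp₀, ← hσ _ hσK q₀ hq₀K, hp', hq',
    actC_single, actC_single, hp', hq'] at h5
  exact h5

end S1

end Pool.Agent.VCO
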