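import Pool.Agent.VCO.LinRC
import Pool.Agent.VRB.LinSep

/-! Coverings of surfaces: the data over the ground field. -/

set_option autoImplicit false

open scoped LinearAlgebra.Projectivization
open MvPolynomial

namespace Pool.Agent.VCO

open Pool.Agent.VGS (Fl adj clo Coef le_adj subset_adj)
open Pool.Agent.VCI hiding EffCorr IsGenericPoint tau tauC
open Pool.Agent.VRC (cone IsIrr TrLe Sfc0)
open Pool.Agent.VRB (eqs mat Sp2 TanLe eqs_cast base_coefh base_coefg lin_sep lin_trd)

variable {r s m L c u : ℕ} {k K : Fl} {h : Fin s → MvPolynomial (Fin (r + 3)) ℂ}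
  {g : Fin m → Fin L → MvPolynomial (Fin (r + 3)) ℂ}
  {E : Fin u → MvPolynomial (Fin (r + 3) ⊕ Fin (r + 3)) ℂ} {a : Fin L → ℂ} {d : Fin (s + m) → ℕ}

theorem base_le_of (hbase : VIR.base h g E ≤ k) : VRB.base h g ≤ k := (le_adj _ _).trans hbase

theorem base_coefE (hbase : VIR.base h g E ≤ k) (i : Fin u) : Coef k (E i) := fun t =>
  hbase (subset_adj _ _ ⟨(i, t), rfl⟩)

/-- **The data of the theorem over a ground field `k`.** -/
theorem linC_of (hirr : IsIrr h) (hXi : IsIrr (eqs h g a)) (hE : IsCov (eqs h g a) E)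
    (hrc : IsRCCov h (eqs h g a) E) (hsep : VRB.Separates (eqs h g a) g)
    (hrk : ∀ z ∈ cone (eqs h g a), (mat g z).rank = c)
    (htan : ∀ z ∈ cone (eqs h g a), TanLe h (c + 3) z)
    (homg : ∀ i l, (g i l).IsHomogeneous (d (Fin.natAdd s i))) (ck : Countable k)
    (hbase : VIR.base h g E ≤ k) (hai : AlgebraicIndependent k a) (hK : K = adj k (Set.range a))
    (hX : Sfc0 (eqs h g a) d K) : LinC c k h g E a K d := by
  have hb := base_le_of hbase
  have hEk := base_coefE hbase
  have hEK : ∀ i, Coef K (E i) := fun i => (hEk i).mono (by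
    rw [hK]
    exact le_adj _ _)
  have homh : ∀ j, (h j).IsHomogeneous (d (Fin.castAdd m j)) := fun j => by
    have h1 := hX.hom (Fin.castAdd m j)
    rwa [eqs_cast] at h1
  exact {
    ck := ck
    hK := hK
    hom := hX.hom
    homg := homg
    coefh := base_coefh hb
    coefg := base_coefg hb
    ai := hai
    rk := hrk
    trd := fun z hz i hzi => lin_trd htan ck homh (base_coefh hb) hz hzi
    trdX := fun L hL z hz i hzi => hX.trLe hL hz hzi
    sep := lin_sep hXi hsep ck hb hK hX homg
    rc := lin_rc hirr hXi hE hrc (base_coefh hb) hEk hai hK hrk htan hX hb ck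
    conj := hX.conj
    cls := clsC_of hX hXi hE hEK }

end Pool.Agent.VCO
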