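import Pool.Agent.VCO.ClsOf
import Pool.Agent.VRB.LinE
import Pool.Agent.VRB.LinTrd
import Pool.Agent.VRC.LinSep

/-! Coverings of surfaces: a rational curve through two points of one class. -/

set_option autoImplicit false

open scoped LinearAlgebra.Projectivization
open MvPolynomial

namespace Pool.Agent.VCO

open Pool.Agent.VGS (Fl adj clo Coef le_adj le_clo subset_adj clo_mono clo_clo)
open Pool.Agent.VCI hiding EffCorr IsGenericPoint tau tauC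
open Pool.Agent.VRC (cone IsIrr TrLe IsBiHom Sfc0 map_curve aeval_mul_curve curve_descent rel_curve
  gen_rel)
open Pool.Agent.VRB (eqs mat TanLe eqs_cast cone_eqs lin_ind)

variable {r s m L c u : ℕ}

/-- **The rational curve.** -/
theorem lin_rc {k K : Fl} {h : Fin s → MvPolynomial (Fin (r + 3)) ℂ}
    {g : Fin m → Fin L → MvPolynomial (Fin (r + 3)) ℂ}
    {E : Fin u → MvPolynomial (Fin (r + 3) ⊕ Fin (r + 3)) ℂ} {a : Fin L → ℂ}
    {d : Fin (s + m) → ℕ} (hirr : IsIrr h) (hXi : IsIrr (eqs h g a)) (hE : IsCov (eqs h g a) E)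
    (hrc : IsRCCov h (eqs h g a) E)
    (hh : ∀ j, Coef k (h j)) (hEk : ∀ i, Coef k (E i)) (hai : AlgebraicIndependent k a)
    (hK : K = adj k (Set.range a)) (hrk : ∀ z ∈ cone (eqs h g a), (mat g z).rank = c)
    (htan : ∀ z ∈ cone (eqs h g a), TanLe h (c + 3) z) (hX : Sfc0 (eqs h g a) d K)
    (hbase : VRB.base h g ≤ k) (ck : Countable k)
    (z z' : Fin (r + 3) → ℂ) (hz : z ≠ 0) (hz' : z' ≠ 0) (i i' : Fin (r + 3)) (hzi : z i = 1)
    (_ : z' i' = 1) (hp : (Projectivization.mk ℂ z hz : PN (r + 3)) ∈ Gen K (eqs h g a))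
    (hp' : Nb (eqs h g a) E (Projectivization.mk ℂ z hz) (Projectivization.mk ℂ z' hz')) :
    ∃ φ : Fin (r + 3) → Polynomial ℂ,
      (∀ j l, (φ j).coeff l ∈ clo (adj k (Set.range z ∪ Set.range z'))) ∧
      (∀ j, (φ j).eval 0 = z j) ∧ (∀ j, (φ j).eval 1 = z' j) ∧
      ∀ (P : MvPolynomial (Fin (r + 3)) ℂ) (e : ℕ), P.IsHomogeneous e → Coef k P →
        aeval z P = 0 → aeval φ P = 0 := by
  classical
  have hkK : k ≤ K := by
    rw [hK]
    exact le_adj _ _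
  have hEK : ∀ i, Coef K (E i) := fun i => (hEk i).mono hkK
  have homh : ∀ j, ∃ e, (h j).IsHomogeneous e := fun j => ⟨_, by
    have h1 := hX.hom (Fin.castAdd m j)
    rw [eqs_cast] at h1
    exact h1⟩
  have hFh : ∀ i, ∃ e, (eqs h g a i).IsHomogeneous e := fun i => ⟨d i, hX.hom i⟩
  have hzX : z ∈ cone (eqs h g a) := ⟨hz, (mem_surf_mk hX.hom hz).1 hp.1⟩
  have hzh := (cone_eqs hzX).1
  obtain ⟨f, hf⟩ := lin_ind hX hbase hrk hai hK hz hzi hp
  obtain ⟨B, hB0, hB⟩ := hrc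
  -- a general pair
  obtain ⟨σ, hσ, h1⟩ := exists_move_gen hX hXi (fun _ : Unit => B) (fun _ => hB0) hX.cK le_rfl hz
    hzi hp
  obtain ⟨t, ht, hBt⟩ := h1 ()
  have hσK : σ ∈ VGS.Fix K := VGS.Fix_mono (le_clo K) hσ
  have hP := (isPair_nb hX.hom hE.hom hz hz' hzX).2 hp'
  have hP' := isPair_smul hFh hE.hom ht one_ne_zero (isPair_fix hX.coef hEK hσK hP)
  obtain ⟨φ, hφh, hφ0, hφ1⟩ := hB _ _ hP' hBt
  -- move it back
  obtain ⟨τ, hτ⟩ : ∃ τ : ℂ ≃+* ℂ, τ = σ⁻¹ := ⟨_, rfl⟩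
  have hτσ : ∀ x, τ (σ x) = x := fun x => by
    rw [hτ]
    exact σ.symm_apply_apply x
  have hτk : τ ∈ VGS.Fix k := by
    rw [hτ]
    exact inv_mem (VGS.Fix_mono hkK hσK)
  obtain ⟨α, hα⟩ : ∃ α, α = τ t := ⟨_, rfl⟩
  have hα0 : α ≠ 0 := by
    rw [hα]
    exact (map_ne_zero τ).2 ht
  let μ : Polynomial ℂ := Polynomial.C α⁻¹ * (1 - Polynomial.X) + Polynomial.X
  let φ₁ : Fin (r + 3) → Polynomial ℂ := fun j => μ * (φ j).map (τ : ℂ →+* ℂ)
  have hφ₁h : ∀ j, aeval φ₁ (h j) = 0 := by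
    intro j
    obtain ⟨e, he⟩ := homh j
    change aeval (fun j => μ * (φ j).map (τ : ℂ →+* ℂ)) (h j) = 0
    rw [aeval_mul_curve he, map_curve (hh j) hτk, hφh j, Polynomial.map_zero, mul_zero]
  have hev : ∀ (q : Polynomial ℂ) (x : ℂ), τ x = x →
      (q.map (τ : ℂ →+* ℂ)).eval x = τ (q.eval x) := by
    intro q x hx
    have h1 := Polynomial.eval_map_apply (p := q) (f := (τ : ℂ →+* ℂ)) x
    have h2 : (τ : ℂ →+* ℂ) x = x := hx
    rw [h2] at h1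
    exact h1
  have hφ₁0 : ∀ j, (φ₁ j).eval 0 = z j := by
    intro j
    change (μ * (φ j).map (τ : ℂ →+* ℂ)).eval 0 = z j
    rw [Polynomial.eval_mul, hev _ _ (map_zero _), hφ0, map_mul, hτσ, ← hα]
    have h1 : μ.eval 0 = α⁻¹ := by simp [μ]
    rw [h1, inv_mul_cancel_left₀ hα0]
  have hφ₁1 : ∀ j, (φ₁ j).eval 1 = z' j := by
    intro j
    change (μ * (φ j).map (τ : ℂ →+* ℂ)).eval 1 = z' j
    rw [Polynomial.eval_mul, hev _ _ (map_one _), hφ1, one_mul, hτσ]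
    have h1 : μ.eval 1 = 1 := by simp [μ]
    rw [h1, one_mul]
  have hkL : k ≤ clo (adj k (Set.range z ∪ Set.range z')) := (le_adj _ _).trans (le_clo _)
  obtain ⟨ψ, hψc, hψh, hψ0, hψ1⟩ := curve_descent
    (L := clo (adj k (Set.range z ∪ Set.range z'))) (clo_clo _) (fun j => (hh j).mono hkL)
    (z := z) (z' := z') (fun j => le_clo _ (subset_adj _ _ (Or.inl ⟨j, rfl⟩)))
    (fun j => le_clo _ (subset_adj _ _ (Or.inr ⟨j, rfl⟩))) φ₁ hφ₁h hφ₁0 hφ₁1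
  refine ⟨ψ, hψc, hψ0, hψ1, fun P e hP hPk h0 => ?_⟩
  refine rel_curve hψh (i := i) (fun h1 => ?_) ?_
  · have h2 := hψ0 i
    rw [h1, Polynomial.eval_zero, hzi] at h2
    exact zero_ne_one h2
  · exact gen_rel hirr homh k hh hzh hzi f hf (htan z hzX) hP (hPk.mono (le_clo _)) h0

end Pool.Agent.VCO
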