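import Pool.Agent.VCO.Side

/-!
# The links along the rational curves in the classes, finite classes
-/

set_option autoImplicit false

open scoped LinearAlgebra.Projectivization
open MvPolynomial

namespace Pool.Agent.VCO

open Pool.Agent.VGS (Fl adj clo Coef IsPl Sp le_adj subset_adj adj_le le_clo clo_mono clo_clo
  fix_mem_clo Fix_mono mem_Fix_adj exists_extend)
open Pool.Agent.VCI hiding EffCorr IsGenericPoint tau tauC
open Pool.Agent.VRC (cone TrLe Rel Rel2 lk_coef_iff lk_coef_C lk_cycle lk_orb_sw lk_limit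
  rel2_conj rel2_act rel_of_rel2 trLe_of_rel)
open Pool.Agent.VRB (Sp2 eqs mat mat_apply eqs_cast eqs_nat lt_over lt_conj)

variable {n : ℕ} [NeZero n] {s m L c u : ℕ} {k K : Fl} {h : Fin s → MvPolynomial (Fin n) ℂ}
  {g : Fin m → Fin L → MvPolynomial (Fin n) ℂ} {E : Fin u → MvPolynomial (Fin n ⊕ Fin n) ℂ}
  {a : Fin L → ℂ} {d : Fin (s + m) → ℕ}

omit [NeZero n] in
/-- `Sp2` for conjugate points -/
theorem sp2_fix (hg : ∀ i l, Coef k (g i l)) {σ : ℂ ≃+* ℂ} (hσ : σ ∈ VGS.Fix k)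
    {z w : Fin n → ℂ} (hS : Sp2 g z w) : Sp2 g (fun j => σ (z j)) fun j => σ (w j) := by
  have hmat : ∀ x : Fin n → ℂ, ∀ b : Fin L → ℂ,
      (mat g fun j => σ (x j)).mulVec (fun l => σ (b l)) = fun i => σ ((mat g x).mulVec b i) := by
    intro x b
    funext i
    simp only [Matrix.mulVec, dotProduct, mat_apply]
    rw [map_sum]
    refine Finset.sum_congr rfl fun l _ => ?_
    rw [VGS.aeval_fix (hg i l) hσ x, map_mul]
  intro b
  obtain ⟨b', h1, h2⟩ := hS fun l => σ.symm (b l)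
  have hb : (fun l => σ ((fun l => σ.symm (b l)) l)) = b := by
    funext l
    exact σ.apply_symm_apply _
  refine ⟨fun l => σ (b' l), ?_, ?_⟩
  · rw [hmat, h1]
    funext i
    exact map_zero σ
  · have h3 := hmat w fun l => σ.symm (b l)
    rw [hb] at h3
    rw [hmat, h2, h3]

omit [NeZero n] in
/-- a finite family which is stable under the automorphisms over `M` and contains given points -/
theorem exists_fam {C : Fl} {u : ℂ} {Q : PN n → Prop} {A : Set (PN n)} (hA : A.Finite)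
    (hAo : ∀ Y ∈ A, Over (clo (adj C {u})) Y) (hAQ : ∀ Y ∈ A, Q Y)
    (hQ : ∀ σ ∈ VGS.Fix (adj C {u}), ∀ Y, Q Y → Q (act σ Y)) :
    ∃ T : Multiset (PN n), T.Nodup ∧ IsFam C u T ∧ (∀ Y ∈ T, Q Y) ∧ ∀ Y ∈ A, Y ∈ T := by
  classical
  have hfin : (⋃ Y ∈ A, {q | ∃ σ ∈ VGS.Fix (adj C {u}), act σ Y = q}).Finite :=
    hA.biUnion fun Y hY => finite_orbit_pt _ (hAo Y hY)
  obtain ⟨T, hTnd, hTmem⟩ : ∃ T : Multiset (PN n), T.Nodup ∧
      ∀ q, q ∈ T ↔ ∃ Y ∈ A, ∃ σ ∈ VGS.Fix (adj C {u}), act σ Y = q := by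
    refine ⟨hfin.toFinset.val, hfin.toFinset.nodup, fun q => ?_⟩
    rw [Finset.mem_val, Set.Finite.mem_toFinset, Set.mem_iUnion₂]
    simp only [Set.mem_ofPred_eq, exists_prop]
  refine ⟨T, hTnd, ⟨fun q hq => ?_, fun σ hσ => ?_⟩, fun Y hY => ?_, fun Y hY => ?_⟩
  · obtain ⟨Y, hY, σ, hσ, rfl⟩ := (hTmem q).1 hq
    exact (over_clo_act hσ).2 (hAo Y hY)
  · refine (Multiset.Nodup.ext (hTnd.map (act_injective σ)) hTnd).2 fun q => ?_
    rw [Multiset.mem_map]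
    constructor
    · rintro ⟨q', hq', rfl⟩
      obtain ⟨Y, hY, τ, hτ, rfl⟩ := (hTmem q').1 hq'
      exact (hTmem _).2 ⟨Y, hY, σ * τ, (VGS.Fix _).mul_mem hσ hτ, by rw [act_mul]⟩
    · intro hq
      obtain ⟨Y, hY, τ, hτ, rfl⟩ := (hTmem q).1 hq
      refine ⟨act (σ⁻¹ * τ) Y, (hTmem _).2
        ⟨Y, hY, _, (VGS.Fix _).mul_mem ((VGS.Fix _).inv_mem hσ) hτ, rfl⟩, ?_⟩
      rw [← act_mul, mul_inv_cancel_left]
  · obtain ⟨Y', hY', σ, hσ, rfl⟩ := (hTmem Y).1 hY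
    exact hQ σ hσ _ (hAQ _ hY')
  · exact (hTmem Y).2 ⟨Y, hY, 1, one_mem _, act_one _⟩

theorem rc_link (H : LinC c k h g E a K d) {p q : PN n} (hp : p ∈ Gen K (eqs h g a))
    (hq : Nb (eqs h g a) E p q) {sw : ℂ ≃+* ℂ} (hsw : sw ∈ VGS.Fix K)
    (h1 : act sw p = q) (h2 : act sw q = p)
    {w : Fin n → ℂ} {i₁ : Fin n} (hwi : w i₁ = 1) (hw : w ∈ cone (eqs h g a))
    (hwE : ∀ j, w j ∈ clo (adjP K p)) (htr : TrLe (adjP k p) c w)
    (hS : Sp2 g p.rep w) :
    ∃ b b' : ℕ, Orb (adjP K p) (mkP w) + (b : ℚ) • Finsupp.single p 1 -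
      actC sw (Orb (adjP K p) (mkP w)) - (b' : ℚ) • Finsupp.single q 1 ∈
        ratQ (eqs h g a) := by
  classical
  have hcK := lk_cK H
  have hkK := lk_kK H
  have hck := H.ck
  have hcoef := lk_coef H
  -- normalised coordinates
  obtain ⟨z, hz, i₀, hzi, rfl⟩ := exists_nrm p
  obtain ⟨z', hz'def⟩ : ∃ z' : Fin n → ℂ, z' = fun j => sw (z j) := ⟨_, rfl⟩
  have hz' : z' ≠ 0 := by
    rw [hz'def]
    exact map_ne_zero' sw hz
  have hz'i : z' i₀ = 1 := by
    rw [hz'def]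
    change sw (z i₀) = 1
    rw [hzi, map_one]
  have hqz : q = Projectivization.mk ℂ z' hz' := by
    rw [← h1, act_mk sw z hz (map_ne_zero' sw hz)]
    simp only [hz'def]
  subst hqz
  have hadjz : ∀ L : Fl, adjP L (Projectivization.mk ℂ z hz) = adj L (Set.range z) :=
    fun L => adjP_mk hz hzi
  have hadjz' : ∀ L : Fl, adjP L (Projectivization.mk ℂ z' hz') = adj L (Set.range z') :=
    fun L => adjP_mk hz' hz'i
  rw [hadjz] at hwE htr
  rw [hadjz]
  have hzX : z ∈ cone (eqs h g a) := ⟨hz, (mem_surf_mk H.hom hz).1 hp.1⟩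
  have hqK : Projectivization.mk ℂ z' hz' ∈ Gen K (eqs h g a) :=
    H.cls.gen K hcK le_rfl _ hp _ hq.1 hq.2.1
  obtain ⟨α, hα⟩ := Projectivization.exists_smul_eq_mk_rep ℂ z hz
  have hα0 : (α : ℂ) ≠ 0 := α.ne_zero
  have hrep : ∀ j, (Projectivization.mk ℂ z hz : PN n).rep j = (α : ℂ) * z j := by
    intro j
    rw [← hα]
    rfl
  have hSz : Sp2 g z w := hS.scale H.homg hα0 hrep (ν := 1) (fun j => (one_mul _).symm)
  -- the field
  obtain ⟨C, hC⟩ : ∃ C : Fl, C = clo (adj K (Set.range z)) := ⟨_, rfl⟩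
  have hcC : Countable C := by
    have : Countable (Set.range z) := (Set.countable_range _).to_subtype
    rw [hC]
    infer_instance
  have hCC : clo C = C := by rw [hC, clo_clo]
  have hz'C : ∀ j, z' j ∈ C := by
    have h3 := H.cls.ov _ hp _ hq.1 hq.2.1
    rw [over_mk hz' hz'i, hadjz, ← hC] at h3
    exact h3
  have hzC' : ∀ j, z j ∈ clo (adj K (Set.range z')) := by
    have h3 := H.cls.ov _ hqK _ hp.1 (H.cls.symm _ hp.1 _ hq.1 hq.2.1)
    rw [over_mk hz hzi, hadjz'] at h3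
    exact h3
  have hKC : adj K (Set.range z) ≤ C := by rw [hC]; exact le_clo _
  have hKC' : K ≤ C := (le_adj _ _).trans hKC
  have hkC : k ≤ C := hkK.trans hKC'
  have hzC : ∀ j, z j ∈ C := fun j => hKC (subset_adj _ _ ⟨j, rfl⟩)
  have hC' : C = clo (adj K (Set.range z')) := by
    apply le_antisymm
    · rw [hC]
      have h3 : clo (adj K (Set.range z)) ≤ clo (clo (adj K (Set.range z'))) :=
        clo_mono (adj_le ((le_adj _ _).trans (le_clo _)) (by
          rintro _ ⟨j, rfl⟩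
          exact hzC' j))
      rwa [clo_clo] at h3
    · have h3 : clo (adj K (Set.range z')) ≤ clo C := clo_mono (adj_le hKC' (by
        rintro _ ⟨j, rfl⟩
        exact hz'C j))
      rwa [hCC] at h3
  have hcoefC : ∀ i, Coef C (eqs h g a i) := fun i => (hcoef i).mono hKC'
  -- the curve
  obtain ⟨φ, hφC₀, hφ0, hφ1, hφ⟩ := H.rc z z' hz hz' i₀ i₀ hzi hz'i hp hq
  have hφC : ∀ j l, (φ j).coeff l ∈ C := fun j l => by
    have h3 : clo (adj k (Set.range z ∪ Set.range z')) ≤ clo C :=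
      clo_mono (adj_le hkC (Set.union_subset (by rintro _ ⟨j, rfl⟩; exact hzC j)
        (by rintro _ ⟨j, rfl⟩; exact hz'C j)))
    rw [hCC] at h3
    exact h3 (hφC₀ j l)
  -- the image of the point
  have hw0 : w ≠ 0 := hw.1
  obtain ⟨w', hw'def⟩ : ∃ w' : Fin n → ℂ, w' = fun j => sw (w j) := ⟨_, rfl⟩
  have hw'0 : w' ≠ 0 := by
    rw [hw'def]
    exact map_ne_zero' sw hw0
  have hw'i : w' i₁ = 1 := by
    rw [hw'def]
    change sw (w i₁) = 1
    rw [hwi, map_one]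
  have hw'P : mkP w' = act sw (mkP w) := by
    rw [act_mkP, hw'def]
  have hw'X : w' ∈ cone (eqs h g a) := by
    refine ⟨hw'0, fun i => ?_⟩
    rw [hw'def]
    rw [VGS.aeval_fix (hcoef i) hsw w, hw.2 i, map_zero]
  have hadj : ∀ L : Fl, L ≤ K → ∀ x ∈ adj L (Set.range z), sw x ∈ adj L (Set.range z') := by
    intro L hL
    refine adj_map (fun x hx => by rw [hsw x (hL hx)]; exact hx) ?_
    rintro _ ⟨j, rfl⟩
    exact subset_adj _ _ ⟨j, by rw [hz'def]⟩
  have hw'E : ∀ j, w' j ∈ clo (adj K (Set.range z')) := by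
    intro j
    rw [hw'def]
    exact clo_map (hadj K le_rfl) _ (hwE j)
  have hw'tr : TrLe (adj k (Set.range z')) c w' := by
    intro f hf
    apply htr f
    have h3 := ai_transport (L' := adj k (Set.range z)) (σ := sw.symm) (fun x hx => by
      rw [RingEquiv.symm_symm]
      exact hadj k hkK x hx) hf
    have h4 : (fun i => sw.symm (w' (f i))) = fun b => w (f b) := by
      funext b
      rw [hw'def]
      exact sw.symm_apply_apply _
    rwa [h4] at h3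
  have hS' : Sp2 g z' w' := by
    rw [hz'def, hw'def]
    exact sp2_fix H.coefg (Fix_mono hkK hsw) hSz
  -- the curve in the other direction
  obtain ⟨φ', hφ'def⟩ : ∃ φ' : Fin n → Polynomial ℂ, φ' = fun j =>
    (φ j).comp (Polynomial.C 1 - Polynomial.X) := ⟨_, rfl⟩
  have hφ'ev : ∀ j x, (φ' j).eval x = (φ j).eval (1 - x) := by
    intro j x
    rw [hφ'def]
    simp
  have hφ'C : ∀ j l, (φ' j).coeff l ∈ C := by
    intro j l
    obtain ⟨ψ, hψ⟩ := (Polynomial.mem_lifts _).1 ((Polynomial.lifts_iff_coeff_lifts (φ j)).2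
      (fun l => (⟨⟨_, hφC j l⟩, rfl⟩ : _ ∈ Set.range (algebraMap C ℂ))))
    have h3 : φ' j = (ψ.comp (Polynomial.C 1 - Polynomial.X)).map (algebraMap C ℂ) := by
      rw [Polynomial.map_comp, hψ, hφ'def]
      simp
    rw [h3, Polynomial.coeff_map]
    exact ((ψ.comp (Polynomial.C 1 - Polynomial.X)).coeff l).2
  have hφ'0 : ∀ j, (φ' j).eval 0 = z' j := by
    intro j
    rw [hφ'ev, sub_zero, hφ1]
  have hφ' : ∀ (P : MvPolynomial (Fin n) ℂ) (e : ℕ), P.IsHomogeneous e → Coef k P →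
      aeval z' P = 0 → aeval φ' P = 0 := by
    intro P e hP hPk h0
    have h3 : aeval z P = 0 := by
      have h4 := VGS.aeval_fix hPk (Fix_mono hkK hsw) z
      rw [← hz'def, h0] at h4
      exact (map_eq_zero_iff sw sw.injective).1 h4.symm
    have h4 := hφ P e hP hPk h3
    have h5 : aeval φ' P = (aeval φ P).comp (Polynomial.C 1 - Polynomial.X) := by
      rw [hφ'def]
      exact (MvPolynomial.comp_aeval_apply (R := ℂ) φ
        (Polynomial.aeval (Polynomial.C 1 - Polynomial.X) : Polynomial ℂ →ₐ[ℂ] Polynomial ℂ)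
        P).symm
    rw [h5, h4, Polynomial.zero_comp]
  -- the parameter and the places
  obtain ⟨t, ht⟩ := VGS.exists_notMem C
  obtain ⟨V₀, hV₀, ht₀⟩ := VGS.exists_place hCC ht (zero_mem C)
  obtain ⟨V₁, hV₁, ht₁⟩ := VGS.exists_place hCC ht (one_mem C)
  have ht' : 1 - t ∉ C := fun h3 => ht (by
    have h4 := C.sub_mem (one_mem C) h3
    rwa [sub_sub_cancel] at h4)
  have ht₁' : Sp V₁ C (1 - t) 0 := by
    have h3 := (Sp.const hV₁ (one_mem C)).sub hV₁ ht₁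
    rwa [sub_self] at h3
  have hadjt : adj C {1 - t} = adj C {t} := by
    apply le_antisymm
    · refine adj_le (le_adj _ _) ?_
      rintro x rfl
      exact (adj C {t}).sub_mem (one_mem _) (subset_adj _ _ rfl)
    · refine adj_le (le_adj _ _) ?_
      rintro x rfl
      have h3 := (adj C {1 - x}).sub_mem (one_mem _) (subset_adj C {1 - x} (rfl : 1 - x = 1 - x))
      rwa [sub_sub_cancel] at h3
  have hφt : (fun j => (φ' j).eval (1 - t)) = fun j => (φ j).eval t := by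
    funext j
    rw [hφ'ev, sub_sub_cancel]
  -- the lifts
  obtain ⟨Q, hQ⟩ : ∃ Q : PN n → Prop, Q = IsLift k (adj C {t}) (eqs h g a) i₁ z w
    (fun j => (φ j).eval t) := ⟨_, rfl⟩
  have hrel_sw : ∀ x y : Fin n → ℂ, Rel2 k z' w' x y ↔ Rel2 k z w x y := by
    intro x y
    constructor
    · intro h3
      have h4 := rel2_conj (σ := sw⁻¹) (inv_mem (Fix_mono hkK hsw)) h3
      have h5 : (fun j => sw⁻¹ (z' j)) = z := by
        funext j
        rw [hz'def]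
        exact sw.symm_apply_apply _
      have h6 : (fun j => sw⁻¹ (w' j)) = w := by
        funext j
        rw [hw'def]
        exact sw.symm_apply_apply _
      rwa [h5, h6] at h4
    · intro h3
      have h4 := rel2_conj (Fix_mono hkK hsw) h3
      rwa [← hz'def, ← hw'def] at h4
  have hQ' : ∀ Y, Q Y ↔ IsLift k (adj C {1 - t}) (eqs h g a) i₁ z' w'
      (fun j => (φ' j).eval (1 - t)) Y := by
    intro Y
    rw [hQ, hφt, hadjt]
    unfold IsLift
    simp only [hrel_sw]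
  have hl₀ : ∀ x : PN n, (∃ σ ∈ VGS.Fix (adj K (Set.range z)), act σ (mkP w) = x) →
      ∃ Y, Q Y ∧ SpP V₀ C Y x := by
    rintro _ ⟨σ, hσ, rfl⟩
    obtain ⟨y, hyi, hyX, hyC, hyw, hyrel⟩ := lift_exists H hz hzi hp hwi hw hwE htr hSz hC φ hφC
      hφ0 hφ hV₀ ht ht₀ hσ
    refine ⟨mkP y, ?_, ?_⟩
    · rw [hQ]
      exact ⟨y, rfl, hyi, hyX, hyC, hyrel⟩
    · rw [act_mkP, mkP_eq hyX.1, mkP_eq (map_ne_zero' σ hw0)]
      exact (spP_mk hV₀ hyX.1 (map_ne_zero' σ hw0) hyi (by rw [hwi, map_one])).2 hyw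
  have hl₁ : ∀ x : PN n, (∃ σ ∈ VGS.Fix (adj K (Set.range z')), act σ (mkP w') = x) →
      ∃ Y, Q Y ∧ SpP V₁ C Y x := by
    rintro _ ⟨σ, hσ, rfl⟩
    obtain ⟨y, hyi, hyX, hyC, hyw, hyrel⟩ := lift_exists H hz' hz'i hqK hw'i hw'X hw'E hw'tr hS'
      hC' φ' hφ'C hφ'0 hφ' hV₁ ht' ht₁' hσ
    refine ⟨mkP y, ?_, ?_⟩
    · rw [hQ']
      exact ⟨y, rfl, hyi, hyX, hyC, hyrel⟩
    · rw [act_mkP, mkP_eq hyX.1, mkP_eq (map_ne_zero' σ hw'0)]
      exact (spP_mk hV₁ hyX.1 (map_ne_zero' σ hw'0) hyi (by rw [hw'i, map_one])).2 hyw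
  choose! Y₀ hY₀Q hY₀ using hl₀
  choose! Y₁ hY₁Q hY₁ using hl₁
  have hwOver : Over (clo (adj K (Set.range z))) (mkP w) := by
    rw [mkP_eq hw0, over_mk hw0 hwi]
    exact hwE
  have hw'Over : Over (clo (adj K (Set.range z'))) (mkP w') := by
    rw [mkP_eq hw'0, over_mk hw'0 hw'i]
    exact hw'E
  have hQo : ∀ Y, Q Y → Over (clo (adj C {t})) Y := by
    intro Y hY
    rw [hQ] at hY
    obtain ⟨y, rfl, hyi, hyX, hyC, -⟩ := hY
    rw [mkP_eq hyX.1, over_mk hyX.1 hyi]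
    exact hyC
  have hQs : ∀ σ ∈ VGS.Fix (adj C {t}), ∀ Y, Q Y → Q (act σ Y) := by
    intro σ hσ Y hY
    rw [hQ] at hY ⊢
    obtain ⟨y, rfl, hyi, hyX, hyC, hyrel⟩ := hY
    obtain ⟨hσC, hσt⟩ := mem_Fix_adj.1 hσ
    have hσt' : σ t = t := hσt t rfl
    have hσK : σ ∈ VGS.Fix K := Fix_mono hKC' hσC
    refine ⟨fun j => σ (y j), act_mkP σ y, ?_, ⟨map_ne_zero' σ hyX.1, fun i => ?_⟩, fun j => ?_,
      ?_⟩
    · change σ (y i₁) = 1
      rw [hyi, map_one]
    · rw [VGS.aeval_fix (hcoef i) hσK y, hyX.2 i, map_zero]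
    · exact (fix_mem_clo hσ).2 (hyC j)
    · have h3 := rel2_act hyrel (Fix_mono hkC hσC)
      have h4 : (fun j => σ ((φ j).eval t)) = fun j => (φ j).eval t := by
        funext j
        have h5 := fm_eval σ (φ j) t
        rw [hσt'] at h5
        rw [← h5]
        congr 1
        ext l
        rw [Polynomial.coeff_map]
        exact hσC _ (hφC j l)
      rwa [h4] at h3
  obtain ⟨T, hTnd, hT, hTQ, hTA⟩ := exists_fam (C := C) (u := t) (Q := Q)
    (A := Y₀ '' {x | ∃ σ ∈ VGS.Fix (adj K (Set.range z)), act σ (mkP w) = x} ∪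
      Y₁ '' {x | ∃ σ ∈ VGS.Fix (adj K (Set.range z')), act σ (mkP w') = x})
    (((finite_orbit_pt _ hwOver).image _).union ((finite_orbit_pt _ hw'Over).image _))
    (by
      rintro Y (⟨x, hx, rfl⟩ | ⟨x, hx, rfl⟩)
      · exact hQo _ (hY₀Q x hx)
      · exact hQo _ (hY₁Q x hx))
    (by
      rintro Y (⟨x, hx, rfl⟩ | ⟨x, hx, rfl⟩)
      · exact hY₀Q x hx
      · exact hY₁Q x hx) hQs
  have hex : ∀ (V : ValuationSubring ℂ) (x : ℂ), IsPl V C → Sp V C t x →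
      ∃ f : PN n → PN n, ∀ Y ∈ T, SpP V C Y (f Y) := by
    intro V x hV hx
    have h3 : ∀ Y ∈ T, ∃ Y', SpP V C Y Y' := fun Y hY => exists_spP hCC hV ht hx (hT.isOver Y hY)
    choose! f hf using h3
    exact ⟨f, hf⟩
  obtain ⟨f₀, hf₀⟩ := hex V₀ 0 hV₀ ht₀
  obtain ⟨f₁, hf₁⟩ := hex V₁ 1 hV₁ ht₁
  -- the cycles
  have h3 : cycQ (T.map f₀) - cycQ (T.map f₁) ∈ ratQ (eqs h g a) := by
    have key : ∀ D : Fl, D = C → ∀ (_ : t ∉ D) (_ : IsPl V₀ D) (_ : IsPl V₁ D)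
        (_ : Sp V₀ D t 0) (_ : Sp V₁ D t 1) (_ : ∀ q ∈ T, SpP V₀ D q (f₀ q))
        (_ : ∀ q ∈ T, SpP V₁ D q (f₁ q)), D = clo C →
        cycQ (T.map f₀) - cycQ (T.map f₁) ∈ ratQ (eqs h g a) := by
      rintro D - a1 a2 a3 a4 a5 a6 a7 rfl
      refine link_ms a1 hT H.hom hcoefC (fun Y hY => ?_) a2 a3 a4 a5 a6 a7
      have h3 := hTQ Y hY
      rw [hQ] at h3
      obtain ⟨y, rfl, -, hyX, -, -⟩ := h3
      rw [mkP_eq hyX.1, mem_surf_mk H.hom]
      exact hyX.2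
    exact key C rfl ht hV₀ hV₁ ht₀ ht₁ hf₀ hf₁ hCC.symm
  have h4 : actC sw (Orb (adj K (Set.range z)) (mkP w)) =
      Orb (adj K (Set.range z')) (mkP w') := by
    have h5 := lk_orb_sw (p := Projectivization.mk ℂ z hz) (x := mkP w) hsw
      (by rw [hadjz]; exact hwOver) (by rw [h1, ← hw'P, hadjz']; exact hw'Over)
    rwa [h1, ← hw'P, hadjz, hadjz'] at h5
  have hsub : ∀ x y z t : Cy n, x + y - z - t = x + y - (z + t) := fun x y z t => by abel
  have hTl₀ : ∀ Y ∈ T, IsLift k (adj C {t}) (eqs h g a) i₁ z w (fun j => (φ j).eval t) Y := by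
    intro Y hY
    have h3 := hTQ Y hY
    rwa [hQ] at h3
  have hTl₁ := fun Y hY => (hQ' Y).1 (hTQ Y hY)
  by_cases hwz : mkP w = Projectivization.mk ℂ z hz
  · -- the point `w` is `z`
    have hwz' : mkP w' = Projectivization.mk ℂ z' hz' := by rw [hw'P, hwz, h1]
    have hfix : ∀ (x : Fin n → ℂ) (hx : x ≠ 0), ∀ σ ∈ VGS.Fix (adj K (Set.range x)),
        act σ (Projectivization.mk ℂ x hx : PN n) = Projectivization.mk ℂ x hx := by
      intro x hx σ hσ
      have h1 : (fun j => σ (x j)) = x := by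
        funext j
        exact hσ _ (subset_adj _ _ ⟨j, rfl⟩)
      rw [act_mk σ x hx (map_ne_zero' σ hx)]
      simp only [h1]
    have hl₀ : ∀ Y ∈ T, f₀ Y = Projectivization.mk ℂ z hz := by
      intro Y hY
      rcases side_lim H hz hzi hp hwi hw hwE htr hC φ hφC hφ0 hV₀ ht₀ hTl₀ hf₀ Y hY with h5 | h5
      · exact h5
      · obtain ⟨σ, hσ, h6⟩ := h5
        rw [← h6, hwz, hfix z hz σ hσ]
    have hl₁ : ∀ Y ∈ T, f₁ Y = Projectivization.mk ℂ z' hz' := by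
      intro Y hY
      rcases side_lim H hz' hz'i hqK hw'i hw'X hw'E hw'tr hC' φ' hφ'C hφ'0 hV₁ ht₁' hTl₁ hf₁ Y
        hY with h5 | h5
      · exact h5
      · obtain ⟨σ, hσ, h6⟩ := h5
        rw [← h6, hwz', hfix z' hz' σ hσ]
    have hcyc : ∀ (f : PN n → PN n) (x : PN n), (∀ Y ∈ T, f Y = x) →
        cycQ (T.map f) = (T.card : ℚ) • Finsupp.single x 1 := by
      intro f x hfx
      rw [Multiset.map_congr rfl hfx, Multiset.map_const']
      ext q
      rw [cycQ_apply, Multiset.count_replicate, Finsupp.smul_apply, Finsupp.single_apply,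
        smul_eq_mul]
      split_ifs <;> simp
    have horb : ∀ (x : Fin n → ℂ) (hx : x ≠ 0) (y : PN n), y = Projectivization.mk ℂ x hx →
        Over (clo (adj K (Set.range x))) y →
        Orb (adj K (Set.range x)) y = Finsupp.single (Projectivization.mk ℂ x hx) 1 := by
      intro x hx y hy hyo
      ext q
      rw [Orb_apply hyo, Finsupp.single_apply]
      congr 1
      rw [hy]
      apply propext
      constructor
      · rintro ⟨σ, hσ, rfl⟩
        exact (hfix x hx σ hσ).symm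
      · intro h5
        exact ⟨1, one_mem _, by rw [act_one, h5]⟩
    have hT1 : 1 ≤ T.card := by
      have h5 := hTA (Y₀ (mkP w)) (Or.inl ⟨mkP w, ⟨1, one_mem _, act_one _⟩, rfl⟩)
      exact Multiset.card_pos_iff_exists_mem.2 ⟨_, h5⟩
    rw [hcyc f₀ _ hl₀, hcyc f₁ _ hl₁] at h3
    refine ⟨T.card - 1, T.card - 1, ?_⟩
    rw [h4, horb z hz _ hwz hwOver, horb z' hz' _ hwz' hw'Over, hsub]
    have h5 : ∀ x : Cy n, x + ((T.card - 1 : ℕ) : ℚ) • x = (T.card : ℚ) • x := by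
      intro x
      rw [Nat.cast_sub hT1, sub_smul, Nat.cast_one, one_smul]
      abel
    rw [h5, h5]
    exact h3
  · have hwz' : mkP w' ≠ Projectivization.mk ℂ z' hz' := by
      rw [hw'P, ← h1]
      exact fun h3 => hwz (act_injective sw h3)
    obtain ⟨b, hb⟩ := side H hz hzi hp hwi hw hwE htr hSz hwz hC φ hφC hφ0 hφ hV₀ ht ht₀ hTnd
      hTl₀ hf₀ (fun σ hσ => ⟨Y₀ (act σ (mkP w)), hTA _ (Or.inl ⟨_, ⟨σ, hσ, rfl⟩, rfl⟩),
        hY₀ _ ⟨σ, hσ, rfl⟩⟩)
    obtain ⟨b', hb'⟩ := side H hz' hz'i hqK hw'i hw'X hw'E hw'tr hS' hwz' hC' φ' hφ'C hφ'0 hφ' hV₁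
      ht' ht₁' hTnd hTl₁ hf₁
      (fun σ hσ => ⟨Y₁ (act σ (mkP w')), hTA _ (Or.inr ⟨_, ⟨σ, hσ, rfl⟩, rfl⟩),
        hY₁ _ ⟨σ, hσ, rfl⟩⟩)
    refine ⟨b, b', ?_⟩
    rw [hb, hb'] at h3
    rw [h4, hsub]
    exact h3

end Pool.Agent.VCO
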