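import Pool.Agent.VCO.SDefs
import Pool.Agent.VCO.Letters
import Pool.Agent.VRB.RCMove

/-!
# The moved point on the rational curve: classes
-/

set_option autoImplicit false

open scoped LinearAlgebra.Projectivization
open MvPolynomial

namespace Pool.Agent.VCO

open Pool.Agent.VGS (Fl adj clo Coef Kills IsPl Sp coef_iff le_clo subset_adj le_adj adj_le
  clo_mono clo_clo ai_sum ai_mono)
open Pool.Agent.VCI hiding EffCorr IsGenericPoint tau tauC
open Pool.Agent.VRC (cone TrLe Rel Rel2 RCM.coef_C)
open Pool.Agent.VRC hiding eqs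
open Pool.Agent.VRB hiding rc_move lt_of base

variable {n : ℕ}

section Lin

variable [NeZero n] {s m L c u : ℕ} {k K : Fl} {h : Fin s → MvPolynomial (Fin n) ℂ}
  {g : Fin m → Fin L → MvPolynomial (Fin n) ℂ} {E : Fin u → MvPolynomial (Fin n ⊕ Fin n) ℂ}
  {a : Fin L → ℂ} {d : Fin (s + m) → ℕ}

/-- **The moved point on the rational curve.** -/
theorem rc_move (H : LinC c k h g E a K d) {z : Fin n → ℂ} (hz : z ≠ 0) {i₀ : Fin n}
    (hzi : z i₀ = 1) (hp : Projectivization.mk ℂ z hz ∈ Gen K (eqs h g a))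
    {w : Fin n → ℂ} {i₁ : Fin n} (hwi : w i₁ = 1) (hw : w ∈ cone (eqs h g a))
    (hwE : ∀ j, w j ∈ clo (adj K (Set.range z))) (htr : TrLe (adj k (Set.range z)) c w)
    (hS : Sp2 g z w)
    (C : Fl) [Countable C] (hC : clo C = C) (hKC : adj K (Set.range z) ≤ C)
    (φ : Fin n → Polynomial ℂ) (hφC : ∀ j l, (φ j).coeff l ∈ C)
    (hφ0 : ∀ j, (φ j).eval 0 = z j)
    (hφ : ∀ (P : MvPolynomial (Fin n) ℂ) (e : ℕ), P.IsHomogeneous e → Coef k P →
      aeval z P = 0 → aeval φ P = 0) :
    ∃ (V : ValuationSubring ℂ) (y : Fin n → ℂ) (u : ℂ), IsPl V C ∧ Sp V C u 0 ∧ u ∉ C ∧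
      (∀ j, Sp V C (y j) (w j)) ∧ (∀ j, y j ∈ clo (adj C {u})) ∧ y i₁ = 1 ∧
      y ∈ cone (eqs h g a) ∧ Rel2 k z w (fun j => (φ j).eval u) y := by
  classical
  -- the fields
  have hkK : k ≤ K := by
    rw [H.hK]
    exact le_adj _ _
  have hkC : k ≤ C := hkK.trans ((le_adj _ _).trans hKC)
  have hzC : ∀ j, z j ∈ C := fun j => hKC (subset_adj _ _ ⟨j, rfl⟩)
  have hcloC : clo (adj K (Set.range z)) ≤ C := by
    rw [← hC]
    exact clo_mono hKC
  have hwC : ∀ j, w j ∈ C := fun j => hcloC (hwE j)
  have hzcone : z ∈ cone (eqs h g a) := ⟨hz, (mem_surf_mk H.hom hz).1 hp.1⟩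
  -- the letters
  obtain ⟨Λ, _, A, S, hLt, hadj, hSg, hSp⟩ := lt_of H hz hzi hp
  have hwE' : ∀ j, w j ∈ clo (adj (adj k (Set.range z)) (Set.range A)) := by
    intro j
    rw [hadj]
    exact hwE j
  obtain ⟨I, N, hIN⟩ := (hSp w hw).1 hS
  obtain ⟨f, hfai, hfalg⟩ := lt_trd hLt hwi hw hwE' htr ⟨I, N, hIN⟩
  -- the rows of the minor
  choose b₀ hb₀ using hSg
  obtain ⟨N', hN'⟩ : ∃ N' : Fin c → Fin L, mnr g I N' w ≠ 0 := by
    refine exists_cols (X := fun i l => aeval w (g i l)) (I := I) (b := fun j => b₀ (N j)) ?_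
    have h1 : (Matrix.of fun i j => ∑ l, b₀ (N j) l * aeval w (g (I i) l) :
        Matrix (Fin c) (Fin c) ℂ) = Matrix.of fun i j => aeval w (S (I i) (N j)) := by
      ext i j
      rw [Matrix.of_apply, Matrix.of_apply, hb₀, map_sum]
      refine Finset.sum_congr rfl fun l _ => ?_
      rw [map_mul, aeval_C]
      rfl
    rw [h1]
    exact hIN
  -- the parameters
  obtain ⟨B, hBai, hBalg⟩ := RCM.exists_basis k z
  set b : B ⊕ Fin c → ℂ := Sum.elim (fun i : B => z i) (fun i => w (f i)) with hb
  have hadjB : adj k (Set.range z) ≤ clo (adj k (Set.range fun i : B => z i)) := by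
    refine adj_le ((le_adj _ _).trans (le_clo _)) ?_
    rintro _ ⟨j, rfl⟩
    exact hBalg j
  have hbai : AlgebraicIndependent k b := by
    rw [hb, ai_sum]
    refine ⟨hBai, ?_⟩
    have h1 : adj k (Set.range fun i : B => z i) ≤ adj k (Set.range z) := by
      refine adj_le (le_adj _ _) ?_
      rintro _ ⟨i, rfl⟩
      exact subset_adj _ _ ⟨_, rfl⟩
    exact ai_mono h1 hfai
  have hbz : ∀ i : B, z i ∈ Set.range b := fun i => ⟨Sum.inl i, rfl⟩
  have hbw : ∀ i : Fin c, w (f i) ∈ Set.range b := fun i => ⟨Sum.inr i, rfl⟩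
  have hzb : ∀ j, z j ∈ clo (adj k (Set.range b)) := by
    intro j
    refine clo_mono (adj_le (le_adj _ _) ?_) (hBalg j)
    rintro _ ⟨i, rfl⟩
    exact subset_adj _ _ (hbz i)
  have hwb : ∀ j, w j ∈ clo (adj k (Set.range b)) := by
    intro j
    have h1 : adj (adj k (Set.range z)) (Set.range fun i => w (f i)) ≤
        clo (adj k (Set.range b)) := by
      refine adj_le (adj_le ((le_adj _ _).trans (le_clo _)) ?_) ?_
      · rintro _ ⟨i, rfl⟩
        exact hzb i
      · rintro _ ⟨i, rfl⟩
        exact le_clo _ (subset_adj _ _ (hbw i))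
    have h2 := clo_mono h1 (hfalg j)
    rwa [clo_clo] at h2
  set q : Fin n ⊕ Fin n → ℂ := Sum.elim z w with hq
  -- the equations
  set Φ : B ⊕ Fin c → MvPolynomial (Option (Fin n ⊕ Fin n)) ℂ :=
    Sum.elim (fun i => X (some (Sum.inl (i : Fin n))) * RCM.par n (φ i₀) - RCM.par n (φ i))
      (fun i => rename (fun j => some (Sum.inr j)) (eqs h g a (Fin.natAdd s (I i)))) with hΦd
  have hcoefX : ∀ i, Coef C (eqs h g a i) := by
    intro i
    refine Fin.addCases (fun j => ?_) (fun j => ?_) i
    · have h1 : eqs h g a (Fin.castAdd m j) = h j := by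
        unfold eqs
        rw [Fin.append_left]
      rw [h1]
      exact (H.coefh j).mono hkC
    · have h1 : eqs h g a (Fin.natAdd s j) = ∑ l, MvPolynomial.C (a l) * g j l := by
        unfold eqs
        rw [Fin.append_right]
      rw [h1]
      refine RCM.coef_sum _ fun l _ => RCM.coef_mul (RCM.coef_C ?_) ((H.coefg j l).mono hkC)
      refine hKC (le_adj _ _ ?_)
      rw [H.hK]
      exact subset_adj _ _ ⟨l, rfl⟩
  have hΦC : ∀ l, Coef C (Φ l) := by
    rintro (i | i)
    · exact RCM.coef_sub (RCM.coef_mul (RCM.coef_X _) (RCM.coef_par (hφC i₀)))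
        (RCM.coef_par (hφC i))
    · exact RCM.coef_rename _ (hcoefX _)
  have hev1 : ∀ (u : ℂ) (y : Fin n ⊕ Fin n → ℂ) (i : B),
      aeval (fun o : Option (Fin n ⊕ Fin n) => o.elim u y) (Φ (Sum.inl i)) =
        y (Sum.inl i) * (φ i₀).eval u - (φ i).eval u := by
    intro u y i
    change aeval _ (X (some (Sum.inl (i : Fin n))) * RCM.par n (φ i₀) - RCM.par n (φ i)) = _
    rw [map_sub, map_mul, aeval_X, RCM.aeval_par, RCM.aeval_par]
    rfl
  have hev2 : ∀ (u : ℂ) (y : Fin n ⊕ Fin n → ℂ) (i : Fin c),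
      aeval (fun o : Option (Fin n ⊕ Fin n) => o.elim u y) (Φ (Sum.inr i)) =
        aeval (fun j => y (Sum.inr j)) (eqs h g a (Fin.natAdd s (I i))) := by
    intro u y i
    change aeval _ (rename (fun j => some (Sum.inr j)) (eqs h g a (Fin.natAdd s (I i)))) = _
    rw [aeval_rename]
    rfl
  have hΦ0 : ∀ l, aeval (fun o : Option (Fin n ⊕ Fin n) => o.elim 0 q) (Φ l) = 0 := by
    rintro (i | i)
    · rw [hev1, hφ0, hφ0, hzi, mul_one]
      exact sub_self _
    · rw [hev2]
      exact hw.2 _
  have hJ : ∀ D : Derivation ℤ ℂ ℂ, Kills k D →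
      (∀ l, ∑ i, aeval (fun o : Option (Fin n ⊕ Fin n) => o.elim 0 q)
        (pderiv (some i) (Φ l)) * D (q i) = 0) → ∀ l, D (b l) = 0 := by
    intro D hD hl
    have hz1 : ∀ i : B, D (z i) = 0 := by
      intro i
      have h1 := hl (Sum.inl i)
      have h2 : ∀ j : Fin n ⊕ Fin n, aeval (fun o : Option (Fin n ⊕ Fin n) => o.elim 0 q)
          (pderiv (some j) (Φ (Sum.inl i))) * D (q j) =
          if j = Sum.inl (i : Fin n) then D (z i) else 0 := by
        intro j
        change aeval _ (pderiv (some j) (X (some (Sum.inl (i : Fin n))) * RCM.par n (φ i₀) -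
          RCM.par n (φ i))) * D (q j) = _
        rw [map_sub, RCM.pderiv_par, sub_zero, Derivation.leibniz, RCM.pderiv_par, smul_zero,
          zero_add, smul_eq_mul, map_mul, RCM.aeval_par, hφ0, hzi, one_mul]
        split_ifs with hj
        · rw [hj, pderiv_X_self, map_one, one_mul]
          rfl
        · rw [pderiv_X_of_ne (fun e => hj (Option.some_injective _ e).symm), map_zero, zero_mul]
      rw [Finset.sum_congr rfl fun j _ => h2 j, Finset.sum_ite_eq' Finset.univ,
        if_pos (Finset.mem_univ _)] at h1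
      exact h1
    have hz2 : ∀ j, D (z j) = 0 := fun j => RCM.der_alg (hBalg j) hD hz1
    have hw2 := lt_der hLt hwi hw hwE' htr hIN (RCM.kills_range hD hz2) (fun i => by
      have h1 := hl (Sum.inr i)
      change ∑ j, aeval _ (pderiv (some j) (rename (fun j => some (Sum.inr j))
        (eqs h g a (Fin.natAdd s (I i))))) * D (q j) = 0 at h1
      have h2 := sum_pderiv_rename (fun j : Fin n => (some (Sum.inr j) : Option (Fin n ⊕ Fin n)))
        (eqs h g a (Fin.natAdd s (I i))) (fun o : Option (Fin n ⊕ Fin n) => o.elim 0 q)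
        (fun o : Option (Fin n ⊕ Fin n) => o.elim 0 fun j => D (q j))
      rw [Fintype.sum_option] at h2
      simp only [Option.elim_none, Option.elim_some, mul_zero, zero_add] at h2
      rw [h1] at h2
      unfold dFc
      rw [h2]
      refine Finset.sum_congr rfl fun j _ => ?_
      rw [mul_comm]
      rfl)
    rintro (i | i)
    · exact hz1 i
    · exact hw2 (f i)
  obtain ⟨V, y, u, hV, hu0, -, huC, hyq, hyalg, hyΦ, hyR⟩ := moveK k C hC hkC b hbai (by
    rintro (i | i)
    · exact hzC i
    · exact hwC (f i)) q (by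
    rintro (j | j)
    · exact hzb j
    · exact hwb j) Φ hΦC hΦ0 hJ
  -- the value of the curve
  have hφu : ∀ j, Sp V C ((φ j).eval u) (z j) := by
    intro j
    have h1 := Sp.aeval hV (RCM.coef_par (n := n) (hφC j)) (x := fun o : Option (Fin n ⊕ Fin n) =>
      o.elim u y) (c := fun o : Option (Fin n ⊕ Fin n) => o.elim 0 q) (by
      intro o
      rcases o with _ | i
      · exact hu0
      · exact hyq i)
    rwa [RCM.aeval_par, RCM.aeval_par, hφ0] at h1
  have hu1 : (φ i₀).eval u ≠ 0 := by
    refine (hφu i₀).ne_zero hV ?_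
    rw [hzi]
    exact one_ne_zero
  set x : Fin n → ℂ := fun j => (φ j).eval u / (φ i₀).eval u with hx
  have hxR : InR k z x := RCM.inR_curve hzi φ hφ u hu1
  have hxz : ∀ j, Sp V C (x j) (z j) := by
    intro j
    have h1 := (hφu j).div hV (hφu i₀) (by rw [hzi]; exact one_ne_zero)
    rwa [hzi, div_one] at h1
  -- the first coordinates of the moved point
  set ζ : Fin n → ℂ := fun j => y (Sum.inl j) with hζ
  have hζR : InR k z ζ := by
    intro P hP h0
    have h1 := hyR (rename Sum.inl P) (RCM.coef_rename _ hP) (by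
      rw [aeval_rename]
      exact h0)
    rw [aeval_rename] at h1
    exact h1
  have hζx : ∀ i : B, ζ i = x i := by
    intro i
    have h1 := hyΦ (Sum.inl i)
    rw [hev1] at h1
    rw [hx]
    field_simp
    exact sub_eq_zero.1 h1
  have halg : ∀ v : Fin n → ℂ, InR k z v → (∀ j, Sp V C (v j) (z j)) → (∀ i : B, v i = ζ i) →
      ∀ j, v j ∈ clo (adj k (Set.range fun i : B => ζ i)) := by
    intro v hv hvz hvB j
    obtain ⟨R, hR, hR0, hR1⟩ := exists_rel (hBalg j)
    set e : Option B → Fin n := fun o => o.elim j (fun i => i) with he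
    have hcomp : ∀ v' : Fin n → ℂ, v' ∘ e = fun o : Option B => o.elim (v' j) (fun i => v' i) := by
      intro v'
      refine _root_.funext fun o => ?_
      rcases o with _ | i <;> rfl
    have h1 : aeval (fun o : Option B => o.elim (v j) (fun i => v i)) R = 0 := by
      have h2 := hv (rename e R) (RCM.coef_rename _ hR) (by
        rw [aeval_rename, hcomp]
        exact hR0)
      rwa [aeval_rename, hcomp] at h2
    have h3 : aeval (fun o : Option B => o.elim (v j) (fun i => v i)) (pderiv none R) ≠ 0 := by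
      refine Sp.ne_zero hV (c := aeval (fun o : Option B => o.elim (z j) fun i => z i)
        (pderiv none R)) ?_ hR1
      refine Sp.aeval hV ?_ ?_
      · obtain ⟨R', hR'⟩ := coef_iff.1 (hR.mono hkC)
        refine coef_iff.2 ⟨pderiv none R', ?_⟩
        rw [← pderiv_map, hR']
      · intro o
        rcases o with _ | i
        · exact hvz j
        · exact hvz i
    have h4 := alg_of_rel hR h1 h3
    have h5 : (fun i : B => v i) = fun i : B => ζ i := _root_.funext fun i => hvB i
    rwa [h5] at h4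
  have hζz : ∀ j, Sp V C (ζ j) (z j) := fun j => hyq (Sum.inl j)
  have hpair : InR k (Sum.elim z z) (Sum.elim ζ x) := by
    refine inD_of_sp hkC hV hBai (A := fun i : B => ζ i) (fun i => hζz i) ?_ ?_
    · rintro (j | j)
      · exact hζz j
      · exact hxz j
    · rintro (j | j)
      · exact halg ζ hζR hζz (fun i => rfl) j
      · exact halg x hxR hxz (fun i => (hζx i).symm) j
  have hζx' : ∀ j, ζ j = x j := by
    intro j
    have h1 := hpair (X (Sum.inl j) - X (Sum.inr j)) (RCM.coef_sub (RCM.coef_X _) (RCM.coef_X _))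
      (by rw [map_sub, aeval_X, aeval_X]; exact sub_self _)
    rw [map_sub, aeval_X, aeval_X] at h1
    exact sub_eq_zero.1 h1
  have hφζ : (fun j => (φ j).eval u) = fun j => (φ i₀).eval u * ζ j := by
    refine _root_.funext fun j => ?_
    rw [hζx' j, hx]
    field_simp
  -- the second coordinates
  have hy1 : y (Sum.inr i₁) = 1 := by
    have h1 := hyR (X (Sum.inr i₁) - MvPolynomial.C 1)
      (RCM.coef_sub (RCM.coef_X _) (RCM.coef_C k.one_mem)) (by
        rw [map_sub, aeval_X, aeval_C, map_one]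
        change w i₁ - 1 = 0
        rw [hwi, sub_self])
    rw [map_sub, aeval_X, aeval_C, map_one] at h1
    exact sub_eq_zero.1 h1
  refine ⟨V, fun j => y (Sum.inr j), u, hV, hu0, huC, fun j => hyq (Sum.inr j),
    fun j => hyalg (Sum.inr j), hy1, ⟨?_, ?_⟩, ?_⟩
  · intro h0
    have h1 := congrFun h0 i₁
    rw [Pi.zero_apply] at h1
    rw [hy1] at h1
    exact one_ne_zero h1
  · intro i
    refine Fin.addCases (fun j => ?_) (fun j => ?_) i
    · have h1 : eqs h g a (Fin.castAdd m j) = h j := by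
        unfold eqs
        rw [Fin.append_left]
      have h2 := hw.2 (Fin.castAdd m j)
      rw [h1] at h2 ⊢
      have h3 := hyR (rename Sum.inr (h j)) (RCM.coef_rename _ (H.coefh j)) (by
        rw [aeval_rename]
        exact h2)
      rw [aeval_rename] at h3
      exact h3
    · have h0 : ∀ (I' : Fin (c + 1) → Fin m) (N₁ : Fin (c + 1) → Fin L),
          mnr g I' N₁ (fun j => y (Sum.inr j)) = 0 := by
        intro I' N₁
        have h1 : mnr g I' N₁ w = 0 := mnr_zero (Q := mat g w) (H.rk w hw).le I' N₁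
        rw [← aeval_mnrP] at h1 ⊢
        have h3 := hyR (rename Sum.inr (mnrP g I' N₁)) (RCM.coef_rename _ (coef_mnrP H.coefg I' N₁))
          (by rw [aeval_rename]; exact h1)
        rw [aeval_rename] at h3
        exact h3
      have h1 : mnr g I N' (fun j => y (Sum.inr j)) ≠ 0 := by
        rw [← aeval_mnrP] at hN' ⊢
        refine Sp.ne_zero hV (c := aeval w (mnrP g I N')) ?_ hN'
        exact Sp.aeval hV ((coef_mnrP H.coefg I N').mono hkC) fun o => hyq (Sum.inr o)
      obtain ⟨β, hβ⟩ := row_comb (X := fun i l => aeval (fun j => y (Sum.inr j)) (g i l)) h1 h0 j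
      have h2 : ∀ i : Fin m, aeval (fun j => y (Sum.inr j)) (eqs h g a (Fin.natAdd s i)) =
          ∑ l, a l * aeval (fun j => y (Sum.inr j)) (g i l) := by
        intro i
        unfold eqs
        rw [Fin.append_right, map_sum]
        refine Finset.sum_congr rfl fun l _ => ?_
        rw [map_mul, aeval_C]
        rfl
      have h3 : ∀ i : Fin c, ∑ l, a l * aeval (fun j => y (Sum.inr j)) (g (I i) l) = 0 := by
        intro i
        have h4 := hyΦ (Sum.inr i)
        rwa [hev2, h2] at h4
      rw [h2]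
      have h5 : ∀ l, a l * aeval (fun j => y (Sum.inr j)) (g j l) =
          ∑ i, β i * (a l * aeval (fun j => y (Sum.inr j)) (g (I i) l)) := by
        intro l
        rw [hβ l, Finset.mul_sum]
        exact Finset.sum_congr rfl fun i _ => by ring
      rw [Finset.sum_congr rfl fun l _ => h5 l, Finset.sum_comm]
      refine Finset.sum_eq_zero fun i _ => ?_
      rw [← Finset.mul_sum, h3, mul_zero]
  · rw [hφζ]
    have h1 : Rel2 k z w ζ (fun j => y (Sum.inr j)) := by
      intro P e e' _ hP h0
      have h2 := hyR P hP h0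
      have h3 : y = Sum.elim ζ (fun j => y (Sum.inr j)) := by
        refine _root_.funext fun o => ?_
        rcases o with j | j <;> rfl
      rwa [h3] at h2
    have h4 := rel2_smul h1 ((φ i₀).eval u) 1
    simpa only [one_mul] using h4

end Lin

end Pool.Agent.VCO
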