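import Pool.Agent.VCO.Letters
import Pool.Agent.VCO.RCMove
import Pool.Agent.VRB.Link

/-!
# The classes of the limits
-/

set_option autoImplicit false

open scoped LinearAlgebra.Projectivization
open MvPolynomial

namespace Pool.Agent.VCO

open Pool.Agent.VGS (Fl adj clo Coef IsPl Sp le_adj subset_adj adj_le le_clo clo_mono clo_clo
  fix_mem_clo Fix_mono mem_Fix_adj)
open Pool.Agent.VCI hiding EffCorr IsGenericPoint tau tauC
open Pool.Agent.VRC (cone TrLe Rel Rel2 lk_coef_iff lk_coef_C lk_cycle lk_orb_sw lk_limit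
  rel2_conj rel_of_rel2 trLe_of_rel)
open Pool.Agent.VRB (Sp2 eqs mat eqs_cast eqs_nat lt_over lt_conj)

variable {n : ℕ} [NeZero n] {s m L c u : ℕ} {k K : Fl} {h : Fin s → MvPolynomial (Fin n) ℂ}
  {g : Fin m → Fin L → MvPolynomial (Fin n) ℂ} {E : Fin u → MvPolynomial (Fin n ⊕ Fin n) ℂ}
  {a : Fin L → ℂ} {d : Fin (s + m) → ℕ}

omit [NeZero n] in
theorem lk_kK (H : LinC c k h g E a K d) : k ≤ K := by
  rw [H.hK]
  exact le_adj _ _

omit [NeZero n] in
theorem lk_cK (H : LinC c k h g E a K d) : Countable K := by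
  have := H.ck
  rw [H.hK]
  have : Countable (Set.range a) := (Set.countable_range _).to_subtype
  infer_instance

omit [NeZero n] in
theorem lk_coef (H : LinC c k h g E a K d) (i : Fin (s + m)) : Coef K (eqs h g a i) := by
  classical
  refine Fin.addCases (fun j => ?_) (fun j => ?_) i
  · rw [eqs_cast]
    exact (H.coefh j).mono (lk_kK H)
  · rw [eqs_nat, lk_coef_iff]
    refine sum_mem fun l _ => mul_mem (lk_coef_iff.1 (lk_coef_C ?_))
      (lk_coef_iff.1 ((H.coefg j l).mono (lk_kK H)))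
    rw [H.hK]
    exact subset_adj _ _ ⟨l, rfl⟩

/-- the limits of the moved points -/
theorem lk_class (H : LinC c k h g E a K d) {z : Fin n → ℂ} (hz : z ≠ 0) {i₀ : Fin n}
    (hzi : z i₀ = 1) (hp : Projectivization.mk ℂ z hz ∈ Gen K (eqs h g a))
    {w : Fin n → ℂ} {i₁ : Fin n} (hwi : w i₁ = 1) (hw : w ∈ cone (eqs h g a))
    (hwE : ∀ j, w j ∈ clo (adj K (Set.range z))) (htr : TrLe (adj k (Set.range z)) c w)
    {w₀ : Fin n → ℂ} {i : Fin n} (hw₀i : w₀ i = 1) (hw₀ : w₀ ∈ cone (eqs h g a))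
    (hrel : Rel (adj k (Set.range z)) w w₀) :
    mkP w₀ = Projectivization.mk ℂ z hz ∨
      ∃ σ ∈ VGS.Fix (adj K (Set.range z)), act σ (mkP w) = mkP w₀ := by
  classical
  obtain ⟨α, hα⟩ := Projectivization.exists_smul_eq_mk_rep ℂ z hz
  have hrep : ∀ j, (Projectivization.mk ℂ z hz : PN n).rep j = (α : ℂ) * z j := by
    intro j
    rw [← hα]
    rfl
  have hα0 : (α : ℂ) ≠ 0 := α.ne_zero
  rcases H.sep _ hp w₀ hw₀ with h1 | h1
  · left
    rw [mkP_eq hw₀.1]
    refine pp_eq_of_cross hw₀.1 hz fun j j' => ?_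
    have h2 := h1 j j'
    rw [hrep, hrep] at h2
    have h4 : (α : ℂ) * (w₀ j * z j') = (α : ℂ) * (w₀ j' * z j) := by linear_combination h2
    exact mul_left_cancel₀ hα0 h4
  · right
    have h2 : Sp2 g z w₀ := h1.scale H.homg hα0 hrep (ν := 1) (fun j => (one_mul _).symm)
    obtain ⟨Λ, hΛ, A, S, HL, hadj, -, hsp⟩ := lt_of H hz hzi hp
    have hS := (hsp w₀ hw₀).1 h2
    have hover := lt_over HL hw₀i hw₀ (trLe_of_rel hw₀i htr hrel) hS
    rw [← hadj]
    exact lt_conj HL hwi hw₀i hw hw₀ (fun j => by rw [hadj]; exact hwE j) hover htr hrel hS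

end Pool.Agent.VCO
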