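import Pool.Agent.VCO.Defs
import Pool.Agent.VIR.SDefs

/-!
# Zero sets of sections of vector bundles on varieties which are fibred over a surface:
definitions for the proof
-/

set_option autoImplicit false

open scoped LinearAlgebra.Projectivization
open MvPolynomial

namespace Pool.Agent.VCO

open Pool.Agent.VGS (Fl adj clo Coef Kills)
open Pool.Agent.VCI (PN ciS Cy cycQ ratQ act actC Gen adjP Over)
open Pool.Agent.VRC (cone IsIrr IsBiHom EffCorr TrLe)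
open Pool.Agent.VRB (eqs mat Sp2)
open Pool.Agent.VIR (EqvP)

variable {n : ℕ}

/-- `q` is another point of the class of `p`. -/
def Nb {m u : ℕ} (F : Fin m → MvPolynomial (Fin n) ℂ)
    (E : Fin u → MvPolynomial (Fin n ⊕ Fin n) ℂ) (p q : PN n) : Prop :=
  q ∈ ciS F ∧ EqvP E p q ∧ q ≠ p

/-- What the proof uses about the classes. -/
structure ClsC {m u : ℕ} (F : Fin m → MvPolynomial (Fin n) ℂ)
    (E : Fin u → MvPolynomial (Fin n ⊕ Fin n) ℂ) (K : Fl) : Prop where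
  act : ∀ σ ∈ VGS.Fix K, ∀ p q : PN n, EqvP E p q → EqvP E (act σ p) (act σ q)
  refl : ∀ p ∈ ciS F, EqvP E p p
  symm : ∀ p ∈ ciS F, ∀ q ∈ ciS F, EqvP E p q → EqvP E q p
  trans : ∀ p ∈ ciS F, ∀ q ∈ ciS F, ∀ x ∈ ciS F, EqvP E p q → EqvP E q x → EqvP E p x
  fin : ∀ p ∈ Gen K F, {q | q ∈ ciS F ∧ EqvP E p q}.Finite
  two : ∀ p ∈ Gen K F, ∃ q, Nb F E p q
  ov : ∀ p ∈ Gen K F, ∀ q ∈ ciS F, EqvP E p q → Over (clo (adjP K p)) q
  gen : ∀ L : Fl, Countable L → K ≤ L → ∀ p ∈ Gen L F, ∀ q ∈ ciS F, EqvP E p q → q ∈ Gen L F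
  conj : ∀ L : Fl, Countable L → K ≤ L → ∀ p ∈ Gen L F, ∀ q q' : PN n, Nb F E p q →
    Nb F E p q' → ∃ σ ∈ VGS.Fix (adjP L p), VCI.act σ q = q'

/-- The data of the theorem over the ground field `k`. -/
structure LinC {s m L u : ℕ} (c : ℕ) (k : Fl) (h : Fin s → MvPolynomial (Fin n) ℂ)
    (g : Fin m → Fin L → MvPolynomial (Fin n) ℂ) (E : Fin u → MvPolynomial (Fin n ⊕ Fin n) ℂ)
    (a : Fin L → ℂ) (K : Fl) (d : Fin (s + m) → ℕ) : Prop where
  ck : Countable k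
  hK : K = adj k (Set.range a)
  hom : ∀ i, (eqs h g a i).IsHomogeneous (d i)
  homg : ∀ i l, (g i l).IsHomogeneous (d (Fin.natAdd s i))
  coefh : ∀ j, Coef k (h j)
  coefg : ∀ i l, Coef k (g i l)
  ai : AlgebraicIndependent k a
  rk : ∀ z ∈ cone (eqs h g a), (mat g z).rank = c
  trd : ∀ z ∈ cone (eqs h g a), ∀ i, z i = 1 → TrLe k (c + 2) z
  trdX : ∀ L : Fl, K ≤ L → ∀ z ∈ cone (eqs h g a), ∀ i, z i = 1 → TrLe L 2 z
  sep : ∀ p ∈ Gen K (eqs h g a), ∀ y ∈ cone (eqs h g a),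
    (∀ i j, y i * p.rep j = y j * p.rep i) ∨ Sp2 g p.rep y
  rc : ∀ (z z' : Fin n → ℂ) (hz : z ≠ 0) (hz' : z' ≠ 0) (i i' : Fin n), z i = 1 → z' i' = 1 →
    Projectivization.mk ℂ z hz ∈ Gen K (eqs h g a) →
    Nb (eqs h g a) E (Projectivization.mk ℂ z hz) (Projectivization.mk ℂ z' hz') →
    ∃ φ : Fin n → Polynomial ℂ,
      (∀ j l, (φ j).coeff l ∈ clo (adj k (Set.range z ∪ Set.range z'))) ∧
      (∀ j, (φ j).eval 0 = z j) ∧ (∀ j, (φ j).eval 1 = z' j) ∧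
      ∀ (P : MvPolynomial (Fin n) ℂ) (e : ℕ), P.IsHomogeneous e → Coef k P → aeval z P = 0 →
        aeval φ P = 0
  conj : ∀ L : Fl, Countable L → K ≤ L → ∀ p ∈ Gen L (eqs h g a), ∀ q ∈ Gen L (eqs h g a),
    ∃ σ ∈ VGS.Fix (clo L), act σ p = q
  cls : ClsC (eqs h g a) E K

/-- The differences of equivalent generic points. -/
noncomputable def VC {m u : ℕ} (F : Fin m → MvPolynomial (Fin n) ℂ)
    (E : Fin u → MvPolynomial (Fin n ⊕ Fin n) ℂ) (L : Fl) : Submodule ℚ (Cy n) :=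
  Submodule.span ℚ {v | ∃ p ∈ Gen L F, ∃ q ∈ Gen L F, EqvP E p q ∧
    v = Finsupp.single p 1 - Finsupp.single q 1}

/-- The sum of the points of the class of `p`. -/
noncomputable def clsSum {m u : ℕ} (F : Fin m → MvPolynomial (Fin n) ℂ)
    (E : Fin u → MvPolynomial (Fin n ⊕ Fin n) ℂ) (p : PN n) : Cy n := by
  classical
  exact if h : {q | q ∈ ciS F ∧ EqvP E p q}.Finite then ∑ q ∈ h.toFinset, Finsupp.single q 1 else 0

end Pool.Agent.VCO
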