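import Pool.Agent.VIR.UniqRC
import Pool.Agent.VCO.RCMove

/-!
# The moved point on the rational curve is unique
-/

set_option autoImplicit false

open scoped LinearAlgebra.Projectivization
open MvPolynomial

namespace Pool.Agent.VCO

open Pool.Agent.VGS (Fl adj clo Coef Kills IsPl Sp coef_iff le_clo subset_adj le_adj adj_le
  clo_mono clo_clo ai_sum ai_mono)
open Pool.Agent.VCI hiding EffCorr IsGenericPoint tau tauC
open Pool.Agent.VRC (cone TrLe Rel Rel2 IsBiHom RCM.coef_C)
open Pool.Agent.VRC hiding eqs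
open Pool.Agent.VRB hiding rc_move lt_of base
open Pool.Agent.VIR (uniq_lift inR_of_rel2)

variable {n : ℕ}

section Lin

variable [NeZero n] {s m L c u : ℕ} {k K : Fl} {h : Fin s → MvPolynomial (Fin n) ℂ}
  {g : Fin m → Fin L → MvPolynomial (Fin n) ℂ} {E : Fin u → MvPolynomial (Fin n ⊕ Fin n) ℂ}
  {a : Fin L → ℂ} {d : Fin (s + m) → ℕ}

/-- **The moved point on the rational curve is unique.** -/
theorem rc_uniq (H : LinC c k h g E a K d) {z : Fin n → ℂ} (hz : z ≠ 0) {i₀ : Fin n}
    (hzi : z i₀ = 1) (hp : Projectivization.mk ℂ z hz ∈ Gen K (eqs h g a))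
    {w : Fin n → ℂ} {i₁ : Fin n} (hwi : w i₁ = 1) (hw : w ∈ cone (eqs h g a))
    (hwE : ∀ j, w j ∈ clo (adj K (Set.range z))) (htr : TrLe (adj k (Set.range z)) c w)
    (hS : Sp2 g z w)
    (C : Fl) [Countable C] (hC : clo C = C) (hKC : adj K (Set.range z) ≤ C)
    (φ : Fin n → Polynomial ℂ) (hφC : ∀ j l, (φ j).coeff l ∈ C)
    (hφ0 : ∀ j, (φ j).eval 0 = z j)
    (_ : ∀ (P : MvPolynomial (Fin n) ℂ) (e : ℕ), P.IsHomogeneous e → Coef k P →
      aeval z P = 0 → aeval φ P = 0)
    {V : ValuationSubring ℂ} (hV : IsPl V C) {v : ℂ} (hvC : v ∉ C) (hv : Sp V C v 0)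
    {y y' : Fin n → ℂ} (hyi : y i₁ = 1) (hyi' : y' i₁ = 1) (hyX : y ∈ cone (eqs h g a))
    (hyX' : y' ∈ cone (eqs h g a)) (hy : ∀ j, Sp V C (y j) (w j))
    (hy' : ∀ j, Sp V C (y' j) (w j)) (hR : Rel2 k z w (fun j => (φ j).eval v) y)
    (hR' : Rel2 k z w (fun j => (φ j).eval v) y')
    (hyC : ∀ j, y j ∈ clo (adj C {v})) (hyC' : ∀ j, y' j ∈ clo (adj C {v})) : y = y' := by
  classical
  -- the fields
  have hkK : k ≤ K := by
    rw [H.hK]
    exact le_adj _ _
  have hkC : k ≤ C := hkK.trans ((le_adj _ _).trans hKC)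
  have hzC : ∀ j, z j ∈ C := fun j => hKC (subset_adj _ _ ⟨j, rfl⟩)
  have hcloC : clo (adj K (Set.range z)) ≤ C := by
    rw [← hC]
    exact clo_mono hKC
  have hwC : ∀ j, w j ∈ C := fun j => hcloC (hwE j)
  have hzcone : z ∈ cone (eqs h g a) := ⟨hz, (mem_surf_mk H.hom hz).1 hp.1⟩
  -- the letters
  obtain ⟨Λ, _, A, S, hLt, hadj, hSg, hSp⟩ := lt_of H hz hzi hp
  have hwE' : ∀ j, w j ∈ clo (adj (adj k (Set.range z)) (Set.range A)) := by
    intro j
    rw [hadj]
    exact hwE j
  obtain ⟨I, N, hIN⟩ := (hSp w hw).1 hS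
  obtain ⟨f, hfai, hfalg⟩ := lt_trd hLt hwi hw hwE' htr ⟨I, N, hIN⟩
  -- the rows of the minor
  choose b₀ hb₀ using hSg
  obtain ⟨N', hN'⟩ : ∃ N' : Fin c → Fin L, mnr g I N' w ≠ 0 := by
    refine exists_cols (X := fun i l => aeval w (g i l)) (I := I) (b := fun j => b₀ (N j)) ?_
    have h1 : (Matrix.of fun i j => ∑ l, b₀ (N j) l * aeval w (g (I i) l) :
        Matrix (Fin c) (Fin c) ℂ) = Matrix.of fun i j => aeval w (S (I i) (N j)) := by
      ext i j
      rw [Matrix.of_apply, Matrix.of_apply, hb₀, map_sum]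
      refine Finset.sum_congr rfl fun l _ => ?_
      rw [map_mul, aeval_C]
      rfl
    rw [h1]
    exact hIN
  -- the parameters
  obtain ⟨B, hBai, hBalg⟩ := RCM.exists_basis k z
  set b : B ⊕ Fin c → ℂ := Sum.elim (fun i : B => z i) (fun i => w (f i)) with hb
  have hadjB : adj k (Set.range z) ≤ clo (adj k (Set.range fun i : B => z i)) := by
    refine adj_le ((le_adj _ _).trans (le_clo _)) ?_
    rintro _ ⟨j, rfl⟩
    exact hBalg j
  have hbai : AlgebraicIndependent k b := by
    rw [hb, ai_sum]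
    refine ⟨hBai, ?_⟩
    have h1 : adj k (Set.range fun i : B => z i) ≤ adj k (Set.range z) := by
      refine adj_le (le_adj _ _) ?_
      rintro _ ⟨i, rfl⟩
      exact subset_adj _ _ ⟨_, rfl⟩
    exact ai_mono h1 hfai
  have hbz : ∀ i : B, z i ∈ Set.range b := fun i => ⟨Sum.inl i, rfl⟩
  have hbw : ∀ i : Fin c, w (f i) ∈ Set.range b := fun i => ⟨Sum.inr i, rfl⟩
  have hzb : ∀ j, z j ∈ clo (adj k (Set.range b)) := by
    intro j
    refine clo_mono (adj_le (le_adj _ _) ?_) (hBalg j)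
    rintro _ ⟨i, rfl⟩
    exact subset_adj _ _ (hbz i)
  have hwb : ∀ j, w j ∈ clo (adj k (Set.range b)) := by
    intro j
    have h1 : adj (adj k (Set.range z)) (Set.range fun i => w (f i)) ≤
        clo (adj k (Set.range b)) := by
      refine adj_le (adj_le ((le_adj _ _).trans (le_clo _)) ?_) ?_
      · rintro _ ⟨i, rfl⟩
        exact hzb i
      · rintro _ ⟨i, rfl⟩
        exact le_clo _ (subset_adj _ _ (hbw i))
    have h2 := clo_mono h1 (hfalg j)
    rwa [clo_clo] at h2
  set q : Fin n ⊕ Fin n → ℂ := Sum.elim z w with hq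
  -- the equations
  set Φ : B ⊕ Fin c → MvPolynomial (Option (Fin n ⊕ Fin n)) ℂ :=
    Sum.elim (fun i => X (some (Sum.inl (i : Fin n))) * RCM.par n (φ i₀) - RCM.par n (φ i))
      (fun i => rename (fun j => some (Sum.inr j)) (eqs h g a (Fin.natAdd s (I i)))) with hΦd
  have hcoefX : ∀ i, Coef C (eqs h g a i) := by
    intro i
    refine Fin.addCases (fun j => ?_) (fun j => ?_) i
    · have h1 : eqs h g a (Fin.castAdd m j) = h j := by
        unfold eqs
        rw [Fin.append_left]
      rw [h1]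
      exact (H.coefh j).mono hkC
    · have h1 : eqs h g a (Fin.natAdd s j) = ∑ l, MvPolynomial.C (a l) * g j l := by
        unfold eqs
        rw [Fin.append_right]
      rw [h1]
      refine RCM.coef_sum _ fun l _ => RCM.coef_mul (RCM.coef_C ?_) ((H.coefg j l).mono hkC)
      refine hKC (le_adj _ _ ?_)
      rw [H.hK]
      exact subset_adj _ _ ⟨l, rfl⟩
  have hΦC : ∀ l, Coef C (Φ l) := by
    rintro (i | i)
    · exact RCM.coef_sub (RCM.coef_mul (RCM.coef_X _) (RCM.coef_par (hφC i₀)))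
        (RCM.coef_par (hφC i))
    · exact RCM.coef_rename _ (hcoefX _)
  have hev1 : ∀ (u : ℂ) (y : Fin n ⊕ Fin n → ℂ) (i : B),
      aeval (fun o : Option (Fin n ⊕ Fin n) => o.elim u y) (Φ (Sum.inl i)) =
        y (Sum.inl i) * (φ i₀).eval u - (φ i).eval u := by
    intro u y i
    change aeval _ (X (some (Sum.inl (i : Fin n))) * RCM.par n (φ i₀) - RCM.par n (φ i)) = _
    rw [map_sub, map_mul, aeval_X, RCM.aeval_par, RCM.aeval_par]
    rfl
  have hev2 : ∀ (u : ℂ) (y : Fin n ⊕ Fin n → ℂ) (i : Fin c),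
      aeval (fun o : Option (Fin n ⊕ Fin n) => o.elim u y) (Φ (Sum.inr i)) =
        aeval (fun j => y (Sum.inr j)) (eqs h g a (Fin.natAdd s (I i))) := by
    intro u y i
    change aeval _ (rename (fun j => some (Sum.inr j)) (eqs h g a (Fin.natAdd s (I i)))) = _
    rw [aeval_rename]
    rfl
  have hΦ0 : ∀ l, aeval (fun o : Option (Fin n ⊕ Fin n) => o.elim 0 q) (Φ l) = 0 := by
    rintro (i | i)
    · rw [hev1, hφ0, hφ0, hzi, mul_one]
      exact sub_self _
    · rw [hev2]
      exact hw.2 _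
  have hJ : ∀ D : Derivation ℤ ℂ ℂ, Kills k D →
      (∀ l, ∑ i, aeval (fun o : Option (Fin n ⊕ Fin n) => o.elim 0 q)
        (pderiv (some i) (Φ l)) * D (q i) = 0) → ∀ l, D (b l) = 0 := by
    intro D hD hl
    have hz1 : ∀ i : B, D (z i) = 0 := by
      intro i
      have h1 := hl (Sum.inl i)
      have h2 : ∀ j : Fin n ⊕ Fin n, aeval (fun o : Option (Fin n ⊕ Fin n) => o.elim 0 q)
          (pderiv (some j) (Φ (Sum.inl i))) * D (q j) =
          if j = Sum.inl (i : Fin n) then D (z i) else 0 := by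
        intro j
        change aeval _ (pderiv (some j) (X (some (Sum.inl (i : Fin n))) * RCM.par n (φ i₀) -
          RCM.par n (φ i))) * D (q j) = _
        rw [map_sub, RCM.pderiv_par, sub_zero, Derivation.leibniz, RCM.pderiv_par, smul_zero,
          zero_add, smul_eq_mul, map_mul, RCM.aeval_par, hφ0, hzi, one_mul]
        split_ifs with hj
        · rw [hj, pderiv_X_self, map_one, one_mul]
          rfl
        · rw [pderiv_X_of_ne (fun e => hj (Option.some_injective _ e).symm), map_zero, zero_mul]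
      rw [Finset.sum_congr rfl fun j _ => h2 j, Finset.sum_ite_eq' Finset.univ,
        if_pos (Finset.mem_univ _)] at h1
      exact h1
    have hz2 : ∀ j, D (z j) = 0 := fun j => RCM.der_alg (hBalg j) hD hz1
    have hw2 := lt_der hLt hwi hw hwE' htr hIN (RCM.kills_range hD hz2) (fun i => by
      have h1 := hl (Sum.inr i)
      change ∑ j, aeval _ (pderiv (some j) (rename (fun j => some (Sum.inr j))
        (eqs h g a (Fin.natAdd s (I i))))) * D (q j) = 0 at h1
      have h2 := sum_pderiv_rename (fun j : Fin n => (some (Sum.inr j) : Option (Fin n ⊕ Fin n)))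
        (eqs h g a (Fin.natAdd s (I i))) (fun o : Option (Fin n ⊕ Fin n) => o.elim 0 q)
        (fun o : Option (Fin n ⊕ Fin n) => o.elim 0 fun j => D (q j))
      rw [Fintype.sum_option] at h2
      simp only [Option.elim_none, Option.elim_some, mul_zero, zero_add] at h2
      rw [h1] at h2
      unfold dFc
      rw [h2]
      refine Finset.sum_congr rfl fun j _ => ?_
      rw [mul_comm]
      rfl)
    rintro (i | i)
    · exact hz1 i
    · exact hw2 (f i)
  -- the value of the curve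
  have hφv : ∀ j, Sp V C ((φ j).eval v) (z j) := by
    intro j
    rw [← hφ0, Polynomial.eval_eq_sum_range, Polynomial.eval_eq_sum_range]
    exact Sp.sum hV _ fun l _ => (Sp.const hV (hφC j l)).mul hV (hv.pow hV l)
  have hv1 : (φ i₀).eval v ≠ 0 := by
    refine (hφv i₀).ne_zero hV ?_
    rw [hzi]
    exact one_ne_zero
  have hva : v ∈ adj C {v} := subset_adj C {v} (Set.mem_singleton v)
  have hφa : ∀ j, (φ j).eval v ∈ adj C {v} := by
    intro j
    rw [Polynomial.eval_eq_sum_range]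
    exact sum_mem fun l _ => mul_mem (le_adj C {v} (hφC j l)) (pow_mem hva l)
  set x : Fin n → ℂ := fun j => (φ j).eval v / (φ i₀).eval v with hx
  have hxi : x i₀ = 1 := div_self hv1
  have hxz : ∀ j, Sp V C (x j) (z j) := by
    intro j
    have h1 := (hφv j).div hV (hφv i₀) (by rw [hzi]; exact one_ne_zero)
    rwa [hzi, div_one] at h1
  have hxa : ∀ j, x j ∈ clo (adj C {v}) := fun j => le_clo _ (div_mem (hφa j) (hφa i₀))
  have hxR : ∀ y₁ : Fin n → ℂ, y₁ i₁ = 1 → Rel2 k z w (fun j => (φ j).eval v) y₁ →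
      InR k (Sum.elim z w) (Sum.elim x y₁) := by
    intro y₁ h1 h2
    refine inR_of_rel2 hzi hwi hxi h1 ?_
    have h3 := rel2_smul h2 ((φ i₀).eval v)⁻¹ 1
    have h4 : (fun j => ((φ i₀).eval v)⁻¹ * (φ j).eval v) = x := by
      funext j
      exact (mul_comm _ _).trans (div_eq_mul_inv _ _).symm
    rw [h4] at h3
    simpa only [one_mul] using h3
  have hsys : ∀ y₁ : Fin n → ℂ, y₁ ∈ cone (eqs h g a) → ∀ l,
      aeval (fun o : Option (Fin n ⊕ Fin n) => o.elim v (Sum.elim x y₁)) (Φ l) = 0 := by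
    intro y₁ h1
    rintro (i | i)
    · rw [hev1]
      change x i * (φ i₀).eval v - (φ i).eval v = 0
      rw [hx, div_mul_cancel₀ _ hv1, sub_self]
    · rw [hev2]
      exact h1.2 _
  set σ : B ⊕ Fin c → Fin n ⊕ Fin n := Sum.elim (fun i => Sum.inl (i : Fin n))
    (fun i => Sum.inr (f i)) with hσ
  have hσb : (fun l => q (σ l)) = b := by
    funext l
    rcases l with i | i <;> rfl
  have h1 := uniq_lift k C hC hkC σ q (by rw [hσb]; exact hbai) (by
      rw [hσb]
      rintro (j | j)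
      · exact hzb j
      · exact hwb j) Φ hΦC (by
      intro D hD hl l
      have h2 := hJ D hD hl l
      rwa [← hσb] at h2) hV hv hvC (y := Sum.elim x y) (y' := Sum.elim x y')
    (by rintro (j | j); exacts [hxz j, hy j]) (by rintro (j | j); exacts [hxz j, hy' j])
    (by rintro (j | j); exacts [hxa j, hyC j]) (by rintro (j | j); exacts [hxa j, hyC' j])
    (hsys y hyX) (hsys y' hyX') (hxR y hyi hR) (hxR y' hyi' hR')
  funext j
  exact congrFun h1 (Sum.inr j)

end Lin

end Pool.Agent.VCO
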