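import Pool.Agent.VCO.Fam
import Pool.Agent.VCO.UniqRC
import Pool.Agent.VCO.CycFam

/-!
# The limit of the family of all lifts
-/

set_option autoImplicit false

open scoped LinearAlgebra.Projectivization
open MvPolynomial

namespace Pool.Agent.VCO

open Pool.Agent.VGS (Fl adj clo Coef IsPl Sp le_adj subset_adj adj_le le_clo clo_mono clo_clo
  fix_mem_clo Fix_mono mem_Fix_adj exists_extend)
open Pool.Agent.VCI hiding EffCorr IsGenericPoint tau tauC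
open Pool.Agent.VRC (cone TrLe Rel Rel2 lk_coef_iff lk_coef_C lk_cycle lk_orb_sw lk_limit
  rel2_conj rel2_act rel_of_rel2 trLe_of_rel)
open Pool.Agent.VRB (Sp2 eqs mat eqs_cast eqs_nat lt_over lt_conj)

variable {n : ℕ} [NeZero n] {s m L c u : ℕ} {k K : Fl} {h : Fin s → MvPolynomial (Fin n) ℂ}
  {g : Fin m → Fin L → MvPolynomial (Fin n) ℂ} {E : Fin u → MvPolynomial (Fin n ⊕ Fin n) ℂ}
  {a : Fin L → ℂ} {d : Fin (s + m) → ℕ}

/-- `Y` is a point of `X` over `clo M` which has with `x` the relations of `z` and `w` over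
`k`. -/
def IsLift (k M : Fl) (F : Fin m → MvPolynomial (Fin n) ℂ) (i₁ : Fin n) (z w x : Fin n → ℂ)
    (Y : PN n) : Prop :=
  ∃ y : Fin n → ℂ, Y = mkP y ∧ y i₁ = 1 ∧ y ∈ cone F ∧ (∀ j, y j ∈ clo M) ∧ Rel2 k z w x y

/-- the limits of the lifts -/
theorem side_lim (H : LinC c k h g E a K d) {z : Fin n → ℂ} (hz : z ≠ 0) {i₀ : Fin n}
    (hzi : z i₀ = 1) (hp : Projectivization.mk ℂ z hz ∈ Gen K (eqs h g a))
    {w : Fin n → ℂ} {i₁ : Fin n} (hwi : w i₁ = 1) (hw : w ∈ cone (eqs h g a))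
    (hwE : ∀ j, w j ∈ clo (adj K (Set.range z))) (htr : TrLe (adj k (Set.range z)) c w)
    {C : Fl} [Countable C] (hC : C = clo (adj K (Set.range z)))
    (φ : Fin n → Polynomial ℂ) (hφC : ∀ j l, (φ j).coeff l ∈ C)
    (hφ0 : ∀ j, (φ j).eval 0 = z j)
    {V : ValuationSubring ℂ} (hV : IsPl V C) {u : ℂ} (hu0 : Sp V C u 0)
    {T : Multiset (PN n)}
    (hTl : ∀ Y ∈ T, IsLift k (adj C {u}) (eqs h g a) i₁ z w (fun j => (φ j).eval u) Y)
    {f : PN n → PN n} (hf : ∀ Y ∈ T, SpP V C Y (f Y)) :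
    ∀ Y ∈ T, f Y = Projectivization.mk ℂ z hz ∨
      ∃ σ ∈ VGS.Fix (adj K (Set.range z)), act σ (mkP w) = f Y := by
  classical
  have hCC : clo C = C := by rw [hC, clo_clo]
  have hKC : adj K (Set.range z) ≤ C := by rw [hC]; exact le_clo _
  have hkK : k ≤ K := lk_kK H
  have hKC' : K ≤ C := (le_adj _ _).trans hKC
  have hkC : k ≤ C := hkK.trans hKC'
  have hcoef := lk_coef H
  have hcoefC : ∀ i, Coef C (eqs h g a i) := fun i => (hcoef i).mono hKC'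
  intro Y hY
  obtain ⟨y, rfl, hyi, hyX, hyC, hyrel⟩ := hTl Y hY
  have h3 := hf _ hY
  have hyF : mkP y ∈ ciS (eqs h g a) := by
    rw [mkP_eq hyX.1, mem_surf_mk H.hom]
    exact hyX.2
  have h4 := SpP.mem_ciS hV H.hom hcoefC h3 hyF
  have h5 : ∃ (w₁ : Fin n → ℂ) (i : Fin n), w₁ i = 1 ∧ w₁ ≠ 0 ∧ f (mkP y) = mkP w₁ ∧
      Rel2 k z w (fun j => (φ j).eval 0) w₁ := by
    have h6 : ∀ D : Fl, D = C → ∀ (_ : IsPl V D) (_ : Sp V D u 0)
        (_ : ∀ j l, (φ j).coeff l ∈ D) (_ : SpP V D (act 1 (mkP y)) (f (mkP y))),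
        D = clo C → ∃ (w₁ : Fin n → ℂ) (i : Fin n), w₁ i = 1 ∧ w₁ ≠ 0 ∧ f (mkP y) = mkP w₁ ∧
          Rel2 k z w (fun j => (1 : ℂ ≃+* ℂ) ((φ j).eval 0)) w₁ := by
      rintro D - a1 a2 a3 a4 rfl
      exact lk_limit hkC a1 a2 (zero_mem C) hyX.1 a3 hyrel (one_mem _) a4
    exact h6 C rfl hV hu0 hφC (by rw [act_one]; exact h3) hCC.symm
  obtain ⟨w₁, i, hi, hw₁, h6, h7⟩ := h5
  have h8 : (fun j => (φ j).eval 0) = z := funext hφ0
  rw [h8] at h7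
  rw [h6] at h4 ⊢
  rw [mkP_eq hw₁, mem_surf_mk H.hom] at h4
  exact lk_class H hz hzi hp hwi hw hwE htr hi ⟨hw₁, h4⟩ (rel_of_rel2 hzi h7)

/-- **The limit of the family of all lifts** is the sum of the conjugates of `w` and a multiple of
`z`. -/
theorem side (H : LinC c k h g E a K d) {z : Fin n → ℂ} (hz : z ≠ 0) {i₀ : Fin n}
    (hzi : z i₀ = 1) (hp : Projectivization.mk ℂ z hz ∈ Gen K (eqs h g a))
    {w : Fin n → ℂ} {i₁ : Fin n} (hwi : w i₁ = 1) (hw : w ∈ cone (eqs h g a))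
    (hwE : ∀ j, w j ∈ clo (adj K (Set.range z))) (htr : TrLe (adj k (Set.range z)) c w)
    (hS : Sp2 g z w) (hwz : mkP w ≠ Projectivization.mk ℂ z hz)
    {C : Fl} [Countable C] (hC : C = clo (adj K (Set.range z)))
    (φ : Fin n → Polynomial ℂ) (hφC : ∀ j l, (φ j).coeff l ∈ C)
    (hφ0 : ∀ j, (φ j).eval 0 = z j)
    (hφ : ∀ (P : MvPolynomial (Fin n) ℂ) (e : ℕ), P.IsHomogeneous e → Coef k P →
      aeval z P = 0 → aeval φ P = 0)
    {V : ValuationSubring ℂ} (hV : IsPl V C) {u : ℂ} (huC : u ∉ C) (hu0 : Sp V C u 0)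
    {T : Multiset (PN n)} (hT : T.Nodup)
    (hTl : ∀ Y ∈ T, IsLift k (adj C {u}) (eqs h g a) i₁ z w (fun j => (φ j).eval u) Y)
    {f : PN n → PN n} (hf : ∀ Y ∈ T, SpP V C Y (f Y))
    (hlift : ∀ σ ∈ VGS.Fix (adj K (Set.range z)), ∃ Y ∈ T, SpP V C Y (act σ (mkP w))) :
    ∃ b : ℕ, cycQ (T.map f) = Orb (adj K (Set.range z)) (mkP w) +
      (b : ℚ) • Finsupp.single (Projectivization.mk ℂ z hz) 1 := by
  classical
  have hCC : clo C = C := by rw [hC, clo_clo]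
  have hKC : adj K (Set.range z) ≤ C := by rw [hC]; exact le_clo _
  have hkK : k ≤ K := lk_kK H
  have hKC' : K ≤ C := (le_adj _ _).trans hKC
  have hkC : k ≤ C := hkK.trans hKC'
  have hcoef := lk_coef H
  have hcoefC : ∀ i, Coef C (eqs h g a i) := fun i => (hcoef i).mono hKC'
  have hzC : ∀ j, z j ∈ C := fun j => hKC (subset_adj _ _ ⟨j, rfl⟩)
  have hwC : ∀ j, w j ∈ C := fun j => by rw [hC]; exact hwE j
  have hwOver : Over (clo (adj K (Set.range z))) (mkP w) := by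
    rw [mkP_eq hw.1, over_mk hw.1 hwi]
    exact hwE
  have hpz : ∀ σ ∈ VGS.Fix (adj K (Set.range z)), act σ (Projectivization.mk ℂ z hz : PN n) =
      Projectivization.mk ℂ z hz := by
    intro σ hσ
    have h1 : (fun j => σ (z j)) = z := by
      funext j
      exact hσ _ (subset_adj _ _ ⟨j, rfl⟩)
    rw [act_mk σ z hz (map_ne_zero' σ hz)]
    simp only [h1]
  have hlim := side_lim H hz hzi hp hwi hw hwE htr hC φ hφC hφ0 hV hu0 hTl hf
  refine cyc_fam hT hwOver (fun σ hσ h1 => hwz ?_) hlim (fun σ hσ => ?_)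
    fun Y hY Y' hY' h1 h2 => ?_
  · rw [← hpz σ hσ] at h1
    exact act_injective σ h1
  · obtain ⟨Y, hY, h1⟩ := hlift σ hσ
    exact ⟨Y, hY, SpP.unique hV (hf Y hY) h1⟩
  · -- uniqueness
    obtain ⟨y, rfl, hyi, hyX, hyC, hyrel⟩ := hTl Y hY
    obtain ⟨y', rfl, hyi', hyX', hyC', hyrel'⟩ := hTl Y' hY'
    obtain ⟨σ, hσ, hσf⟩ := (hlim _ hY).resolve_left h2
    have hσi : σ⁻¹ ∈ VGS.Fix (adj K (Set.range z)) := inv_mem hσ
    have hσiC : ∀ x, σ⁻¹ x ∈ C ↔ x ∈ C := fun x => by rw [hC]; exact fix_mem_clo hσi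
    have hσK : σ⁻¹ ∈ VGS.Fix K := Fix_mono (le_adj _ _) hσi
    have hσk : σ⁻¹ ∈ VGS.Fix k := Fix_mono hkK hσK
    have hσw0 : (fun j => σ (w j)) ≠ 0 := map_ne_zero' σ hw.1
    have hσwi : (fun j => σ (w j)) i₁ = 1 := by
      change σ (w i₁) = 1
      rw [hwi, map_one]
    obtain ⟨V', hV', hSp, -⟩ := exists_transport (n := n) hV σ⁻¹ hσiC
    have key : ∀ v : Fin n → ℂ, mkP v ∈ T → v i₁ = 1 → v ∈ cone (eqs h g a) →
        (∀ j, v j ∈ clo (adj C {u})) → Rel2 k z w (fun j => (φ j).eval u) v →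
        f (mkP v) = act σ (mkP w) →
        (∀ j, Sp V' C (σ⁻¹ (v j)) (w j)) ∧ (∀ j, σ⁻¹ (v j) ∈ clo (adj C {σ⁻¹ u})) ∧
        (fun j => σ⁻¹ (v j)) i₁ = 1 ∧ (fun j => σ⁻¹ (v j)) ∈ cone (eqs h g a) ∧
        Rel2 k z w (fun j => ((φ j).map ((σ⁻¹ : ℂ ≃+* ℂ) : ℂ →+* ℂ)).eval (σ⁻¹ u))
          fun j => σ⁻¹ (v j) := by
      intro v hvT hvi hvX hvC hvrel hvf
      refine ⟨fun j => ?_, fun j => ?_, ?_, ⟨map_ne_zero' _ hvX.1, fun i => ?_⟩, ?_⟩
      · have h3 := hf _ hvT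
        rw [hvf, act_mkP, mkP_eq hvX.1, mkP_eq hσw0] at h3
        have h4 := (spP_mk hV hvX.1 hσw0 hvi hσwi).1 h3 j
        have h5 := (hSp _ _).2 h4
        have h6 : σ⁻¹ (σ (w j)) = w j := σ.symm_apply_apply _
        rwa [h6] at h5
      · refine clo_map (adj_map (L' := C) (S' := {σ⁻¹ u}) (fun x hx => (hσiC x).2 hx) ?_) _
          (hvC j)
        rintro x rfl
        exact subset_adj _ _ rfl
      · change σ⁻¹ (v i₁) = 1
        rw [hvi, map_one]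
      · rw [VGS.aeval_fix (hcoef i) hσK v, hvX.2 i, map_zero]
      · have h3 := rel2_act hvrel hσk
        have h4 : (fun j => σ⁻¹ ((φ j).eval u)) =
            fun j => ((φ j).map ((σ⁻¹ : ℂ ≃+* ℂ) : ℂ →+* ℂ)).eval (σ⁻¹ u) := by
          funext j
          exact (fm_eval σ⁻¹ (φ j) u).symm
        rwa [h4] at h3
    obtain ⟨a1, a2, a3, a4, a5⟩ := key y hY hyi hyX hyC hyrel hσf.symm
    obtain ⟨b1, b2, b3, b4, b5⟩ := key y' hY' hyi' hyX' hyC' hyrel' (by rw [← h1]; exact hσf.symm)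
    have huσ : σ⁻¹ u ∉ C := fun h3 => huC ((hσiC u).1 h3)
    have hu0' : Sp V' C (σ⁻¹ u) 0 := by
      have h3 := (hSp u 0).2 hu0
      rwa [map_zero] at h3
    have h3 := rc_uniq H hz hzi hp hwi hw hwE htr hS C hCC hKC
      (fun j => (φ j).map ((σ⁻¹ : ℂ ≃+* ℂ) : ℂ →+* ℂ)) (fun j l => by
        rw [Polynomial.coeff_map]
        exact (hσiC _).2 (hφC j l)) (fun j => by
        have h1 := fm_eval (σ⁻¹ : ℂ ≃+* ℂ) (φ j) 0
        rw [map_zero, hφ0] at h1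
        rw [h1]
        exact hσi _ (subset_adj _ _ ⟨j, rfl⟩)) (fun P e hP hPk h0 => by
        rw [fm_aeval hσk hPk, hφ P e hP hPk h0, Polynomial.map_zero]) hV' huσ hu0' a3 b3 a4 b4
      a1 b1 a5 b5 a2 b2
    have h4 : y = y' := by
      funext j
      exact (σ⁻¹ : ℂ ≃+* ℂ).injective (congrFun h3 j)
    rw [h4]

end Pool.Agent.VCO
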